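import Mathlib

/-!
# The swap lemma for random maximum stable sets

`r` is a symmetric reflexive relation (adjacency or equality) on a finite set. Among the stable
subsets of `A` of maximum cardinality choose one with probability proportional to `∏ lam`. If
`lam` has total weight at most `1` on every clique, then for every `e ∈ A` the expected number of
chosen elements in the closed neighbourhood of `e`, plus `P(e) / lam e`, is at least `2`.
-/

set_option autoImplicit false
set_option linter.unusedSectionVars false

namespace H4.FKS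

open Finset

variable {E : Type*} [DecidableEq E]

/-- A stable set for the relation `r`. -/
def Stable (r : E → E → Prop) (M : Finset E) : Prop :=
  ∀ e ∈ M, ∀ f ∈ M, e ≠ f → ¬ r e f

open Classical in
/-- The stable subsets of `A` of maximum cardinality. -/
noncomputable def maxStable (r : E → E → Prop) (A : Finset E) : Finset (Finset E) :=
  A.powerset.filter fun S => Stable r S ∧ ∀ T ⊆ A, Stable r T → T.card ≤ S.card

theorem mem_maxStable {r : E → E → Prop} {A S : Finset E} :
    S ∈ maxStable r A ↔ S ⊆ A ∧ Stable r S ∧ ∀ T ⊆ A, Stable r T → T.card ≤ S.card := by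
  classical
  simp [maxStable]

theorem stable_empty (r : E → E → Prop) : Stable r (∅ : Finset E) := by
  intro e he; simp at he

theorem Stable.mono {r : E → E → Prop} {S T : Finset E} (h : Stable r T) (hS : S ⊆ T) :
    Stable r S := fun e he f hf hef => h e (hS he) f (hS hf) hef

theorem Stable.insert {r : E → E → Prop} (hs : ∀ a b, r a b → r b a) {S : Finset E} {e : E}
    (h : Stable r S) (he : ∀ f ∈ S, f ≠ e → ¬ r e f) : Stable r (insert e S) := by
  intro a ha b hb hab hr
  rw [mem_insert] at ha hb
  rcases ha with ha | ha <;> rcases hb with hb | hb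
  · exact hab (ha.trans hb.symm)
  · subst ha
    exact he b hb (fun h => hab h.symm) hr
  · subst hb
    exact he a ha hab (hs _ _ hr)
  · exact h a ha b hb hab hr

theorem maxStable_nonempty (r : E → E → Prop) (A : Finset E) : (maxStable r A).Nonempty := by
  classical
  have hne : (A.powerset.filter fun S => Stable r S).Nonempty :=
    ⟨∅, by simp [stable_empty]⟩
  obtain ⟨S, hS, hmax⟩ := exists_max_image _ Finset.card hne
  rw [mem_filter, mem_powerset] at hS
  refine ⟨S, mem_maxStable.2 ⟨hS.1, hS.2, fun T hT hst => hmax T ?_⟩⟩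
  rw [mem_filter, mem_powerset]
  exact ⟨hT, hst⟩

/-- The number of elements of `S` in the closed neighbourhood of `e`. -/
noncomputable def nb (r : E → E → Prop) (e : E) (S : Finset E) : ℕ := by
  classical exact (S.filter (fun f => r e f)).card

open Classical in
theorem nb_eq (r : E → E → Prop) (e : E) (S : Finset E) :
    nb r e S = (S.filter (fun f => r e f)).card := by
  unfold nb
  congr

/-- A maximum stable set meets every closed neighbourhood. -/
theorem one_le_nb {r : E → E → Prop} (hrefl : ∀ a, r a a) (hs : ∀ a b, r a b → r b a)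
    {A S : Finset E} (hS : S ∈ maxStable r A) {e : E} (he : e ∈ A) : 1 ≤ nb r e S := by
  classical
  rw [mem_maxStable] at hS
  by_contra hlt
  rw [nb_eq] at hlt
  have h0 : S.filter (fun f => r e f) = ∅ := card_eq_zero.1 (by omega)
  have hno : ∀ f ∈ S, ¬ r e f := by
    intro f hf hr
    have : f ∈ S.filter (fun f => r e f) := mem_filter.2 ⟨hf, hr⟩
    rw [h0] at this
    simp at this
  have heS : e ∉ S := fun h => hno e h (hrefl e)
  have h1 : (insert e S).card ≤ S.card := by
    apply hS.2.2
    · exact insert_subset he hS.1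
    · exact hS.2.1.insert hs (fun f hf _ => hno f hf)
  rw [card_insert_of_notMem heS] at h1
  omega

/-- The swap lemma. -/
theorem swap {r : E → E → Prop} (hrefl : ∀ a, r a a) (hs : ∀ a b, r a b → r b a)
    {A : Finset E} {lam : E → ℝ} (hpos : ∀ a ∈ A, 0 < lam a)
    (hcl : ∀ C ⊆ A, (∀ a ∈ C, ∀ b ∈ C, r a b) → ∑ a ∈ C, lam a ≤ 1)
    {e : E} (he : e ∈ A) :
    2 * ∑ S ∈ maxStable r A, ∏ f ∈ S, lam f ≤
      ∑ S ∈ maxStable r A, (∏ f ∈ S, lam f) * (nb r e S : ℝ) +
        (∑ S ∈ maxStable r A with e ∈ S, ∏ f ∈ S, lam f) / lam e := by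
  classical
  set W : Finset E → ℝ := fun S => ∏ f ∈ S, lam f with hW
  have hWpos : ∀ S ⊆ A, 0 < W S := fun S hS => prod_pos fun f hf => hpos f (hS hf)
  have hle : e ∈ A := he
  -- the one-neighbour sets
  set O := (maxStable r A).filter (fun S => nb r e S = 1) with hO
  have hstep1 : 2 * ∑ S ∈ maxStable r A, W S ≤
      ∑ S ∈ maxStable r A, W S * (nb r e S : ℝ) + ∑ S ∈ O, W S := by
    have hOs : ∑ S ∈ O, W S = ∑ S ∈ maxStable r A, if nb r e S = 1 then W S else 0 := by
      rw [hO, sum_filter]
    rw [hOs, mul_sum, ← sum_add_distrib]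
    refine sum_le_sum fun S hS => ?_
    have h1 := one_le_nb hrefl hs hS he
    have hw : 0 < W S := hWpos S (mem_maxStable.1 hS).1
    by_cases h : nb r e S = 1
    · rw [if_pos h, h]; norm_num; linarith
    · rw [if_neg h]
      have h2 : 2 ≤ nb r e S := by omega
      have h2' : (2 : ℝ) ≤ (nb r e S : ℝ) := by exact_mod_cast h2
      nlinarith
  refine hstep1.trans (add_le_add le_rfl ?_)
  -- the map S ↦ S - u + e
  set φ : Finset E → Finset E := fun S => insert e (S.filter (fun f => ¬ r e f)) with hφ
  have hcount : ∀ S ∈ O, ∃ u, u ∈ S ∧ r e u ∧ S.filter (fun f => ¬ r e f) = S.erase u := by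
    intro S hS
    rw [hO, mem_filter] at hS
    have h1 := hS.2
    rw [nb_eq, card_eq_one] at h1
    obtain ⟨u, hu⟩ := h1
    have hu' : u ∈ S.filter (fun f => r e f) := by rw [hu]; simp
    rw [mem_filter] at hu'
    refine ⟨u, hu'.1, hu'.2, ?_⟩
    ext f
    simp only [mem_filter, mem_erase]
    constructor
    · rintro ⟨hf, hnr⟩
      exact ⟨fun h => hnr (h ▸ hu'.2), hf⟩
    · rintro ⟨hne, hf⟩
      refine ⟨hf, fun hr => hne ?_⟩
      have : f ∈ S.filter (fun f => r e f) := mem_filter.2 ⟨hf, hr⟩
      rw [hu] at this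
      simpa using this
  have hmaps : ∀ S ∈ O, φ S ∈ (maxStable r A).filter (fun S => e ∈ S) := by
    intro S hS
    obtain ⟨u, huS, hru, hfu⟩ := hcount S hS
    rw [hO, mem_filter] at hS
    obtain ⟨hSm, -⟩ := hS
    rw [mem_filter]
    refine ⟨?_, by simp [hφ]⟩
    rw [mem_maxStable] at hSm ⊢
    have henot : e ∉ S.filter (fun f => ¬ r e f) := by
      simp [hrefl]
    have hcard : (φ S).card = S.card := by
      simp only [hφ]
      rw [card_insert_of_notMem henot, hfu, card_erase_of_mem huS]
      have : 0 < S.card := card_pos.2 ⟨u, huS⟩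
      omega
    refine ⟨?_, ?_, ?_⟩
    · exact insert_subset he ((filter_subset _ _).trans hSm.1)
    · apply Stable.insert hs (hSm.2.1.mono (filter_subset _ _))
      intro f hf _
      exact (mem_filter.1 hf).2
    · intro T hT hst
      rw [hcard]
      exact hSm.2.2 T hT hst
  rw [← sum_fiberwise_of_maps_to hmaps, sum_div]
  refine sum_le_sum fun S' hS' => ?_
  rw [mem_filter] at hS'
  obtain ⟨hS'm, heS'⟩ := hS'
  have hS'm' := mem_maxStable.1 hS'm
  set T := S'.erase e with hT
  have hTA : T ⊆ A := (erase_subset _ _).trans hS'm'.1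
  have hins : insert e T = S' := insert_erase heS'
  have heT : e ∉ T := notMem_erase e S'
  have hWS' : W S' = lam e * W T := by
    rw [← hins]
    simp only [hW]
    rw [prod_insert heT]
  set U := A.filter (fun u => r e u ∧ u ∉ T ∧ insert u T ∈ maxStable r A) with hU
  have hUcl : ∀ a ∈ U, ∀ b ∈ U, r a b := by
    intro a ha b hb
    rw [hU, mem_filter] at ha hb
    by_contra hnr
    have hab : a ≠ b := by rintro rfl; exact hnr (hrefl a)
    obtain ⟨haA, -, haT, ham⟩ := ha
    obtain ⟨hbA, -, hbT, hbm⟩ := hb
    rw [mem_maxStable] at ham hbm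
    have hst : Stable r (insert a (insert b T)) := by
      apply Stable.insert hs hbm.2.1
      intro f hf hfa hr
      rcases mem_insert.1 hf with rfl | hf
      · exact hnr hr
      · exact ham.2.1 a (mem_insert_self _ _) f (mem_insert_of_mem hf) hfa.symm hr
    have hsub : insert a (insert b T) ⊆ A := insert_subset haA (insert_subset hbA hTA)
    have hc := hS'm'.2.2 _ hsub hst
    have hanot : a ∉ insert b T := by
      simp [hab, haT]
    rw [card_insert_of_notMem hanot, card_insert_of_notMem hbT] at hc
    have : S'.card = T.card + 1 := by rw [← hins, card_insert_of_notMem heT]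
    omega
  have hUsum : ∑ u ∈ U, lam u ≤ 1 := hcl U (filter_subset _ _) hUcl
  have hfib : O.filter (fun S => φ S = S') ⊆ U.image (fun u => insert u T) := by
    intro S hS
    rw [mem_filter] at hS
    obtain ⟨hSO, hφS⟩ := hS
    obtain ⟨u, huS, hru, hfu⟩ := hcount S hSO
    rw [mem_image]
    have hSm := (mem_filter.1 (hO ▸ hSO)).1
    have henot : e ∉ S.filter (fun f => ¬ r e f) := by simp [hrefl]
    have hTS : T = S.erase u := by
      rw [hT, ← hφS]
      simp only [hφ]
      rw [erase_insert henot, hfu]
    have huT : u ∉ T := by rw [hTS]; exact notMem_erase u S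
    have hSi : insert u T = S := by rw [hTS]; exact insert_erase huS
    refine ⟨u, ?_, hSi⟩
    rw [hU, mem_filter]
    exact ⟨(mem_maxStable.1 hSm).1 huS, hru, huT, by rw [hSi]; exact hSm⟩
  have hinj : Set.InjOn (fun u => insert u T) (U : Set E) := by
    intro a ha b hb hab
    have ha0 : a ∈ U := ha
    rw [hU, mem_filter] at ha0
    have ha' := ha0.2.2.1
    have h1 : a ∈ insert b T := by
      have : a ∈ insert a T := mem_insert_self _ _
      simpa [hab] using this
    rcases mem_insert.1 h1 with h | h
    · exact h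
    · exact absurd h ha'
  have hlepos : 0 < lam e := hpos e he
  calc ∑ S ∈ O with φ S = S', W S ≤ ∑ S ∈ U.image (fun u => insert u T), W S := by
        apply sum_le_sum_of_subset_of_nonneg hfib
        intro S hS _
        rw [mem_image] at hS
        obtain ⟨u, hu, rfl⟩ := hS
        have hu' := hu
        rw [hU, mem_filter] at hu'
        exact (hWpos _ (insert_subset hu'.1 hTA)).le
    _ = ∑ u ∈ U, W (insert u T) := sum_image hinj
    _ = ∑ u ∈ U, lam u * W T := by
        refine sum_congr rfl fun u hu => ?_
        have hu' := hu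
        rw [hU, mem_filter] at hu'
        simp only [hW]
        rw [prod_insert hu'.2.2.1]
    _ = (∑ u ∈ U, lam u) * W T := by rw [sum_mul]
    _ ≤ 1 * W T := by
        apply mul_le_mul_of_nonneg_right hUsum (hWpos T hTA).le
    _ = W S' / lam e := by
        rw [hWS']; field_simp

end H4.FKS
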