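import Mathlib
import Pool.Agent.H4.FKS.Swap

/-!
# The batch lemma

A family of outcomes `ω` with masses `pi ω`; at the outcome `ω` the elements of `Av ω` are
available. If the demands `q` satisfy
`∑_{f ∈ N[e]} q f + q e / lam e ≤ 2 T l_e` (`l_e` = mass of the outcomes at which `e` is
available), where `lam` has weight at most one on cliques, then all demands can be served exactly
within time `T`.
-/

set_option autoImplicit false
set_option linter.unusedSectionVars false

namespace H4.FKS

open Finset

variable {E : Type*} [DecidableEq E]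

open Classical in
/-- The distribution on maximum stable sets with weights `∏ lam`. -/
noncomputable def pW (r : E → E → Prop) (lam : E → ℝ) (A S : Finset E) : ℝ :=
  if S ∈ maxStable r A then (∏ f ∈ S, lam f) / ∑ T ∈ maxStable r A, ∏ f ∈ T, lam f else 0

section
variable {r : E → E → Prop} {lam : E → ℝ} {A : Finset E}

theorem total_pos (hpos : ∀ a ∈ A, 0 < lam a) :
    0 < ∑ T ∈ maxStable r A, ∏ f ∈ T, lam f := by
  apply sum_pos
  · intro T hT
    exact prod_pos fun f hf => hpos f ((mem_maxStable.1 hT).1 hf)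
  · exact maxStable_nonempty r A

theorem pW_nonneg (hpos : ∀ a ∈ A, 0 < lam a) (S : Finset E) : 0 ≤ pW r lam A S := by
  classical
  unfold pW
  split_ifs with h
  · apply div_nonneg _ (total_pos hpos).le
    exact (prod_pos fun f hf => hpos f ((mem_maxStable.1 h).1 hf)).le
  · exact le_rfl

theorem pW_ne {S : Finset E} (h : pW r lam A S ≠ 0) : S ∈ maxStable r A := by
  classical
  by_contra hS
  apply h
  unfold pW
  rw [if_neg hS]

theorem sum_pW [Fintype E] (hpos : ∀ a ∈ A, 0 < lam a) : ∑ S, pW r lam A S = 1 := by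
  classical
  unfold pW
  rw [← sum_filter, ← sum_div]
  have : (univ.filter fun S => S ∈ maxStable r A) = maxStable r A := by
    ext S; simp
  rw [this]
  exact div_self (total_pos hpos).ne'

theorem pW_swap [Fintype E] (hrefl : ∀ a, r a a) (hs : ∀ a b, r a b → r b a)
    (hpos : ∀ a ∈ A, 0 < lam a)
    (hcl : ∀ C ⊆ A, (∀ a ∈ C, ∀ b ∈ C, r a b) → ∑ a ∈ C, lam a ≤ 1)
    {e : E} (he : e ∈ A) :
    2 ≤ ∑ S, pW r lam A S * (nb r e S : ℝ) + (∑ S with e ∈ S, pW r lam A S) / lam e := by
  classical
  have h := swap hrefl hs hpos hcl he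
  set Z := ∑ T ∈ maxStable r A, ∏ f ∈ T, lam f with hZ
  have hZpos : 0 < Z := total_pos hpos
  have h1 : ∑ S, pW r lam A S * (nb r e S : ℝ) =
      (∑ S ∈ maxStable r A, (∏ f ∈ S, lam f) * (nb r e S : ℝ)) / Z := by
    rw [sum_div]
    rw [← sum_subset (subset_univ (maxStable r A))]
    · refine sum_congr rfl fun S hS => ?_
      unfold pW
      rw [if_pos hS]
      ring
    · intro S _ hS
      unfold pW
      rw [if_neg hS, zero_mul]
  have h2 : ∑ S with e ∈ S, pW r lam A S =
      (∑ S ∈ maxStable r A with e ∈ S, ∏ f ∈ S, lam f) / Z := by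
    rw [sum_div]
    rw [← sum_subset (s₁ := (maxStable r A).filter (fun S => e ∈ S))]
    · refine sum_congr rfl fun S hS => ?_
      unfold pW
      rw [if_pos (mem_filter.1 hS).1]
    · intro S hS
      rw [mem_filter] at hS ⊢
      exact ⟨mem_univ _, hS.2⟩
    · intro S hS hS'
      unfold pW
      rw [if_neg]
      intro hS2
      exact hS' (mem_filter.2 ⟨hS2, (mem_filter.1 hS).2⟩)
  rw [h1, h2]
  have h3 : 2 = 2 * Z / Z := by field_simp
  rw [h3, div_right_comm, ← add_div]
  exact div_le_div_of_nonneg_right h hZpos.le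

end

theorem sum_nb [Fintype E] (r : E → E → Prop) [DecidableRel r] (e : E) (p : Finset E → ℝ) :
    ∑ f with r e f, ∑ S with f ∈ S, p S = ∑ S, p S * (nb r e S : ℝ) := by
  classical
  have h1 : ∀ f, ∑ S with f ∈ S, p S = ∑ S, if f ∈ S then p S else 0 := fun f => by
    rw [sum_filter]
  simp_rw [h1]
  rw [sum_comm]
  refine sum_congr rfl fun S _ => ?_
  rw [← sum_filter, sum_const, nsmul_eq_mul, mul_comm]
  congr 2
  rw [nb_eq]
  congr 1
  ext f
  simp [and_comm]

/-- The batch lemma (process form). -/
theorem process {Ω : Type*} [Fintype Ω] [Fintype E] {r : E → E → Prop} [DecidableRel r]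
    (hrefl : ∀ a, r a a) (hs : ∀ a b, r a b → r b a)
    (pi : Ω → ℝ) (hpi : ∀ ω, 0 ≤ pi ω) (Av : Ω → Finset E) (lam : E → ℝ) :
    ∀ (n : ℕ) (q : E → ℝ) (T : ℝ), 0 ≤ T → (∀ e, 0 ≤ q e) →
      (univ.filter fun e => 0 < q e).card ≤ n →
      (∀ e, 0 < q e → 0 < lam e) →
      (∀ C : Finset E, (∀ a ∈ C, 0 < q a) → (∀ a ∈ C, ∀ b ∈ C, r a b) → ∑ a ∈ C, lam a ≤ 1) →
      (∀ e, 0 < q e → ∑ f with r e f, q f + q e / lam e ≤ 2 * T * ∑ ω with e ∈ Av ω, pi ω) →
      ∃ W : Ω → Finset E → ℝ, (∀ ω S, 0 ≤ W ω S) ∧
        (∀ ω S, W ω S ≠ 0 → Stable r S ∧ S ⊆ Av ω ∧ ∀ f ∈ S, 0 < q f) ∧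
        (∀ ω, ∑ S, W ω S = T * pi ω) ∧
        (∀ e, ∑ ω, ∑ S with e ∈ S, W ω S = q e) := by
  classical
  intro n
  induction n with
  | zero =>
    intro q T hT hq hcard _ _ _
    have hq0 : ∀ e, q e = 0 := by
      intro e
      by_contra hne
      have hpos : 0 < q e := lt_of_le_of_ne (hq e) (Ne.symm hne)
      have : e ∈ univ.filter fun e => 0 < q e := mem_filter.2 ⟨mem_univ _, hpos⟩
      have h2 := card_pos.2 ⟨e, this⟩
      omega
    refine ⟨fun ω S => if S = ∅ then T * pi ω else 0, ?_, ?_, ?_, ?_⟩
    · intro ω S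
      dsimp only
      split_ifs
      · exact mul_nonneg hT (hpi ω)
      · exact le_rfl
    · intro ω S h
      dsimp only at h
      by_cases hS : S = ∅
      · subst hS
        exact ⟨stable_empty r, empty_subset _, by simp⟩
      · simp [hS] at h
    · intro ω
      simp
    · intro e
      rw [hq0]
      apply sum_eq_zero
      intro ω _
      apply sum_eq_zero
      intro S hS
      have : S ≠ ∅ := by
        rintro rfl
        simp at hS
      simp [this]
  | succ n ih =>
    intro q T hT hq hcard hlam hcl hinv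
    set R := univ.filter fun e => 0 < q e with hR
    rcases R.eq_empty_or_nonempty with hRe | hRne
    · exact ih q T hT hq (by rw [← hR, hRe]; simp) hlam hcl hinv
    have hmemR : ∀ e, e ∈ R ↔ 0 < q e := fun e => by rw [hR]; simp
    set p : Ω → Finset E → ℝ := fun ω S => pW r lam (R ∩ Av ω) S with hp
    have hApos : ∀ ω, ∀ a ∈ R ∩ Av ω, 0 < lam a := by
      intro ω a ha
      exact hlam a ((hmemR a).1 (mem_inter.1 ha).1)
    set P : E → ℝ := fun f => ∑ ω, pi ω * ∑ S with f ∈ S, p ω S with hP
    have hp0 : ∀ ω S, 0 ≤ p ω S := fun ω S => pW_nonneg (hApos ω) S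
    have hP0 : ∀ f, 0 ≤ P f := by
      intro f
      apply sum_nonneg
      intro ω _
      apply mul_nonneg (hpi ω)
      exact sum_nonneg fun S _ => hp0 ω S
    have hPR : ∀ f, f ∉ R → P f = 0 := by
      intro f hf
      apply sum_eq_zero
      intro ω _
      have : ∑ S with f ∈ S, p ω S = 0 := by
        apply sum_eq_zero
        intro S hS
        by_contra hne
        have h1 := pW_ne hne
        have h2 := (mem_maxStable.1 h1).1 (mem_filter.1 hS).2
        exact hf (mem_inter.1 h2).1
      rw [this, mul_zero]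
    -- the key inequality
    have hkey : ∀ e ∈ R, 2 * ∑ ω with e ∈ Av ω, pi ω ≤ ∑ f with r e f, P f + P e / lam e := by
      intro e he
      have hle : 0 < lam e := hlam e ((hmemR e).1 he)
      have h1 : ∑ f with r e f, P f = ∑ ω, pi ω * ∑ S, p ω S * (nb r e S : ℝ) := by
        simp only [hP]
        rw [sum_comm]
        refine sum_congr rfl fun ω _ => ?_
        rw [← mul_sum, sum_nb]
      have h2 : P e / lam e = ∑ ω, pi ω * ((∑ S with e ∈ S, p ω S) / lam e) := by
        simp only [hP]
        rw [sum_div]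
        refine sum_congr rfl fun ω _ => ?_
        rw [mul_div_assoc]
      rw [h1, h2, ← sum_add_distrib, mul_sum, sum_filter]
      refine sum_le_sum fun ω _ => ?_
      rw [← mul_add]
      split_ifs with hω
      · rw [mul_comm 2 (pi ω)]
        apply mul_le_mul_of_nonneg_left _ (hpi ω)
        apply pW_swap hrefl hs (hApos ω) _ (mem_inter.2 ⟨he, hω⟩)
        intro C hC hCc
        exact hcl C (fun a ha => (hmemR a).1 (mem_inter.1 (hC ha)).1) hCc
      · apply mul_nonneg (hpi ω)
        apply add_nonneg
        · exact sum_nonneg fun S _ => mul_nonneg (hp0 ω S) (Nat.cast_nonneg _)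
        · exact div_nonneg (sum_nonneg fun S _ => hp0 ω S) hle.le
    -- some demand can be exhausted
    have hex : ∃ f ∈ R, q f ≤ T * P f := by
      by_contra hno
      push Not at hno
      obtain ⟨e, he⟩ := hRne
      have hqe := (hmemR e).1 he
      have hle : 0 < lam e := hlam e hqe
      have hi := hinv e hqe
      have hk := mul_le_mul_of_nonneg_left (hkey e he) hT
      have hle2 : ∀ f, T * P f ≤ q f := by
        intro f
        by_cases hf : f ∈ R
        · exact (hno f hf).le
        · rw [hPR f hf, mul_zero]; exact hq f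
      have hs1 : T * ∑ f with r e f, P f ≤ ∑ f with r e f, q f := by
        rw [mul_sum]
        exact sum_le_sum fun f _ => hle2 f
      have hs2 : T * (P e / lam e) < q e / lam e := by
        rw [← mul_div_assoc]
        exact div_lt_div_of_pos_right (hno e he) hle
      rw [mul_add] at hk
      have hk' : T * (2 * ∑ ω with e ∈ Av ω, pi ω) = 2 * T * ∑ ω with e ∈ Av ω, pi ω := by ring
      rw [hk'] at hk
      linarith
    set R1 := R.filter fun f => 0 < P f with hR1
    have hR1ne : R1.Nonempty := by
      obtain ⟨f, hf, hqf⟩ := hex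
      refine ⟨f, mem_filter.2 ⟨hf, ?_⟩⟩
      have h1 := (hmemR f).1 hf
      by_contra hn
      have h2 : P f = 0 := le_antisymm (not_lt.1 hn) (hP0 f)
      rw [h2, mul_zero] at hqf
      linarith
    obtain ⟨f0, hf0, hmin⟩ := exists_min_image R1 (fun f => q f / P f) hR1ne
    set τ := q f0 / P f0 with hτ
    rw [hR1, mem_filter] at hf0
    have hτ0 : 0 < τ := div_pos ((hmemR f0).1 hf0.1) hf0.2
    have hτT : τ ≤ T := by
      obtain ⟨f, hf, hqf⟩ := hex
      have h1 := (hmemR f).1 hf
      have h2 : 0 < P f := by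
        by_contra hn
        have h2 : P f = 0 := le_antisymm (not_lt.1 hn) (hP0 f)
        rw [h2, mul_zero] at hqf
        linarith
      have h3 := hmin f (mem_filter.2 ⟨hf, h2⟩)
      refine h3.trans ?_
      rw [div_le_iff₀ h2]
      exact hqf
    set q' : E → ℝ := fun f => q f - τ * P f with hq'
    have hq'0 : ∀ f, 0 ≤ q' f := by
      intro f
      simp only [hq']
      by_cases hf : f ∈ R
      · by_cases hpf : 0 < P f
        · have h3 := hmin f (mem_filter.2 ⟨hf, hpf⟩)
          rw [le_div_iff₀ hpf] at h3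
          linarith
        · have h2 : P f = 0 := le_antisymm (not_lt.1 hpf) (hP0 f)
          rw [h2]; simp; exact hq f
      · rw [hPR f hf]; simp; exact hq f
    have hq'le : ∀ f, q' f ≤ q f := by
      intro f
      simp only [hq']
      have := mul_nonneg hτ0.le (hP0 f)
      linarith
    have hq'f0 : q' f0 = 0 := by
      simp only [hq', hτ]
      rw [div_mul_cancel₀ _ hf0.2.ne', sub_self]
    have hsub : (univ.filter fun e => 0 < q' e) ⊆ R.erase f0 := by
      intro e he
      rw [mem_filter] at he
      rw [mem_erase]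
      refine ⟨?_, (hmemR e).2 (lt_of_lt_of_le he.2 (hq'le e))⟩
      rintro rfl
      rw [hq'f0] at he
      exact lt_irrefl _ he.2
    have hcard' : (univ.filter fun e => 0 < q' e).card ≤ n := by
      have h1 := card_le_card hsub
      rw [card_erase_of_mem hf0.1] at h1
      omega
    have hpos' : ∀ e, 0 < q' e → 0 < q e := fun e he => lt_of_lt_of_le he (hq'le e)
    obtain ⟨W', hW0, hWs, hWt, hWm⟩ := ih q' (T - τ) (by linarith) hq'0 hcard'
      (fun e he => hlam e (hpos' e he))
      (fun C hC hCc => hcl C (fun a ha => hpos' a (hC a ha)) hCc)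
      (by
        intro e he
        have hqe := hpos' e he
        have hle : 0 < lam e := hlam e hqe
        have hi := hinv e hqe
        have hk := mul_le_mul_of_nonneg_left (hkey e ((hmemR e).2 hqe)) hτ0.le
        have h1 : ∑ f with r e f, q' f = ∑ f with r e f, q f - τ * ∑ f with r e f, P f := by
          simp only [hq']
          rw [sum_sub_distrib, mul_sum]
        have h2 : q' e / lam e = q e / lam e - τ * (P e / lam e) := by
          simp only [hq']
          ring
        rw [h1, h2]
        have h3 : 2 * (T - τ) * ∑ ω with e ∈ Av ω, pi ω =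
          2 * T * ∑ ω with e ∈ Av ω, pi ω - τ * (2 * ∑ ω with e ∈ Av ω, pi ω) := by ring
        rw [h3]
        rw [mul_add] at hk
        linarith)
    refine ⟨fun ω S => τ * (pi ω * p ω S) + W' ω S, ?_, ?_, ?_, ?_⟩
    · intro ω S
      exact add_nonneg (mul_nonneg hτ0.le (mul_nonneg (hpi ω) (hp0 ω S))) (hW0 ω S)
    · intro ω S hne
      by_cases h : W' ω S = 0
      · dsimp only at hne
        rw [h, add_zero] at hne
        have h1 : p ω S ≠ 0 := by
          intro h0
          apply hne
          rw [h0]; simp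
        have h2 := mem_maxStable.1 (pW_ne h1)
        exact ⟨h2.2.1, fun a ha => (mem_inter.1 (h2.1 ha)).2,
          fun a ha => (hmemR a).1 (mem_inter.1 (h2.1 ha)).1⟩
      · obtain ⟨h1, h2, h3⟩ := hWs ω S h
        exact ⟨h1, h2, fun f hf => hpos' f (h3 f hf)⟩
    · intro ω
      rw [sum_add_distrib, hWt ω, ← mul_sum, ← mul_sum, sum_pW (hApos ω)]
      ring
    · intro e
      have h1 : ∑ ω, ∑ S with e ∈ S, (τ * (pi ω * p ω S) + W' ω S) = τ * P e + q' e := by
        rw [← hWm e]
        simp only [hP]
        rw [mul_sum, ← sum_add_distrib]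
        refine sum_congr rfl fun ω _ => ?_
        rw [sum_add_distrib, ← mul_sum, ← mul_sum]
      rw [h1]
      simp only [hq']
      ring

end H4.FKS
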