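import Mathlib
import Pool.Agent.H4.FKS.Batch

/-!
# Exact realisation of demands by random stable sets

`Real r R y`: there is a random stable subset of `R` that contains every `e ∈ R` with probability
exactly `y e`. Greedy step and batch step.
-/

set_option autoImplicit false
set_option linter.unusedSectionVars false
set_option linter.unusedVariables false

namespace H4.FKS

open Finset

variable {E : Type*} [DecidableEq E] [Fintype E]

/-- There is a random stable subset of `R` with marginals `y` on `R`. -/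
def Real (r : E → E → Prop) (R : Finset E) (y : E → ℝ) : Prop :=
  ∃ w : Finset E → ℝ, (∀ M, 0 ≤ w M) ∧ (∀ M, w M ≠ 0 → Stable r M ∧ M ⊆ R) ∧
    ∑ M, w M = 1 ∧ ∀ e ∈ R, ∑ M with e ∈ M, w M = y e

theorem real_empty (r : E → E → Prop) (y : E → ℝ) : Real r ∅ y := by
  refine ⟨fun M => if M = ∅ then 1 else 0, ?_, ?_, ?_, ?_⟩
  · intro M
    dsimp only
    split_ifs <;> norm_num
  · intro M h
    by_cases hM : M = ∅
    · subst hM
      exact ⟨stable_empty r, Subset.refl _⟩
    · simp [hM] at h
  · simp
  · intro e he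
    simp at he

/-- Gluing a random extension. -/
theorem glue {r : E → E → Prop} (hs : ∀ a b, r a b → r b a) {R' F : Finset E}
    (hdisj : Disjoint R' F) {y : E → ℝ} {w : Finset E → ℝ}
    (hw0 : ∀ M, 0 ≤ w M) (hws : ∀ M, w M ≠ 0 → Stable r M ∧ M ⊆ R')
    (hw1 : ∑ M, w M = 1) (hwm : ∀ e ∈ R', ∑ M with e ∈ M, w M = y e)
    {W : Finset E → Finset E → ℝ} (hW0 : ∀ M S, 0 ≤ W M S)
    (hWs : ∀ M S, W M S ≠ 0 → Stable r S ∧ S ⊆ F ∧ ∀ f ∈ S, ∀ g ∈ M, ¬ r f g)
    (hWt : ∀ M, ∑ S, W M S = w M)
    (hWm : ∀ e ∈ F, ∑ M, ∑ S with e ∈ S, W M S = y e) :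
    Real r (R' ∪ F) y := by
  classical
  have hwne : ∀ M S, W M S ≠ 0 → w M ≠ 0 := by
    intro M S h h0
    apply h
    have h1 := hWt M
    rw [h0, sum_eq_zero_iff_of_nonneg (fun S _ => hW0 M S)] at h1
    exact h1 S (mem_univ S)
  refine ⟨fun N => ∑ M, ∑ S, if M ∪ S = N then W M S else 0, ?_, ?_, ?_, ?_⟩
  · intro N
    refine sum_nonneg fun M _ => sum_nonneg fun S _ => ?_
    split_ifs
    · exact hW0 M S
    · exact le_rfl
  · intro N hN
    obtain ⟨M, -, hM⟩ := exists_ne_zero_of_sum_ne_zero hN
    obtain ⟨S, -, hS⟩ := exists_ne_zero_of_sum_ne_zero hM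
    by_cases hMS : M ∪ S = N
    · rw [if_pos hMS] at hS
      obtain ⟨h1, h2, h3⟩ := hWs M S hS
      obtain ⟨h4, h5⟩ := hws M (hwne M S hS)
      subst hMS
      refine ⟨?_, union_subset_union h5 h2⟩
      intro a ha b hb hab hr
      rcases mem_union.1 ha with ha | ha <;> rcases mem_union.1 hb with hb | hb
      · exact h4 a ha b hb hab hr
      · exact h3 b hb a ha (hs _ _ hr)
      · exact h3 a ha b hb hr
      · exact h1 a ha b hb hab hr
    · rw [if_neg hMS] at hS
      exact absurd rfl hS
  · rw [sum_comm]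
    have : ∀ M, ∑ N, ∑ S, (if M ∪ S = N then W M S else 0) = w M := by
      intro M
      rw [sum_comm]
      rw [← hWt M]
      refine sum_congr rfl fun S _ => ?_
      rw [sum_ite_eq]
      simp
    simp_rw [this]
    exact hw1
  · intro e he
    rw [sum_comm]
    have hval : ∀ M, ∑ N with e ∈ N, ∑ S, (if M ∪ S = N then W M S else 0) =
        ∑ S with e ∈ M ∪ S, W M S := by
      intro M
      rw [sum_comm, sum_filter]
      refine sum_congr rfl fun S _ => ?_
      rw [sum_ite_eq]
      simp
    simp_rw [hval]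
    rcases mem_union.1 he with heR | heF
    · have heF : e ∉ F := fun h => (disjoint_left.1 hdisj) heR h
      rw [← hwm e heR, sum_filter]
      refine sum_congr rfl fun M _ => ?_
      by_cases heM : e ∈ M
      · rw [if_pos heM, ← hWt M]
        apply sum_congr _ fun _ _ => rfl
        ext S; simp [heM]
      · rw [if_neg heM]
        apply sum_eq_zero
        intro S hS
        by_contra hne
        have h1 := (hWs M S hne).2.1
        rw [mem_filter, mem_union] at hS
        rcases hS.2 with h | h
        · exact heM h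
        · exact heF (h1 h)
    · have heR : e ∉ R' := fun h => (disjoint_left.1 hdisj) h heF
      rw [← hWm e heF]
      refine sum_congr rfl fun M _ => ?_
      by_cases hwM : w M = 0
      · have hz : ∀ S, W M S = 0 := by
          intro S
          by_contra h
          exact hwne M S h hwM
        simp [hz]
      · have h1 := (hws M hwM).2
        have heM : e ∉ M := fun h => heR (h1 h)
        apply sum_congr _ fun _ _ => rfl
        ext S; simp [heM]

/-- The mass of the outcomes at which `e` is free. -/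
theorem free_mass {r : E → E → Prop} [DecidableRel r] (hs : ∀ a b, r a b → r b a)
    {R' : Finset E} {y : E → ℝ} {w : Finset E → ℝ}
    (hw0 : ∀ M, 0 ≤ w M) (hws : ∀ M, w M ≠ 0 → Stable r M ∧ M ⊆ R')
    (hw1 : ∑ M, w M = 1) (hwm : ∀ e ∈ R', ∑ M with e ∈ M, w M = y e) (e : E) :
    1 - ∑ f ∈ R' with r e f, y f ≤ ∑ M with (∀ g ∈ M, ¬ r e g), w M := by
  classical
  have h1 : ∑ f ∈ R' with r e f, y f = ∑ M, w M * ((M ∩ R').filter (fun f => r e f)).card := by
    have : ∀ f ∈ R'.filter (fun f => r e f), y f = ∑ M, if f ∈ M then w M else 0 := by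
      intro f hf
      rw [← hwm f (mem_filter.1 hf).1, sum_filter]
    rw [sum_congr rfl this, sum_comm]
    refine sum_congr rfl fun M _ => ?_
    rw [← sum_filter, sum_const, nsmul_eq_mul, mul_comm]
    congr 3
    ext f
    simp only [mem_filter, mem_inter]
    tauto
  rw [h1, ← hw1, sum_filter, ← sum_sub_distrib]
  refine sum_le_sum fun M _ => ?_
  split_ifs with h
  · have := mul_nonneg (hw0 M) (Nat.cast_nonneg (α := ℝ) ((M ∩ R').filter (fun f => r e f)).card)
    linarith
  · by_cases hwM : w M = 0
    · rw [hwM]; simp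
    · have h2 := (hws M hwM).2
      push Not at h
      obtain ⟨g, hg, hrg⟩ := h
      have h3 : 0 < ((M ∩ R').filter (fun f => r e f)).card :=
        card_pos.2 ⟨g, mem_filter.2 ⟨mem_inter.2 ⟨hg, h2 hg⟩, hrg⟩⟩
      have h4 : (1 : ℝ) ≤ (((M ∩ R').filter (fun f => r e f)).card : ℝ) := by exact_mod_cast h3
      have := mul_le_mul_of_nonneg_left h4 (hw0 M)
      linarith

/-- The batch step. -/
theorem real_batch {r : E → E → Prop} [DecidableRel r]
    (hrefl : ∀ a, r a a) (hs : ∀ a b, r a b → r b a) {R' F : Finset E}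
    (hdisj : Disjoint R' F) {y : E → ℝ} (hR' : Real r R' y) (hy : ∀ e ∈ F, 0 ≤ y e)
    {lam : E → ℝ} (hlam : ∀ e ∈ F, 0 < y e → 0 < lam e)
    (hcl : ∀ C ⊆ F, (∀ a ∈ C, 0 < y a) → (∀ a ∈ C, ∀ b ∈ C, r a b) → ∑ a ∈ C, lam a ≤ 1)
    (hbud : ∀ e ∈ F, 0 < y e →
      ∑ f ∈ F with r e f, y f + y e / lam e ≤ 2 * (1 - ∑ f ∈ R' with r e f, y f)) :
    Real r (R' ∪ F) y := by
  classical
  obtain ⟨w, hw0, hws, hw1, hwm⟩ := hR'
  set q : E → ℝ := fun e => if e ∈ F then y e else 0 with hq
  have hqpos : ∀ e, 0 < q e → e ∈ F ∧ 0 < y e ∧ q e = y e := by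
    intro e he
    simp only [hq] at he ⊢
    by_cases h : e ∈ F
    · rw [if_pos h] at he ⊢
      exact ⟨h, he, rfl⟩
    · rw [if_neg h] at he
      exact absurd he (lt_irrefl _)
  obtain ⟨W, hW0, hWs, hWt, hWm⟩ := process (Ω := Finset E) hrefl hs w hw0
    (fun M => F.filter fun f => ∀ g ∈ M, ¬ r f g) lam
    (univ.filter fun e => 0 < q e).card q 1 zero_le_one
    (by
      intro e
      simp only [hq]
      split_ifs with h
      · exact hy e h
      · exact le_rfl)
    le_rfl
    (fun e he => hlam e (hqpos e he).1 (hqpos e he).2.1)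
    (fun C hC hCc => hcl C (fun a ha => (hqpos a (hC a ha)).1)
      (fun a ha => (hqpos a (hC a ha)).2.1) hCc)
    (by
      intro e he
      obtain ⟨heF, hye, hqe⟩ := hqpos e he
      have h1 := hbud e heF hye
      have h2 := free_mass hs hw0 hws hw1 hwm e
      have h3 : ∑ f with r e f, q f = ∑ f ∈ F with r e f, y f := by
        simp only [hq]
        rw [← sum_filter]
        apply sum_congr _ fun _ _ => rfl
        ext f; simp [and_comm]
      have h4 : ∑ M with e ∈ (F.filter fun f => ∀ g ∈ M, ¬ r f g), w M =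
          ∑ M with (∀ g ∈ M, ¬ r e g), w M := by
        apply sum_congr _ fun _ _ => rfl
        ext M; simp [heF]
      rw [h3, hqe, h4]
      linarith)
  apply glue hs hdisj hw0 hws hw1 hwm hW0 (W := W)
  · intro M S h
    obtain ⟨h1, h2, -⟩ := hWs M S h
    refine ⟨h1, fun f hf => (mem_filter.1 (h2 hf)).1, fun f hf => (mem_filter.1 (h2 hf)).2⟩
  · intro M
    rw [hWt M, one_mul]
  · intro e he
    rw [hWm e]
    simp only [hq]
    rw [if_pos he]

/-- The greedy step. -/
theorem real_greedy {r : E → E → Prop} [DecidableRel r] (hs : ∀ a b, r a b → r b a)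
    {R' : Finset E} {e : E} (he : e ∉ R') {y : E → ℝ} (hR' : Real r R' y) (hye : 0 ≤ y e)
    (hA : y e + ∑ f ∈ R' with r e f, y f ≤ 1) :
    Real r (insert e R') y := by
  classical
  obtain ⟨w, hw0, hws, hw1, hwm⟩ := hR'
  set l := ∑ M with (∀ g ∈ M, ¬ r e g), w M with hl
  have hle : y e ≤ l := by
    have := free_mass hs hw0 hws hw1 hwm e
    linarith
  have hl0 : 0 ≤ l := hye.trans hle
  set θ := y e / l with hθ
  have hθ0 : 0 ≤ θ := div_nonneg hye hl0
  have hθ1 : θ ≤ 1 := div_le_one_of_le₀ hle hl0
  have hθl : θ * l = y e := by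
    by_cases h : l = 0
    · have : y e = 0 := le_antisymm (h ▸ hle) hye
      rw [hθ, h, this]; simp
    · rw [hθ]; field_simp
  have hdisj : Disjoint R' {e} := by simp [he]
  have hun : insert e R' = R' ∪ {e} := by
    ext a; simp
  rw [hun]
  set W : Finset E → Finset E → ℝ := fun M S =>
    if (∀ g ∈ M, ¬ r e g) then
      (if S = {e} then θ * w M else if S = ∅ then (1 - θ) * w M else 0)
    else (if S = ∅ then w M else 0) with hW
  have hne : ({e} : Finset E) ≠ ∅ := by simp
  apply glue hs hdisj hw0 hws hw1 hwm (W := W)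
  · intro M S
    simp only [hW]
    split_ifs
    · exact mul_nonneg hθ0 (hw0 M)
    · exact mul_nonneg (by linarith) (hw0 M)
    · exact le_rfl
    · exact hw0 M
    · exact le_rfl
  · intro M S h
    simp only [hW] at h
    split_ifs at h with h1 h2 h3 h4
    · subst h2
      refine ⟨?_, Subset.refl _, ?_⟩
      · intro a ha b hb hab
        rw [mem_singleton] at ha hb
        exact absurd (ha.trans hb.symm) hab
      · intro f hf
        rw [mem_singleton] at hf
        subst hf
        exact h1
    · subst h3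
      exact ⟨stable_empty r, empty_subset _, by simp⟩
    · exact absurd rfl h
    · subst h4
      exact ⟨stable_empty r, empty_subset _, by simp⟩
    · exact absurd rfl h
  · intro M
    simp only [hW]
    split_ifs with h1
    · have : ∀ S : Finset E, (if S = {e} then θ * w M else if S = ∅ then (1 - θ) * w M else 0) =
          (if S = {e} then θ * w M else 0) + (if S = ∅ then (1 - θ) * w M else 0) := by
        intro S
        by_cases h2 : S = {e}
        · subst h2; simp
        · simp [h2]
      simp_rw [this]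
      rw [sum_add_distrib]
      simp only [sum_ite_eq', mem_univ, if_true]
      ring
    · simp
  · intro a ha
    rw [mem_singleton] at ha
    subst ha
    rw [← hθl, hl, mul_sum, sum_filter]
    refine sum_congr rfl fun M _ => ?_
    simp only [hW]
    split_ifs with h1
    · have : ∀ S ∈ (univ : Finset (Finset E)).filter (fun S => a ∈ S),
          (if S = {a} then θ * w M else if S = ∅ then (1 - θ) * w M else 0) =
          (if S = {a} then θ * w M else 0) := by
        intro S hS
        have : S ≠ ∅ := by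
          rintro rfl
          simp at hS
        simp [this]
      rw [sum_congr rfl this, sum_ite_eq']
      simp
    · apply sum_eq_zero
      intro S hS
      have : S ≠ ∅ := by
        rintro rfl
        simp at hS
      simp [this]

end H4.FKS
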