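import Mathlib
import Pool.Agent.H4.FKS.Real

/-!
# Induction over batches; single size batches in hypergraphs
-/

set_option autoImplicit false
set_option linter.unusedSectionVars false
set_option linter.unusedVariables false

namespace H4.FKS

open Finset

section Graph

variable {E : Type*} [DecidableEq E] [Fintype E]

/-- Induction: if every nonempty `R` without a greedy element has a good last batch, then the
demands are realisable. -/
theorem real_induct {r : E → E → Prop} [DecidableRel r]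
    (hrefl : ∀ a, r a a) (hs : ∀ a b, r a b → r b a) {y : E → ℝ} (hy : ∀ e, 0 ≤ y e)
    (hcond : ∀ R : Finset E, R.Nonempty → (∀ e ∈ R, 1 < ∑ f ∈ R with r e f, y f) →
      ∃ F ⊆ R, F.Nonempty ∧ ∃ lam : E → ℝ, (∀ e ∈ F, 0 < y e → 0 < lam e) ∧
        (∀ C ⊆ F, (∀ a ∈ C, 0 < y a) → (∀ a ∈ C, ∀ b ∈ C, r a b) → ∑ a ∈ C, lam a ≤ 1) ∧
        (∀ e ∈ F, 0 < y e → ∑ f ∈ F with r e f, y f + y e / lam e ≤
          2 * (1 - ∑ f ∈ R \ F with r e f, y f))) (R : Finset E) : Real r R y := by
  classical
  induction hn : R.card using Nat.strong_induction_on generalizing R with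
  | _ n ih =>
    rcases R.eq_empty_or_nonempty with rfl | hne
    · exact real_empty r y
    by_cases hg : ∃ e ∈ R, ∑ f ∈ R with r e f, y f ≤ 1
    · obtain ⟨e, he, hA⟩ := hg
      have hcard : (R.erase e).card < n := by
        rw [← hn]; exact card_erase_lt_of_mem he
      have h1 := ih _ hcard (R.erase e) rfl
      have h2 := real_greedy hs (notMem_erase e R) h1 (hy e) (by
        refine le_trans (le_of_eq ?_) hA
        have h3 : R.filter (fun f => r e f) =
            insert e ((R.erase e).filter (fun f => r e f)) := by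
          ext f
          simp only [mem_filter, mem_insert, mem_erase]
          constructor
          · rintro ⟨h1, h2⟩
            by_cases hfe : f = e
            · exact Or.inl hfe
            · exact Or.inr ⟨⟨hfe, h1⟩, h2⟩
          · rintro (rfl | ⟨⟨_, h1⟩, h2⟩)
            · exact ⟨he, hrefl _⟩
            · exact ⟨h1, h2⟩
        rw [h3, sum_insert (by simp)])
      rwa [insert_erase he] at h2
    · push Not at hg
      obtain ⟨F, hFR, hFne, lam, hlam, hcl, hbud⟩ := hcond R hne hg
      have hcard : (R \ F).card < n := by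
        rw [← hn]
        apply card_lt_card
        refine ⟨sdiff_subset, fun h => ?_⟩
        obtain ⟨a, ha⟩ := hFne
        have := h (hFR ha)
        rw [mem_sdiff] at this
        exact this.2 ha
      have h1 := ih _ hcard (R \ F) rfl
      have h2 := real_batch hrefl hs (R' := R \ F) (F := F) sdiff_disjoint h1
        (fun e _ => hy e) hlam hcl hbud
      rwa [sdiff_union_of_subset hFR] at h2

end Graph

section Hyper

variable {V E : Type} [Fintype V] [DecidableEq V] [DecidableEq E] [Fintype E]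

/-- Codegree excess of `f` with respect to the family `C`. -/
noncomputable def exc (H : E → Finset V) (x : E → ℝ) (C : Finset E) (f : E) : ℝ :=
  ∑ g ∈ C, x g * (((H f ∩ H g).card : ℝ) - 1)

/-- The clique condition for edges of size `k` with coefficient `c`, all larger edges having
coefficient at least `c'`. -/
def CliqueOK (k : ℕ) (c c' : ℝ) : Prop :=
  ∀ (V E : Type) [Fintype V] [DecidableEq V] [DecidableEq E] (H : E → Finset V) (x X : E → ℝ)
    (C : Finset E), C.Nonempty → (∀ f ∈ C, (H f).card = k) → (∀ f ∈ C, 0 < x f) →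
    (∀ f ∈ C, ∀ g ∈ C, ¬ Disjoint (H f) (H g)) →
    (∀ v, ∑ f ∈ C with v ∈ H f, x f ≤ 1) →
    (∀ f ∈ C, ∑ g ∈ C, x g ≤ X f ∧ X f + exc H x C f ≤ k ∧
      c * (c' - k + exc H x C f) < (c' - c) * X f) →
    ∑ f ∈ C, x f * c' / ((2 * c - c') * X f + 2 * c * (c' - k + exc H x C f)) ≤ 1

omit [Fintype V] [Fintype E] in
theorem exc_nonneg {H : E → Finset V} {x : E → ℝ} {C : Finset E} {f : E}
    (hx : ∀ g ∈ C, 0 ≤ x g) (hint : ∀ g ∈ C, ¬ Disjoint (H f) (H g)) : 0 ≤ exc H x C f := by
  apply sum_nonneg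
  intro g hg
  apply mul_nonneg (hx g hg)
  have h1 : 0 < (H f ∩ H g).card := by
    rw [card_pos]
    exact not_disjoint_iff_nonempty_inter.1 (hint g hg)
  have h2 : (1 : ℝ) ≤ ((H f ∩ H g).card : ℝ) := by exact_mod_cast h1
  linarith

/-- Counting incidences: the neighbourhood weight of `e` plus its codegree excess in `C` is at
most `|e|`. -/
theorem nbr_le {H : E → Finset V} {x : E → ℝ} (hx : ∀ e, 0 ≤ x e)
    {R : Finset E} (hdeg : ∀ v, ∑ f ∈ R with v ∈ H f, x f ≤ 1) {C : Finset E} (hC : C ⊆ R)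
    {e : E} (hint : ∀ g ∈ C, ¬ Disjoint (H e) (H g)) :
    ∑ f ∈ R with ¬ Disjoint (H e) (H f), x f + exc H x C e ≤ ((H e).card : ℝ) := by
  classical
  have h1 : ∑ v ∈ H e, ∑ f ∈ R with v ∈ H f, x f = ∑ f ∈ R, x f * ((H e ∩ H f).card : ℝ) := by
    simp_rw [sum_filter]
    rw [sum_comm]
    refine sum_congr rfl fun f _ => ?_
    rw [← sum_filter, sum_const, nsmul_eq_mul, mul_comm]
    congr 2
  have h2 : ∑ v ∈ H e, ∑ f ∈ R with v ∈ H f, x f ≤ ((H e).card : ℝ) := by
    calc ∑ v ∈ H e, ∑ f ∈ R with v ∈ H f, x f ≤ ∑ v ∈ H e, (1 : ℝ) :=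
          sum_le_sum fun v _ => hdeg v
      _ = ((H e).card : ℝ) := by simp
  rw [h1] at h2
  refine le_trans ?_ h2
  have h3 : exc H x C e = ∑ f ∈ R, if f ∈ C then x f * (((H e ∩ H f).card : ℝ) - 1) else 0 := by
    unfold exc
    rw [← sum_filter]
    apply sum_congr _ fun _ _ => rfl
    ext f
    simp only [mem_filter]
    constructor
    · exact fun h => ⟨hC h, h⟩
    · exact fun h => h.2
  rw [h3, sum_filter, ← sum_add_distrib]
  refine sum_le_sum fun f _ => ?_
  by_cases hd : Disjoint (H e) (H f)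
  · have hfC : f ∉ C := fun h => hint f h hd
    simp only [hd, not_true, if_false, hfC, zero_add]
    exact mul_nonneg (hx f) (Nat.cast_nonneg _)
  · simp only [hd, not_false_eq_true, if_true]
    have h4 : 0 < (H e ∩ H f).card := by
      rw [card_pos]
      exact not_disjoint_iff_nonempty_inter.1 hd
    have h5 : (1 : ℝ) ≤ ((H e ∩ H f).card : ℝ) := by exact_mod_cast h4
    have hxf := hx f
    split_ifs
    · linarith
    · nlinarith

/-- Main induction with single size batches. -/
theorem real_single {H : E → Finset V} (hne : ∀ e, (H e).Nonempty) {x : E → ℝ}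
    (hx : ∀ e, 0 ≤ x e) (hdeg : ∀ v, ∑ f with v ∈ H f, x f ≤ 1) {cf cp : ℕ → ℝ}
    (h0 : ∀ e, 0 < cf (H e).card)
    (h1 : ∀ e, cf (H e).card < cp (H e).card ∧ cp (H e).card ≤ 2 * cf (H e).card ∧
      ((H e).card : ℝ) < cp (H e).card)
    (h2 : ∀ e f, (H e).card < (H f).card → cp (H e).card ≤ cf (H f).card)
    (h3 : ∀ e, CliqueOK (H e).card (cf (H e).card) (cp (H e).card)) (R : Finset E) :
    Real (fun e f => ¬ Disjoint (H e) (H f)) R (fun e => x e / cf (H e).card) := by
  classical
  have hrefl : ∀ a, ¬ Disjoint (H a) (H a) := by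
    intro a h
    rw [disjoint_self] at h
    exact (hne a).ne_empty h
  apply real_induct (r := fun e f => ¬ Disjoint (H e) (H f)) hrefl
    (fun a b h h' => h (disjoint_comm.1 h')) (fun e => div_nonneg (hx e) (h0 e).le)
  intro R hRne hA
  obtain ⟨e0, he0, hmin⟩ := exists_min_image R (fun e => (H e).card) hRne
  set k := (H e0).card with hk
  set c := cf k with hc
  set c' := cp k with hc'
  obtain ⟨hcc, hc2, hkc⟩ := h1 e0
  have hc0 : 0 < c := h0 e0
  have hc0' : 0 < c' := hc0.trans hcc
  set F := R.filter (fun e => (H e).card = k) with hF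
  have hFk : ∀ e ∈ F, (H e).card = k := fun e he => (mem_filter.1 he).2
  have hFR : F ⊆ R := filter_subset _ _
  have hdegR : ∀ v, ∑ f ∈ R with v ∈ H f, x f ≤ 1 := by
    intro v
    refine le_trans ?_ (hdeg v)
    apply sum_le_sum_of_subset_of_nonneg
    · exact filter_subset_filter _ (subset_univ _)
    · exact fun f _ _ => hx f
  -- quantities
  set X : E → ℝ := fun e => ∑ f ∈ F with ¬ Disjoint (H e) (H f), x f with hX
  set Z : E → ℝ := fun e => ∑ f ∈ R \ F with ¬ Disjoint (H e) (H f), x f / cf (H f).card with hZ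
  have hsplit : ∀ (z : E → ℝ) (e : E), ∑ f ∈ R with ¬ Disjoint (H e) (H f), z f =
      ∑ f ∈ F with ¬ Disjoint (H e) (H f), z f +
        ∑ f ∈ R \ F with ¬ Disjoint (H e) (H f), z f := by
    intro z e
    rw [← sum_union]
    · congr 1
      rw [← filter_union, union_sdiff_of_subset hFR]
    · exact disjoint_filter_filter (disjoint_sdiff)
  have hFy : ∀ e, ∑ f ∈ F with ¬ Disjoint (H e) (H f), x f / cf (H f).card = X e / c := by
    intro e
    simp only [hX]
    rw [sum_div]
    refine sum_congr rfl fun f hf => ?_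
    rw [hFk f (mem_filter.1 hf).1]
  have hZle : ∀ e, Z e ≤ (∑ f ∈ R \ F with ¬ Disjoint (H e) (H f), x f) / c' := by
    intro e
    simp only [hZ]
    rw [sum_div]
    refine sum_le_sum fun f hf => ?_
    have hf1 := (mem_sdiff.1 (mem_filter.1 hf).1)
    have hlt : k < (H f).card := by
      have h4 := hmin f hf1.1
      have h5 : (H f).card ≠ k := fun h => hf1.2 (mem_filter.2 ⟨hf1.1, h⟩)
      omega
    exact div_le_div_of_nonneg_left (hx f) hc0' (h2 e0 f hlt)
  -- bound on Z for a clique
  have hZC : ∀ C ⊆ F, (∀ f ∈ C, ∀ g ∈ C, ¬ Disjoint (H f) (H g)) → ∀ e ∈ C,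
      Z e ≤ (k - exc H x C e - X e) / c' := by
    intro C hC hCc e he
    refine (hZle e).trans (div_le_div_of_nonneg_right ?_ hc0'.le)
    have h4 := nbr_le hx hdegR (hC.trans hFR) (e := e) (hCc e he)
    rw [hsplit x e, hFk e (hC he)] at h4
    have h5 : X e = ∑ f ∈ F with ¬ Disjoint (H e) (H f), x f := rfl
    linarith
  have hAe : ∀ e ∈ F, 1 < X e / c + Z e := by
    intro e he
    have h4 := hA e (hFR he)
    rw [hsplit (fun e => x e / cf (H e).card) e, hFy e] at h4
    exact h4
  -- tau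
  set τ : E → ℝ := fun e => 2 * c * (1 - Z e) - X e with hτ
  have hτle : ∀ C ⊆ F, (∀ f ∈ C, ∀ g ∈ C, ¬ Disjoint (H f) (H g)) → ∀ e ∈ C,
      ((2 * c - c') * X e + 2 * c * (c' - k + exc H x C e)) / c' ≤ τ e := by
    intro C hC hCc e he
    have h4 := hZC C hC hCc e he
    rw [le_div_iff₀ hc0'] at h4
    simp only [hτ]
    rw [div_le_iff₀ hc0']
    nlinarith
  have hXg : ∀ C ⊆ F, (∀ f ∈ C, ∀ g ∈ C, ¬ Disjoint (H f) (H g)) → ∀ e ∈ C,
      c * (c' - k + exc H x C e) < (c' - c) * X e := by
    intro C hC hCc e he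
    have h4 := hZC C hC hCc e he
    have h5 := hAe e (hC he)
    rw [le_div_iff₀ hc0'] at h4
    have h6 : c < X e + c * Z e := by
      have := mul_lt_mul_of_pos_left h5 hc0
      rw [mul_one, mul_add, mul_div_cancel₀ _ hc0.ne'] at this
      exact this
    nlinarith
  have hXpos : ∀ C ⊆ F, (∀ f ∈ C, ∀ g ∈ C, ¬ Disjoint (H f) (H g)) → (∀ a ∈ C, 0 < x a) →
      ∀ e ∈ C, ∑ g ∈ C, x g ≤ X e := by
    intro C hC hCc hCx e he
    simp only [hX]
    apply sum_le_sum_of_subset_of_nonneg
    · intro g hg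
      exact mem_filter.2 ⟨hC hg, hCc e he g hg⟩
    · exact fun f _ _ => hx f
  have hXk : ∀ C ⊆ F, (∀ f ∈ C, ∀ g ∈ C, ¬ Disjoint (H f) (H g)) → ∀ e ∈ C,
      X e + exc H x C e ≤ k := by
    intro C hC hCc e he
    have h4 := nbr_le hx hdegR (hC.trans hFR) (e := e) (hCc e he)
    rw [hsplit x e, hFk e (hC he)] at h4
    have h5 : X e = ∑ f ∈ F with ¬ Disjoint (H e) (H f), x f := rfl
    have h6 : 0 ≤ ∑ f ∈ R \ F with ¬ Disjoint (H e) (H f), x f := sum_nonneg fun f _ => hx f
    linarith
  have hden : ∀ C ⊆ F, (∀ f ∈ C, ∀ g ∈ C, ¬ Disjoint (H f) (H g)) → (∀ a ∈ C, 0 < x a) →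
      ∀ e ∈ C, 0 < (2 * c - c') * X e + 2 * c * (c' - k + exc H x C e) := by
    intro C hC hCc hCx e he
    have h4 : 0 ≤ exc H x C e := exc_nonneg (fun g _ => hx g) (hCc e he)
    have h5 : 0 ≤ X e := (sum_nonneg fun g hg => (hCx g hg).le).trans (hXpos C hC hCc hCx e he)
    have h6 : 0 < c' - k + exc H x C e := by linarith
    have h7 : 0 ≤ (2 * c - c') * X e := mul_nonneg (by linarith) h5
    have h8 : 0 < 2 * c * (c' - k + exc H x C e) := by positivity
    linarith
  have hsing : ∀ e ∈ F, 0 < x e → 0 < τ e := by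
    intro e he hxe
    have hC : ({e} : Finset E) ⊆ F := singleton_subset_iff.2 he
    have hCc : ∀ f ∈ ({e} : Finset E), ∀ g ∈ ({e} : Finset E), ¬ Disjoint (H f) (H g) := by
      intro f hf g hg
      rw [mem_singleton] at hf hg
      subst hf; subst hg
      exact hrefl _
    have hCx : ∀ a ∈ ({e} : Finset E), 0 < x a := by
      intro a ha
      rw [mem_singleton] at ha
      subst ha
      exact hxe
    have h4 := hτle {e} hC hCc e (mem_singleton_self e)
    have h5 := hden {e} hC hCc hCx e (mem_singleton_self e)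
    exact lt_of_lt_of_le (div_pos h5 hc0') h4
  have hypos : ∀ e, 0 < x e / cf (H e).card → 0 < x e := by
    intro e he
    by_contra h
    have : x e = 0 := le_antisymm (not_lt.1 h) (hx e)
    rw [this, zero_div] at he
    exact lt_irrefl _ he
  refine ⟨F, hFR, ⟨e0, mem_filter.2 ⟨he0, rfl⟩⟩, fun e => x e / τ e, ?_, ?_, ?_⟩
  · intro e he hye
    exact div_pos (hypos e hye) (hsing e he (hypos e hye))
  · intro C hC hCy hCc
    rcases C.eq_empty_or_nonempty with rfl | hCne
    · simp
    have hCx : ∀ a ∈ C, 0 < x a := fun a ha => hypos a (hCy a ha)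
    have h4 := h3 e0 V E H x X C hCne (fun f hf => hFk f (hC hf)) hCx hCc
      (by
        intro v
        refine le_trans ?_ (hdegR v)
        apply sum_le_sum_of_subset_of_nonneg
        · exact filter_subset_filter _ (hC.trans hFR)
        · exact fun f _ _ => hx f)
      (fun f hf => ⟨hXpos C hC hCc hCx f hf, hXk C hC hCc f hf, hXg C hC hCc f hf⟩)
    refine le_trans (sum_le_sum fun f hf => ?_) h4
    have h5 := hτle C hC hCc f hf
    have h6 := hden C hC hCc hCx f hf
    have h7 : 0 < ((2 * c - c') * X f + 2 * c * (c' - k + exc H x C f)) / c' := div_pos h6 hc0'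
    calc x f / τ f ≤ x f / (((2 * c - c') * X f + 2 * c * (c' - k + exc H x C f)) / c') :=
          div_le_div_of_nonneg_left (hx f) h7 h5
      _ = x f * c' / ((2 * c - c') * X f + 2 * c * (c' - k + exc H x C f)) := by
          rw [div_div_eq_mul_div]
  · intro e he hye
    have hxe := hypos e hye
    have hτe := hsing e he hxe
    rw [hFy e]
    have h4 : x e / cf (H e).card / (x e / τ e) = τ e / c := by
      rw [hFk e he, ← hc]
      field_simp
    show X e / c + x e / cf (H e).card / (x e / τ e) ≤ 2 * (1 - Z e)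
    rw [h4]
    simp only [hτ]
    rw [← add_div]
    rw [div_le_iff₀ hc0]
    nlinarith

end Hyper

end H4.FKS
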