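import Mathlib
import Pool.Agent.H4.FKS.Induct

/-!
# Weighted trace inequality for intersecting uniform families
-/

set_option autoImplicit false
set_option linter.unusedSectionVars false
set_option linter.unusedVariables false

namespace H4.FKS

open Finset

section
variable {V E : Type} [Fintype V] [DecidableEq V] [DecidableEq E]
variable (H : E → Finset V) (x : E → ℝ) (C : Finset E)

/-- Weighted degree. -/
noncomputable def dg (v : V) : ℝ := ∑ f ∈ C with v ∈ H f, x f

/-- Weighted codegree. -/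
noncomputable def cdg (v w : V) : ℝ := ∑ f ∈ C with v ∈ H f ∧ w ∈ H f, x f

theorem cdg_self (v : V) : cdg H x C v v = dg H x C v := by
  unfold cdg dg
  simp

theorem sum_dg (φ : V → ℝ) :
    ∑ v, dg H x C v * φ v = ∑ f ∈ C, x f * ∑ v ∈ H f, φ v := by
  unfold dg
  simp_rw [sum_filter, sum_mul]
  rw [sum_comm]
  refine sum_congr rfl fun f _ => ?_
  rw [mul_sum, ← sum_subset (subset_univ (H f))]
  · refine sum_congr rfl fun v hv => ?_
    rw [if_pos hv]
  · intro v _ hv
    rw [if_neg hv, zero_mul]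

theorem sum_cdg (v : V) (φ : V → ℝ) :
    ∑ w, cdg H x C v w * φ w = ∑ f ∈ C with v ∈ H f, x f * ∑ w ∈ H f, φ w := by
  unfold cdg
  simp_rw [sum_filter, sum_mul]
  rw [sum_comm]
  refine sum_congr rfl fun f _ => ?_
  by_cases hv : v ∈ H f
  · rw [if_pos hv, mul_sum, ← sum_subset (subset_univ (H f))]
    · refine sum_congr rfl fun w hw => ?_
      rw [if_pos ⟨hv, hw⟩]
    · intro w _ hw
      rw [if_neg (fun h => hw h.2), zero_mul]
  · rw [if_neg hv]
    apply sum_eq_zero
    intro w _
    rw [if_neg (fun h => hv h.1), zero_mul]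

/-- The degree sum of an edge. -/
theorem sum_dg_edge (f : E) : ∑ v ∈ H f, dg H x C v = ∑ g ∈ C, x g + exc H x C f := by
  unfold dg exc
  simp_rw [sum_filter]
  rw [sum_comm, ← sum_add_distrib]
  refine sum_congr rfl fun g _ => ?_
  rw [← sum_filter, sum_const, nsmul_eq_mul]
  have : (H f).filter (fun v => v ∈ H g) = H f ∩ H g := by
    ext v; simp
  rw [this]
  ring

/-- Energy at a vertex. -/
theorem sum_cdg_sq (v : V) :
    ∑ w, cdg H x C v w ^ 2 - dg H x C v ^ 2 =
      ∑ f ∈ C with v ∈ H f, ∑ g ∈ C with v ∈ H g,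
        x f * x g * (((H f ∩ H g).card : ℝ) - 1) := by
  have h1 : ∑ w, cdg H x C v w ^ 2 = ∑ f ∈ C with v ∈ H f, ∑ g ∈ C with v ∈ H g,
      x f * x g * ((H f ∩ H g).card : ℝ) := by
    have h2 : ∀ w, cdg H x C v w ^ 2 = cdg H x C v w * cdg H x C v w := fun w => by ring
    simp_rw [h2]
    rw [sum_cdg]
    refine sum_congr rfl fun f _ => ?_
    unfold cdg
    simp_rw [sum_filter]
    rw [sum_comm, mul_sum]
    refine sum_congr rfl fun g _ => ?_
    by_cases hv : v ∈ H g
    · rw [if_pos hv]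
      have h3 : ∀ w ∈ H f, (if v ∈ H g ∧ w ∈ H g then x g else 0) =
          if w ∈ H g then x g else 0 := by
        intro w _
        simp [hv]
      rw [sum_congr rfl h3, ← sum_filter, sum_const, nsmul_eq_mul]
      have : (H f).filter (fun w => w ∈ H g) = H f ∩ H g := by
        ext v; simp
      rw [this]
      ring
    · rw [if_neg hv]
      have h3 : ∀ w ∈ H f, (if v ∈ H g ∧ w ∈ H g then x g else 0) = 0 := by
        intro w _
        simp [hv]
      rw [sum_congr rfl h3]
      simp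
  have h2 : dg H x C v ^ 2 = ∑ f ∈ C with v ∈ H f, ∑ g ∈ C with v ∈ H g, x f * x g := by
    unfold dg
    rw [sq, sum_mul_sum]
  rw [h1, h2, ← sum_sub_distrib]
  refine sum_congr rfl fun f _ => ?_
  rw [← sum_sub_distrib]
  refine sum_congr rfl fun g _ => ?_
  ring

/-- The weighted trace inequality. -/
theorem trace_ineq {k : ℕ} (hk : ∀ f ∈ C, (H f).card = k) (hx : ∀ f ∈ C, 0 ≤ x f)
    (hint : ∀ f ∈ C, ∀ g ∈ C, ¬ Disjoint (H f) (H g)) (hd : ∀ v, dg H x C v ≤ 1)
    {s D u U τ η Φ : ℝ} (hs0 : 0 < s) (hs : ∑ f ∈ C, x f = s)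
    (hD : ∑ f ∈ C, x f * exc H x C f = s * D) (hu : u = s + D)
    (hU : ∀ f ∈ C, s + exc H x C f ≤ U) (hη : 0 ≤ η) (hτ : 0 ≤ τ)
    (hbr : ∀ d : ℝ, 0 ≤ d → d ≤ 1 →
      Φ * (1 + η * d) ≤ 2 * τ * (u - d) * (1 + η * d) - τ ^ 2 * (s * u - d ^ 2)) :
    Φ * (s * u) ≤ s * D * (k + η * U) := by
  set d : V → ℝ := dg H x C with hdd
  have hd0 : ∀ v, 0 ≤ d v := fun v => sum_nonneg fun f hf => hx f (mem_filter.1 hf).1
  set E2 : V → ℝ := fun v => ∑ w, cdg H x C v w ^ 2 - d v ^ 2 with hE2
  have hexc0 : ∀ f ∈ C, 0 ≤ exc H x C f := fun f hf => exc_nonneg hx (hint f hf)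
  -- B
  have hB : ∑ v, d v ^ 2 = s * u := by
    have h1 : ∀ v, d v ^ 2 = d v * d v := fun v => by ring
    simp_rw [h1]
    rw [hdd, sum_dg]
    have h2 : ∀ f ∈ C, x f * ∑ v ∈ H f, dg H x C v = x f * s + x f * exc H x C f := by
      intro f _
      rw [sum_dg_edge, hs]
      ring
    rw [sum_congr rfl h2, sum_add_distrib, hD, ← sum_mul, hs, hu]
    ring
  -- the upper bound
  have hup : ∑ v, (1 + η * d v) * E2 v ≤ s * D * (k + η * U) := by
    have h1 : ∑ v, (1 + η * d v) * E2 v = ∑ f ∈ C, ∑ g ∈ C,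
        x f * x g * (((H f ∩ H g).card : ℝ) - 1) * ∑ v ∈ H f ∩ H g, (1 + η * d v) := by
      have h2 : ∀ v, (1 + η * d v) * E2 v = ∑ f ∈ C, ∑ g ∈ C,
          if v ∈ H f ∩ H g then (1 + η * d v) * (x f * x g * (((H f ∩ H g).card : ℝ) - 1))
          else 0 := by
        intro v
        simp only [hE2]
        rw [hdd, sum_cdg_sq, mul_sum, sum_filter]
        refine sum_congr rfl fun f _ => ?_
        by_cases hf : v ∈ H f
        · rw [if_pos hf, mul_sum, sum_filter]
          refine sum_congr rfl fun g _ => ?_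
          by_cases hg : v ∈ H g
          · rw [if_pos hg, if_pos (mem_inter.2 ⟨hf, hg⟩)]
          · rw [if_neg hg, if_neg (fun h => hg (mem_inter.1 h).2)]
        · rw [if_neg hf]
          symm
          apply sum_eq_zero
          intro g _
          rw [if_neg (fun h => hf (mem_inter.1 h).1)]
      simp_rw [h2]
      rw [sum_comm]
      refine sum_congr rfl fun f _ => ?_
      rw [sum_comm]
      refine sum_congr rfl fun g _ => ?_
      have h3 : ∀ v, (if v ∈ H f ∩ H g then
          (1 + η * d v) * (x f * x g * (((H f ∩ H g).card : ℝ) - 1)) else 0) =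
          if v ∈ H f ∩ H g then
            x f * x g * (((H f ∩ H g).card : ℝ) - 1) * (1 + η * d v) else 0 := by
        intro v
        split_ifs
        · ring
        · rfl
      simp_rw [h3]
      rw [← sum_filter, mul_sum]
      apply sum_congr _ fun _ _ => rfl
      ext v; simp
    rw [h1]
    have h4 : ∀ f ∈ C, ∑ g ∈ C,
        x f * x g * (((H f ∩ H g).card : ℝ) - 1) * ∑ v ∈ H f ∩ H g, (1 + η * d v) ≤
        x f * exc H x C f * (k + η * U) := by
      intro f hf
      have h5 : x f * exc H x C f * (k + η * U) =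
          ∑ g ∈ C, x f * x g * (((H f ∩ H g).card : ℝ) - 1) * (k + η * U) := by
        unfold exc
        rw [mul_sum, sum_mul]
        refine sum_congr rfl fun g _ => ?_
        ring
      rw [h5]
      refine sum_le_sum fun g hg => ?_
      have h6 : (1 : ℝ) ≤ ((H f ∩ H g).card : ℝ) := by
        have := card_pos.2 (not_disjoint_iff_nonempty_inter.1 (hint f hf g hg))
        exact_mod_cast this
      have h7 : 0 ≤ x f * x g * (((H f ∩ H g).card : ℝ) - 1) :=
        mul_nonneg (mul_nonneg (hx f hf) (hx g hg)) (by linarith)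
      apply mul_le_mul_of_nonneg_left _ h7
      calc ∑ v ∈ H f ∩ H g, (1 + η * d v) ≤ ∑ v ∈ H f, (1 + η * d v) := by
            apply sum_le_sum_of_subset_of_nonneg inter_subset_left
            intro v _ _
            have := mul_nonneg hη (hd0 v)
            linarith
        _ = k + η * (s + exc H x C f) := by
            rw [sum_add_distrib, ← mul_sum, hdd, sum_dg_edge, hs]
            simp [hk f hf]
        _ ≤ k + η * U := by
            have := mul_le_mul_of_nonneg_left (hU f hf) hη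
            linarith
    calc _ ≤ ∑ f ∈ C, x f * exc H x C f * (k + η * U) := sum_le_sum h4
      _ = s * D * (k + η * U) := by rw [← sum_mul, hD]
  refine le_trans ?_ hup
  -- the lower bound
  set p : V → ℝ := fun v => ∑ w, cdg H x C v w * d w - d v ^ 2 with hp
  have hcs : ∀ v, ∀ t : ℝ, 2 * t * p v - t ^ 2 * (s * u - d v ^ 2) ≤ E2 v := by
    intro v t
    have h1 : 0 ≤ ∑ w ∈ univ.erase v, (cdg H x C v w - t * d w) ^ 2 :=
      sum_nonneg fun w _ => sq_nonneg _
    have h2 : ∑ w ∈ univ.erase v, (cdg H x C v w - t * d w) ^ 2 =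
        ∑ w, (cdg H x C v w - t * d w) ^ 2 - (cdg H x C v v - t * d v) ^ 2 := by
      rw [← add_sum_erase univ _ (mem_univ v)]
      ring
    have h3 : ∑ w, (cdg H x C v w - t * d w) ^ 2 =
        ∑ w, cdg H x C v w ^ 2 - 2 * t * ∑ w, cdg H x C v w * d w + t ^ 2 * ∑ w, d w ^ 2 := by
      rw [mul_sum, mul_sum, ← sum_sub_distrib, ← sum_add_distrib]
      refine sum_congr rfl fun w _ => ?_
      ring
    rw [h2, h3, hB, cdg_self] at h1
    simp only [hE2, hp]
    simp only [hdd] at h1 ⊢
    nlinarith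
  have hsum_p : s * u ^ 2 - ∑ v, d v ^ 3 ≤ ∑ v, d v * p v := by
    have h1 : ∑ v, d v * p v = ∑ f ∈ C, x f * (s + exc H x C f) ^ 2 - ∑ v, d v ^ 3 := by
      have h2 : ∀ v, d v * p v = (∑ w, cdg H x C v w * d w) * d v - d v ^ 3 := by
        intro v
        simp only [hp]
        ring
      simp_rw [h2]
      rw [sum_sub_distrib]
      congr 1
      have h3 : ∀ v, (∑ w, cdg H x C v w * d w) * d v =
          ∑ f ∈ C with v ∈ H f, x f * (s + exc H x C f) * d v := by
        intro v
        rw [sum_cdg, sum_mul]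
        refine sum_congr rfl fun f _ => ?_
        rw [hdd, sum_dg_edge, hs]
      simp_rw [h3, sum_filter]
      rw [sum_comm]
      refine sum_congr rfl fun f _ => ?_
      rw [← sum_filter, ← mul_sum]
      have h4 : (univ : Finset V).filter (fun v => v ∈ H f) = H f := by
        ext v; simp
      rw [h4, hdd, sum_dg_edge, hs]
      ring
    rw [h1]
    have h5 : s * u ^ 2 ≤ ∑ f ∈ C, x f * (s + exc H x C f) ^ 2 := by
      have h6 : 0 ≤ ∑ f ∈ C, x f * (s + exc H x C f - u) ^ 2 :=
        sum_nonneg fun f hf => mul_nonneg (hx f hf) (sq_nonneg _)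
      have h7 : ∑ f ∈ C, x f * (s + exc H x C f - u) ^ 2 =
          ∑ f ∈ C, x f * (s + exc H x C f) ^ 2 - 2 * u * ∑ f ∈ C, x f * (s + exc H x C f) +
            u ^ 2 * ∑ f ∈ C, x f := by
        rw [mul_sum, mul_sum, ← sum_sub_distrib, ← sum_add_distrib]
        refine sum_congr rfl fun f _ => ?_
        ring
      have h8 : ∑ f ∈ C, x f * (s + exc H x C f) = s * u := by
        simp_rw [mul_add]
        rw [sum_add_distrib, hD, ← sum_mul, hs, hu]
        ring
      rw [h7, h8, hs] at h6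
      nlinarith
    linarith
  have hmain : ∀ v, Φ * d v ^ 2 ≤ (1 + η * d v) * E2 v - 2 * τ * (d v * p v) +
      2 * τ * (u * d v ^ 2 - d v ^ 3) := by
    intro v
    have hα : 0 < 1 + η * d v := by
      have := mul_nonneg hη (hd0 v)
      linarith
    have h1 := hcs v (τ * d v / (1 + η * d v))
    have h2 := mul_le_mul_of_nonneg_left h1 hα.le
    have h3 : (1 + η * d v) * (2 * (τ * d v / (1 + η * d v)) * p v -
        (τ * d v / (1 + η * d v)) ^ 2 * (s * u - d v ^ 2)) =
        2 * τ * (d v * p v) - τ ^ 2 * d v ^ 2 * (s * u - d v ^ 2) / (1 + η * d v) := by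
      field_simp
    rw [h3] at h2
    have h4 := hbr (d v) (hd0 v) (hd v)
    have h5 : Φ * d v ^ 2 ≤ 2 * τ * (u - d v) * d v ^ 2 -
        τ ^ 2 * d v ^ 2 * (s * u - d v ^ 2) / (1 + η * d v) := by
      have h6 : 2 * τ * (u - d v) * d v ^ 2 -
          τ ^ 2 * d v ^ 2 * (s * u - d v ^ 2) / (1 + η * d v) =
          d v ^ 2 * ((2 * τ * (u - d v) * (1 + η * d v) - τ ^ 2 * (s * u - d v ^ 2)) /
            (1 + η * d v)) := by
        have h7 : ∀ α a b c : ℝ, α ≠ 0 →
            2 * τ * a * b - τ ^ 2 * b * c / α = b * ((2 * τ * a * α - τ ^ 2 * c) / α) := by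
          intro α a b c hα0
          field_simp
        exact h7 _ _ _ _ hα.ne'
      rw [h6, mul_comm]
      apply mul_le_mul_of_nonneg_left _ (sq_nonneg _)
      rw [le_div_iff₀ hα]
      exact h4
    nlinarith
  have h1 := sum_le_sum (s := (univ : Finset V)) fun v _ => hmain v
  rw [← mul_sum, hB, sum_add_distrib, sum_sub_distrib, ← mul_sum, ← mul_sum,
    sum_sub_distrib, ← mul_sum, hB] at h1
  have h2 := mul_le_mul_of_nonneg_left hsum_p (by linarith : (0 : ℝ) ≤ 2 * τ)
  nlinarith

end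

end H4.FKS
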