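import Mathlib
import Pool.Agent.H4.FKS.Trace

/-!
# From the mean codegree excess to the clique condition
-/

set_option autoImplicit false
set_option linter.unusedSectionVars false
set_option linter.unusedVariables false

namespace H4.FKS

open Finset

/-- What has to be known about `s = x(C)` and the mean excess `D`. -/
def Concl (k c c' s D : ℝ) : Prop :=
  s ≤ c ∧ ((c' - c) * s ≤ c * (c' - k) ∨
    (2 * c * (k - c) ≤ (2 * c - c') * s ∧ (c' - c) * s ≤ c * (c' - k + D)) ∨
    ((2 * c - c') * s ≤ 2 * c * (k - c) ∧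
      2 * (k - c) * c * ((c' - c) * s - c * (c' - k)) ≤
        D * s * (2 * c * (k - c) + (2 * c - c') * (c - s))))

/-- Term bound in the second case. -/
theorem term_B {k c c' s X δ : ℝ} (hc : 0 < c) (hcc : c < c') (hc2 : c' ≤ 2 * c)
    (hs : 0 < s) (hsc : s ≤ c) (hδ : 0 ≤ δ) (hkc : k < c') (hXs : s ≤ X)
    (hXz : c * (c' - k + δ) ≤ (c' - c) * X) (hzc : c' - k + δ ≤ c' - c)
    (hcond : 2 * c * (k - c) ≤ (2 * c - c') * s) :
    c' / ((2 * c - c') * X + 2 * c * (c' - k + δ)) ≤
      (c + s) / (c * s) - (c' - k + δ) / ((c' - c) * s) := by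
  have hg : 0 < c' - c := by linarith
  have ha : 0 ≤ 2 * c - c' := by linarith
  set y := c' - k + δ with hy
  have hy0 : 0 < y := by linarith
  have hden : 0 < (2 * c - c') * X + 2 * c * y := by
    have : 0 ≤ (2 * c - c') * X := mul_nonneg ha (by linarith)
    have : 0 < 2 * c * y := by positivity
    linarith
  have hR : (c + s) / (c * s) - y / ((c' - c) * s) =
      ((c + s) * (c' - c) - c * y) / (c * (c' - c) * s) := by
    field_simp
  have hcgs : 0 < c * (c' - c) * s := mul_pos (mul_pos hc hg) hs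
  have hc'0 : 0 < c' := by linarith
  rw [hR, div_le_div_iff₀ hden hcgs]
  -- c' * (c*g*s) ≤ ((c+s) g - c y) * (a X + 2 c y)
  have hnum : 0 ≤ (c + s) * (c' - c) - c * y := by nlinarith
  by_cases hz : (c' - c) * s ≤ c * y
  · -- z ≥ s, use X ≥ z
    have h1 : (2 * c - c') * X * (c' - c) ≥ (2 * c - c') * (c * y) := by nlinarith
    have h2 : ((2 * c - c') * X + 2 * c * y) * (c' - c) ≥ c' * (c * y) := by nlinarith
    have h3 : c' * (c * (c' - c) * s) * (c' - c) ≤
        ((c + s) * (c' - c) - c * y) * (((2 * c - c') * X + 2 * c * y) * (c' - c)) := by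
      have h4 : ((c + s) * (c' - c) - c * y) * (c' * (c * y)) ≤
          ((c + s) * (c' - c) - c * y) * (((2 * c - c') * X + 2 * c * y) * (c' - c)) :=
        mul_le_mul_of_nonneg_left h2 hnum
      refine le_trans ?_ h4
      -- c' c [ (c+s) g y - c y^2 - g^2 s ] >= 0 ; = c' (cy - g s)(g c - c y)... 
      have h5 : ((c + s) * (c' - c) - c * y) * (c' * (c * y)) - c' * (c * (c' - c) * s) * (c' - c)
          = c' * c * ((c * y - (c' - c) * s) * ((c' - c) - y)) := by ring
      have h6 : 0 ≤ c' * c * ((c * y - (c' - c) * s) * ((c' - c) - y)) := by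
        apply mul_nonneg (by positivity)
        exact mul_nonneg (by linarith) (by linarith)
      linarith
    nlinarith
  · push Not at hz
    have h1 : (2 * c - c') * s ≤ (2 * c - c') * X := mul_le_mul_of_nonneg_left hXs ha
    have h2 : ((c + s) * (c' - c) - c * y) * ((2 * c - c') * s + 2 * c * y) ≤
        ((c + s) * (c' - c) - c * y) * ((2 * c - c') * X + 2 * c * y) :=
      mul_le_mul_of_nonneg_left (by linarith) hnum
    refine le_trans ?_ h2
    have h3 : ((c + s) * (c' - c) - c * y) * ((2 * c - c') * s + 2 * c * y) -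
        c' * (c * (c' - c) * s) =
        ((c' - c) * s - c * y) * ((2 * c - c') * s + 2 * c * y - 2 * c * (c' - c)) := by ring
    have h4 : 0 ≤ ((c' - c) * s - c * y) *
        ((2 * c - c') * s + 2 * c * y - 2 * c * (c' - c)) := by
      apply mul_nonneg (by linarith)
      have : 2 * c * y - 2 * c * (c' - c) = - (2 * c * (k - c)) + 2 * c * δ := by
        rw [hy]; ring
      have : 0 ≤ 2 * c * δ := by positivity
      linarith
    linarith

/-- Term bound in the third case. -/
theorem term_C {k c c' s X δ : ℝ} (hc : 0 < c) (hcc : c < c') (hc2 : c' ≤ 2 * c)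
    (hs : 0 < s) (hsc : s ≤ c) (hδ : 0 ≤ δ) (hkc : k < c') (hck : c < k) (hXs : s ≤ X)
    (hXz : c * (c' - k + δ) ≤ (c' - c) * X) (hzc : δ ≤ k - c)
    (hz0 : c * (c' - k) ≤ (c' - c) * s)
    (hcond : (2 * c - c') * s ≤ 2 * c * (k - c)) :
    c' / ((2 * c - c') * X + 2 * c * (c' - k + δ)) ≤
      (c' * c * (k - c) - (2 * c * (k - c) + (2 * c - c') * (c - s)) * δ) /
        (c * ((2 * c - c') * s + 2 * c * (c' - k)) * (k - c)) := by
  have hg : 0 < c' - c := by linarith
  have ha : 0 ≤ 2 * c - c' := by linarith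
  have hl : 0 < k - c := by linarith
  have hh : 0 < c' - k := by linarith
  set M := 2 * c * (k - c) + (2 * c - c') * (c - s) with hM
  set T := (2 * c - c') * s + 2 * c * (c' - k) with hT
  have hMT : M = c * c' - T := by rw [hM, hT]; ring
  have hT0 : 0 < T := by
    have : 0 ≤ (2 * c - c') * s := mul_nonneg ha hs.le
    have : 0 < 2 * c * (c' - k) := by positivity
    linarith
  have hM0 : 0 ≤ M := by
    have : 0 ≤ (2 * c - c') * (c - s) := mul_nonneg ha (by linarith)
    have : 0 < 2 * c * (k - c) := by positivity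
    linarith
  have hden : 0 < (2 * c - c') * X + 2 * c * (c' - k + δ) := by
    have : 0 ≤ (2 * c - c') * X := mul_nonneg ha (by linarith)
    have : 0 < 2 * c * (c' - k + δ) := by positivity
    linarith
  have hnum : 0 ≤ c' * c * (k - c) - M * δ := by
    have h1 : M * δ ≤ M * (k - c) := mul_le_mul_of_nonneg_left hzc hM0
    have h2 : M * (k - c) ≤ c' * c * (k - c) := by
      apply mul_le_mul_of_nonneg_right _ hl.le
      rw [hMT]
      linarith
    linarith
  have hcTl : 0 < c * T * (k - c) := mul_pos (mul_pos hc hT0) hl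
  have hc'0 : 0 < c' := by linarith
  rw [div_le_div_iff₀ hden hcTl]
  by_cases hz : (c' - c) * s ≤ c * (c' - k + δ)
  · -- z ≥ s
    have h2 : c' * (c * (c' - k + δ)) ≤
        ((2 * c - c') * X + 2 * c * (c' - k + δ)) * (c' - c) := by nlinarith
    have h4 := mul_le_mul_of_nonneg_left h2 hnum
    have h5 : (c' * c * (k - c) - M * δ) * (c' * (c * (c' - k + δ))) -
        c' * (c * T * (k - c)) * (c' - c) =
        c' * c * ((k - c - δ) * (M * (c' - k + δ) - T * (k - c))) := by
      rw [hMT]; ring
    have h6 : 0 ≤ M * (c' - k + δ) - T * (k - c) := by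
      have h7 : M * ((c' - c) * s) ≤ M * (c * (c' - k + δ)) := mul_le_mul_of_nonneg_left hz hM0
      have h8 : M * ((c' - c) * s) - c * T * (k - c) =
          ((c' - c) * s - c * (c' - k)) * (2 * c * (k - c) - (2 * c - c') * s) := by
        rw [hM, hT]; ring
      have h9 : 0 ≤ ((c' - c) * s - c * (c' - k)) * (2 * c * (k - c) - (2 * c - c') * s) :=
        mul_nonneg (by linarith) (by linarith)
      have h10 : 0 ≤ c * (M * (c' - k + δ) - T * (k - c)) := by linarith
      exact nonneg_of_mul_nonneg_right h10 hc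
    have h7 : 0 ≤ c' * c * ((k - c - δ) * (M * (c' - k + δ) - T * (k - c))) := by
      apply mul_nonneg (mul_nonneg (by linarith) hc.le)
      exact mul_nonneg (by linarith) h6
    have h8 : c' * (c * T * (k - c)) * (c' - c) ≤
        (c' * c * (k - c) - M * δ) * ((2 * c - c') * X + 2 * c * (c' - k + δ)) * (c' - c) := by
      linarith
    exact le_of_mul_le_mul_right h8 hg
  · push Not at hz
    have h1 : (2 * c - c') * s ≤ (2 * c - c') * X := mul_le_mul_of_nonneg_left hXs ha
    have h2 : (c' * c * (k - c) - M * δ) * (T + 2 * c * δ) ≤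
        (c' * c * (k - c) - M * δ) * ((2 * c - c') * X + 2 * c * (c' - k + δ)) := by
      apply mul_le_mul_of_nonneg_left _ hnum
      rw [hT]; linarith
    refine le_trans ?_ h2
    have h3 : (c' * c * (k - c) - M * δ) * (T + 2 * c * δ) - c' * (c * T * (k - c)) =
        δ * (2 * c ^ 2 * c' * (k - c) - M * (T + 2 * c * δ)) := by ring
    have h4 : 0 ≤ 2 * c ^ 2 * c' * (k - c) - M * (T + 2 * c * δ) := by
      have h5 : T + 2 * c * δ ≤ c' * s := by
        rw [hT]; nlinarith
      have h6 : M * (T + 2 * c * δ) ≤ M * (c' * s) := mul_le_mul_of_nonneg_left h5 hM0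
      have h7 : 2 * c ^ 2 * c' * (k - c) - M * (c' * s) =
          c' * ((c - s) * (2 * c * (k - c) - (2 * c - c') * s)) := by
        rw [hM]; ring
      have h8 : 0 ≤ c' * ((c - s) * (2 * c * (k - c) - (2 * c - c') * s)) := by
        apply mul_nonneg (by linarith)
        exact mul_nonneg (by linarith) (by linarith)
      linarith
    have := mul_nonneg hδ h4
    linarith

/-- The clique condition from `Concl`. -/
theorem cliqueOK_of {k : ℕ} {c c' : ℝ} (hc : 0 < c) (hcc : c < c') (hc2 : c' ≤ 2 * c)
    (hkc : (k : ℝ) < c') (hck : c ≤ k)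
    (h : ∀ (V E : Type) [Fintype V] [DecidableEq V] [DecidableEq E] (H : E → Finset V)
      (x : E → ℝ) (C : Finset E) (s D : ℝ), (∀ f ∈ C, (H f).card = k) → (∀ f ∈ C, 0 < x f) →
      (∀ f ∈ C, ∀ g ∈ C, ¬ Disjoint (H f) (H g)) →
      (∀ v, dg H x C v ≤ 1) → ∑ f ∈ C, x f = s → ∑ f ∈ C, x f * exc H x C f = s * D →
      0 < s → 0 ≤ D → s + D ≤ k → (∀ f ∈ C, exc H x C f < k - c) → D < k - c →
      (∀ f ∈ C, s + exc H x C f ≤ k) →
      Concl k c c' s D) :
    CliqueOK k c c' := by
  intro V E _ _ _ H x X C hCne hk hx hint hd hX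
  set s := ∑ f ∈ C, x f with hs
  have hs0 : 0 < s := sum_pos hx hCne
  set D := (∑ f ∈ C, x f * exc H x C f) / s with hD
  have hsD : ∑ f ∈ C, x f * exc H x C f = s * D := by
    rw [hD]; field_simp
  have hx0 : ∀ f ∈ C, 0 ≤ x f := fun f hf => (hx f hf).le
  have hexc0 : ∀ f ∈ C, 0 ≤ exc H x C f := fun f hf => exc_nonneg hx0 (hint f hf)
  have hexcl : ∀ f ∈ C, exc H x C f < k - c := by
    intro f hf
    obtain ⟨h1, h2, h3⟩ := hX f hf
    have hg : 0 < c' - c := by linarith
    have h4 : (c' - c) * X f ≤ (c' - c) * (k - exc H x C f) :=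
      mul_le_mul_of_nonneg_left (by linarith) hg.le
    have h5 : c' * (c + exc H x C f) < c' * k := by nlinarith
    have h6 := lt_of_mul_lt_mul_left h5 (by linarith)
    linarith
  have hD0 : 0 ≤ D := div_nonneg (sum_nonneg fun f hf => mul_nonneg (hx0 f hf) (hexc0 f hf)) hs0.le
  have hDl : D < k - c := by
    rw [hD, div_lt_iff₀ hs0, hs, mul_sum]
    apply sum_lt_sum_of_nonempty hCne
    intro f hf
    have := mul_lt_mul_of_pos_left (hexcl f hf) (hx f hf)
    linarith
  have hsk : ∀ f ∈ C, s + exc H x C f ≤ k := by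
    intro f hf
    obtain ⟨h1, h2, h3⟩ := hX f hf
    linarith
  have hsDk : s + D ≤ k := by
    have h1 : ∑ f ∈ C, x f * (s + exc H x C f) ≤ ∑ f ∈ C, x f * k :=
      sum_le_sum fun f hf => mul_le_mul_of_nonneg_left (hsk f hf) (hx0 f hf)
    simp_rw [mul_add] at h1
    rw [sum_add_distrib, hsD, ← sum_mul, ← sum_mul, ← hs] at h1
    have h2 : s * (s + D) ≤ s * k := by linarith
    exact le_of_mul_le_mul_left h2 hs0
  have hl : 0 < (k : ℝ) - c := lt_of_le_of_lt hD0 hDl
  have hcon := h V E H x C s D hk hx hint hd rfl hsD hs0 hD0 hsDk hexcl hDl hsk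
  obtain ⟨hsc, hcase⟩ := hcon
  have hden : ∀ f ∈ C, 0 < (2 * c - c') * X f + 2 * c * (c' - k + exc H x C f) := by
    intro f hf
    obtain ⟨h1, h2, h3⟩ := hX f hf
    have h4 := hexc0 f hf
    have : 0 ≤ (2 * c - c') * X f := mul_nonneg (by linarith) (by linarith)
    have : 0 < 2 * c * (c' - k + exc H x C f) := by
      apply mul_pos (by linarith)
      linarith
    linarith
  have hterm : ∀ f ∈ C, x f * c' / ((2 * c - c') * X f + 2 * c * (c' - k + exc H x C f)) =
      x f * (c' / ((2 * c - c') * X f + 2 * c * (c' - k + exc H x C f))) := by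
    intro f _
    rw [mul_div_assoc]
  rw [sum_congr rfl hterm]
  by_cases hA : (c' - c) * s ≤ c * (c' - k)
  · have h1 : ∀ f ∈ C, x f * (c' / ((2 * c - c') * X f + 2 * c * (c' - k + exc H x C f))) ≤
        x f * (1 / s) := by
      intro f hf
      obtain ⟨h1, h2, h3⟩ := hX f hf
      have h4 := hexc0 f hf
      apply mul_le_mul_of_nonneg_left _ (hx0 f hf)
      rw [div_le_div_iff₀ (hden f hf) hs0]
      have h5 : (2 * c - c') * s ≤ (2 * c - c') * X f :=
        mul_le_mul_of_nonneg_left h1 (by linarith)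
      have h6 : 0 ≤ 2 * c * exc H x C f := by positivity
      linarith
    refine (sum_le_sum h1).trans ?_
    rw [← sum_mul, ← hs]
    rw [mul_one_div, div_self hs0.ne']
  · rcases hcase with hcase | ⟨h1, h2⟩ | ⟨h1, h2⟩
    · exact absurd hcase hA
    · have hg : 0 < c' - c := by linarith
      have h3 : ∀ f ∈ C, x f * (c' / ((2 * c - c') * X f + 2 * c * (c' - k + exc H x C f))) ≤
          x f * ((c + s) / (c * s) - (c' - k + exc H x C f) / ((c' - c) * s)) := by
        intro f hf
        obtain ⟨h4, h5, h6⟩ := hX f hf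
        apply mul_le_mul_of_nonneg_left _ (hx0 f hf)
        have h7 := hexcl f hf
        exact term_B hc hcc hc2 hs0 hsc (hexc0 f hf) hkc h4 h6.le (by linarith) h1
      refine (sum_le_sum h3).trans ?_
      have h4 : ∑ f ∈ C, x f * ((c + s) / (c * s) - (c' - k + exc H x C f) / ((c' - c) * s)) =
          s * ((c + s) / (c * s)) - (s * (c' - k) + s * D) / ((c' - c) * s) := by
        have h5 : ∀ f ∈ C, x f * ((c + s) / (c * s) - (c' - k + exc H x C f) / ((c' - c) * s)) =
            x f * ((c + s) / (c * s)) -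
              (x f * (c' - k) + x f * exc H x C f) / ((c' - c) * s) := by
          intro f _
          ring
        rw [sum_congr rfl h5, sum_sub_distrib, ← sum_mul, ← sum_div, sum_add_distrib,
          ← sum_mul, hsD]
      rw [h4]
      have h5 : s * ((c + s) / (c * s)) - (s * (c' - k) + s * D) / ((c' - c) * s) =
          1 + ((c' - c) * s - c * (c' - k + D)) / (c * (c' - c)) := by
        field_simp
        ring
      rw [h5]
      have h6 : ((c' - c) * s - c * (c' - k + D)) / (c * (c' - c)) ≤ 0 :=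
        div_nonpos_of_nonpos_of_nonneg (by linarith) (mul_pos hc hg).le
      linarith
    · push Not at hA
      have hg : 0 < c' - c := by linarith
      have hck' : c < k := by linarith
      set M := 2 * c * (k - c) + (2 * c - c') * (c - s) with hM
      set T := (2 * c - c') * s + 2 * c * (c' - k) with hT
      have hT0 : 0 < T := by
        have : 0 ≤ (2 * c - c') * s := mul_nonneg (by linarith) hs0.le
        have : 0 < 2 * c * (c' - k) := mul_pos (by linarith) (by linarith)
        linarith
      have h3 : ∀ f ∈ C, x f * (c' / ((2 * c - c') * X f + 2 * c * (c' - k + exc H x C f))) ≤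
          x f * ((c' * c * (k - c) - M * exc H x C f) / (c * T * (k - c))) := by
        intro f hf
        obtain ⟨h4, h5, h6⟩ := hX f hf
        apply mul_le_mul_of_nonneg_left _ (hx0 f hf)
        exact term_C hc hcc hc2 hs0 hsc (hexc0 f hf) hkc hck' h4 h6.le (hexcl f hf).le hA.le h1
      refine (sum_le_sum h3).trans ?_
      have h4 : ∑ f ∈ C, x f * ((c' * c * (k - c) - M * exc H x C f) / (c * T * (k - c))) =
          (s * (c' * c * (k - c)) - M * (s * D)) / (c * T * (k - c)) := by
        have h5 : ∀ f ∈ C, x f * ((c' * c * (k - c) - M * exc H x C f) / (c * T * (k - c))) =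
            (x f * (c' * c * (k - c)) - M * (x f * exc H x C f)) / (c * T * (k - c)) := by
          intro f _
          ring
        rw [sum_congr rfl h5, ← sum_div, sum_sub_distrib, ← sum_mul, ← mul_sum, hsD]
      rw [h4, div_le_one (mul_pos (mul_pos hc hT0) hl)]
      have h5 : s * (c' * c * (k - c)) - M * (s * D) - c * T * (k - c) =
          2 * (k - c) * c * ((c' - c) * s - c * (c' - k)) - D * s * M := by
        rw [hT]; ring
      linarith

end H4.FKS
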