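import Mathlib
import Pool.Agent.H4.FKS.Real

/-!
# From realisable demands to fractional edge colourings
-/

set_option autoImplicit false
set_option linter.unusedSectionVars false
set_option linter.unusedVariables false

namespace H4.FKS

open Finset

/-- If every nonnegative vector with vertex sums at most one can be realised after division by
`g |e|`, then there is a fractional edge colouring of total weight at most
`max_v ∑_{e ∋ v} g |e|`. -/
theorem coloring_of_real {V E : Type} [Fintype V] [DecidableEq V] [Fintype E] [DecidableEq E]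
    (H : E → Finset V) (hne : ∀ e, (H e).Nonempty) {g : ℕ → ℝ} (hg : ∀ e, 0 < g (H e).card)
    (hreal : ∀ x : E → ℝ, (∀ e, 0 ≤ x e) → (∀ v, ∑ f with v ∈ H f, x f ≤ 1) →
      Real (fun e f => ¬ Disjoint (H e) (H f)) univ (fun e => x e / g (H e).card)) :
    ∃ w : Finset E → ℝ, (∀ M, 0 ≤ w M) ∧
      (∀ M, w M ≠ 0 → ∀ e ∈ M, ∀ f ∈ M, e ≠ f → Disjoint (H e) (H f)) ∧
      (∀ e, 1 ≤ ∑ M with e ∈ M, w M) ∧
      ∑ M, w M ≤ ⨆ v : V, ∑ e with v ∈ H e, g (H e).card := by
  rcases isEmpty_or_nonempty E with hE | hE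
  · refine ⟨0, by simp, by simp, fun e => (hE.false e).elim, ?_⟩
    simp
  · set D : ℝ := ⨆ v : V, ∑ e with v ∈ H e, g (H e).card with hD
    have hle : ∀ v : V, ∑ e with v ∈ H e, g (H e).card ≤ D := fun v =>
      le_ciSup (f := fun v : V => ∑ e with v ∈ H e, g (H e).card)
        (Set.finite_range _).bddAbove v
    have hD0 : 0 < D := by
      obtain ⟨e0⟩ := hE
      obtain ⟨v, hv⟩ := hne e0
      refine lt_of_lt_of_le ?_ (hle v)
      exact sum_pos (fun e _ => hg e) ⟨e0, by simp [hv]⟩
    obtain ⟨p, hp0, hps, hp1, hpe⟩ := hreal (fun e => g (H e).card / D)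
      (fun e => (div_pos (hg e) hD0).le) (fun v => by
        rw [← sum_div, div_le_one hD0]
        exact hle v)
    refine ⟨fun M => D * p M, fun M => mul_nonneg hD0.le (hp0 M), ?_, ?_, ?_⟩
    · intro M hM e he f hf hef
      have h1 := (hps M (right_ne_zero_of_mul hM)).1 e he f hf hef
      exact not_not.1 h1
    · intro e
      rw [← mul_sum, hpe e (mem_univ e)]
      have := hg e
      refine le_of_eq ?_
      field_simp
    · rw [← mul_sum, hp1, mul_one]

end H4.FKS
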