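import Mathlib
import Pool.Agent.H34.FKS.StepDefs
import Pool.Agent.H84.FKS.Ext
import Pool.Agent.H4.FKS.Final

/-!
# Assembly: from level two to the Füredi-Kahn-Seymour bound
-/

set_option autoImplicit false
set_option linter.unusedSectionVars false
set_option linter.unusedVariables false

namespace H4.FKS

open Finset H34.FKS H84.FKS

theorem one_le_ck {k : ℕ} (hk : 1 ≤ k) : 1 ≤ ck k := by
  have h1 := ck_mono le_rfl hk
  refine le_trans (le_of_eq ?_) h1
  unfold ck
  norm_num

/-- The empty level. -/
theorem lvl_top {V E : Type} [Fintype V] [DecidableEq V] [DecidableEq E] [Fintype E]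
    (H : E → Finset V) (x κ : E → ℝ) {k : ℕ} (hk : ∀ e, (H e).card < k) : Lvl H x κ k := by
  intro R hR
  have : R = ∅ := by
    rw [eq_empty_iff_forall_notMem]
    intro e he
    have := hR e he
    have := hk e
    omega
  subst this
  exact real_empty _ _

/-- Level two implies that all edges can be served. -/
theorem real_of_lvl_two {V E : Type} [Fintype V] [DecidableEq V] [DecidableEq E] [Fintype E]
    {H : E → Finset V} (hne : ∀ e, (H e).Nonempty) {x : E → ℝ} (hx : ∀ e, 0 ≤ x e)
    (hdeg : ∀ v, ∑ f with v ∈ H f, x f ≤ 1) (h2 : Lvl H x (fun _ => 0) 2) (R : Finset E) :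
    Real (fun e f => ¬ Disjoint (H e) (H f)) R (fun e => x e / ck (H e).card) := by
  classical
  have hcard : ∀ e, 1 ≤ (H e).card := fun e => card_pos.2 (hne e)
  have hck : ∀ e, 0 < ck (H e).card := fun e => ck_pos (hcard e)
  apply real_reduce (r := fun e f => ¬ Disjoint (H e) (H f)) (P := fun _ => True)
    (fun a h => by
      rw [disjoint_self] at h
      exact (hne a).ne_empty h)
    (fun a b h h' => h (disjoint_comm.1 h')) (fun e => div_nonneg (hx e) (hck e).le) _ R
    (fun _ _ => trivial)
  intro R _ hR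
  have hsize : ∀ e ∈ R, 2 ≤ (H e).card := by
    intro e he
    by_contra hlt
    have h1 : (H e).card = 1 := by have := hcard e; omega
    obtain ⟨v, hv⟩ := card_eq_one.1 h1
    have h3 := hR e he
    have h4 : ∑ f ∈ R with ¬ Disjoint (H e) (H f), x f / ck (H f).card ≤ 1 := by
      calc ∑ f ∈ R with ¬ Disjoint (H e) (H f), x f / ck (H f).card
          ≤ ∑ f with v ∈ H f, x f / ck (H f).card := by
            apply sum_le_sum_of_subset_of_nonneg
            · intro f hf
              have h5 := (mem_filter.1 hf).2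
              rw [hv, disjoint_singleton_left, not_not] at h5
              exact mem_filter.2 ⟨mem_univ _, h5⟩
            · exact fun f _ _ => div_nonneg (hx f) (hck f).le
        _ ≤ ∑ f with v ∈ H f, x f := by
            apply sum_le_sum
            intro f _
            exact div_le_self (hx f) (one_le_ck (hcard f))
        _ ≤ 1 := hdeg v
    linarith
  refine real_congr (h2 R hsize) ?_
  intro e _
  unfold dem
  split_ifs with h
  · rw [h]; ring
  · rfl

/-- **Assembly.** If level two holds for all fractional matchings with distinct representatives,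
then the Füredi-Kahn-Seymour bound holds. -/
theorem fks_of_lvl_two {V E : Type} [Fintype V] [DecidableEq V] [Fintype E] [DecidableEq E]
    (H : E → Finset V) (hne : ∀ e, (H e).Nonempty)
    (h2 : ∀ x : E → ℝ, (∀ e, 0 ≤ x e) → (∀ v, ∑ f with v ∈ H f, x f ≤ 1) → HasSDR H x →
      Lvl H x (fun _ => 0) 2) :
    ∃ w : Finset E → ℝ, (∀ M, 0 ≤ w M) ∧
      (∀ M, w M ≠ 0 → ∀ e ∈ M, ∀ f ∈ M, e ≠ f → Disjoint (H e) (H f)) ∧
      (∀ e, 1 ≤ ∑ M with e ∈ M, w M) ∧
      ∑ M, w M ≤ ⨆ v : V, ∑ e with v ∈ H e, (((H e).card : ℝ) - 1 + 1 / ((H e).card : ℝ)) := by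
  have hcard : ∀ e, 1 ≤ (H e).card := fun e => card_pos.2 (hne e)
  exact coloring_of_real H hne (g := ck) (fun e => ck_pos (hcard e))
    (fun x hx hdeg => real_of_sdr H hne ck
      (fun x hx hdeg hsdr => real_of_lvl_two hne hx hdeg (h2 x hx hdeg hsdr) univ) x hx hdeg)

end H4.FKS
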