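import Mathlib
import Pool.Agent.H4.FKS.Envelope

/-!
# Cliques of edges of size one and two
-/

set_option autoImplicit false
set_option linter.unusedSectionVars false
set_option linter.unusedVariables false

namespace H4.FKS

open Finset

section
variable {V E : Type} [DecidableEq V] [DecidableEq E]

/-- An intersecting family of 2-sets without a common vertex. -/
theorem two_uniform' (H : E → Finset V) (x : E → ℝ) (C : Finset E)
    (hk : ∀ f ∈ C, (H f).card = 2) (hx : ∀ f ∈ C, 0 ≤ x f)
    (hint : ∀ f ∈ C, ∀ g ∈ C, ¬ Disjoint (H f) (H g)) (hstar : ¬ ∃ v, ∀ f ∈ C, v ∈ H f) :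
    (∑ f ∈ C, x f) ^ 2 ≤ 3 * ∑ f ∈ C, x f * exc H x C f := by
  push Not at hstar
  have hCne : C.Nonempty ∨ C = ∅ := by
    rcases C.eq_empty_or_nonempty with h | h
    · exact Or.inr h
    · exact Or.inl h
  rcases hCne with hCne | hCne
  swap
  · subst hCne
    simp
  obtain ⟨f0, hf0⟩ := hCne
  obtain ⟨a, b, hab, h0⟩ := card_eq_two.1 (hk f0 hf0)
  obtain ⟨f1, hf1, ha1⟩ := hstar a
  have hmeet : ∀ f ∈ C, ∀ g ∈ C, ∃ v, v ∈ H f ∧ v ∈ H g := fun f hf g hg =>
    not_disjoint_iff.1 (hint f hf g hg)
  have hb1 : b ∈ H f1 := by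
    obtain ⟨v, hv, hv'⟩ := hmeet f0 hf0 f1 hf1
    rw [h0, mem_insert, mem_singleton] at hv
    rcases hv with rfl | rfl
    · exact absurd hv' ha1
    · exact hv'
  obtain ⟨c, hcb, h1⟩ : ∃ c, c ≠ b ∧ H f1 = {b, c} := by
    obtain ⟨p, q, hpq, h⟩ := card_eq_two.1 (hk f1 hf1)
    rw [h, mem_insert, mem_singleton] at hb1
    rcases hb1 with rfl | rfl
    · exact ⟨q, hpq.symm, h⟩
    · exact ⟨p, hpq, by rw [h, pair_comm]⟩
  have hca : c ≠ a := by
    rintro rfl
    apply ha1
    rw [h1]; simp
  obtain ⟨f2, hf2, hb2⟩ := hstar b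
  have ha2 : a ∈ H f2 := by
    obtain ⟨v, hv, hv'⟩ := hmeet f0 hf0 f2 hf2
    rw [h0, mem_insert, mem_singleton] at hv
    rcases hv with rfl | rfl
    · exact hv'
    · exact absurd hv' hb2
  have hc2 : c ∈ H f2 := by
    obtain ⟨v, hv, hv'⟩ := hmeet f1 hf1 f2 hf2
    rw [h1, mem_insert, mem_singleton] at hv
    rcases hv with rfl | rfl
    · exact absurd hv' hb2
    · exact hv'
  have h2 : H f2 = {a, c} := by
    symm
    apply eq_of_subset_of_card_le
    · intro v hv
      rw [mem_insert, mem_singleton] at hv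
      rcases hv with rfl | rfl
      · exact ha2
      · exact hc2
    · rw [hk f2 hf2, card_pair hca.symm]
  -- classification
  have hclass : ∀ g ∈ C, H g = {a, b} ∨ H g = {b, c} ∨ H g = {a, c} := by
    intro g hg
    obtain ⟨p, hp, hp'⟩ := hmeet f0 hf0 g hg
    obtain ⟨q, hq, hq'⟩ := hmeet f1 hf1 g hg
    obtain ⟨r, hr, hr'⟩ := hmeet f2 hf2 g hg
    rw [h0, mem_insert, mem_singleton] at hp
    rw [h1, mem_insert, mem_singleton] at hq
    rw [h2, mem_insert, mem_singleton] at hr
    have key : ∀ u v : V, u ≠ v → u ∈ H g → v ∈ H g → H g = {u, v} := by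
      intro u v huv hu hv
      symm
      apply eq_of_subset_of_card_le
      · intro w hw
        rw [mem_insert, mem_singleton] at hw
        rcases hw with rfl | rfl
        · exact hu
        · exact hv
      · rw [hk g hg, card_pair huv]
    rcases hp with rfl | rfl
    · rcases hq with rfl | rfl
      · exact Or.inl (key _ _ hab hp' hq')
      · exact Or.inr (Or.inr (key _ _ hca.symm hp' hq'))
    · rcases hr with rfl | rfl
      · exact Or.inl (key _ _ hab hr' hp')
      · exact Or.inr (Or.inl (key _ _ hcb.symm hp' hr'))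
  -- class weights
  set m : Finset V → ℝ := fun P => ∑ f ∈ C with H f = P, x f with hm
  have hne1 : ({a, b} : Finset V) ≠ {b, c} := by
    intro h
    have : a ∈ ({b, c} : Finset V) := by rw [← h]; simp
    rw [mem_insert, mem_singleton] at this
    rcases this with h | h
    · exact hab h
    · exact hca h.symm
  have hne2 : ({a, b} : Finset V) ≠ {a, c} := by
    intro h
    have : b ∈ ({a, c} : Finset V) := by rw [← h]; simp
    rw [mem_insert, mem_singleton] at this
    rcases this with h | h
    · exact hab h.symm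
    · exact hcb h.symm
  have hne3 : ({b, c} : Finset V) ≠ {a, c} := by
    intro h
    have : b ∈ ({a, c} : Finset V) := by rw [← h]; simp
    rw [mem_insert, mem_singleton] at this
    rcases this with h | h
    · exact hab h.symm
    · exact hcb h.symm
  have hsplit : ∀ φ : E → ℝ, ∑ f ∈ C, φ f = ∑ f ∈ C with H f = {a, b}, φ f +
      ∑ f ∈ C with H f = {b, c}, φ f + ∑ f ∈ C with H f = {a, c}, φ f := by
    intro φ
    simp_rw [sum_filter]
    rw [← sum_add_distrib, ← sum_add_distrib]
    refine sum_congr rfl fun g hg => ?_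
    rcases hclass g hg with h | h | h
    · rw [if_pos h, if_neg (by rw [h]; exact hne1), if_neg (by rw [h]; exact hne2)]
      ring
    · rw [if_neg (by rw [h]; exact hne1.symm), if_pos h, if_neg (by rw [h]; exact hne3)]
      ring
    · rw [if_neg (by rw [h]; exact hne2.symm), if_neg (by rw [h]; exact hne3.symm), if_pos h]
      ring
  have hexc : ∀ f ∈ C, m (H f) ≤ exc H x C f := by
    intro f hf
    simp only [hm]
    unfold exc
    rw [sum_filter]
    refine sum_le_sum fun g hg => ?_
    have h3 : (1 : ℝ) ≤ ((H f ∩ H g).card : ℝ) := by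
      have : 0 < (H f ∩ H g).card := by
        rw [card_pos]
        exact not_disjoint_iff_nonempty_inter.1 (hint f hf g hg)
      exact_mod_cast this
    have hxg := hx g hg
    split_ifs with h
    · rw [h, inter_self, hk f hf]
      norm_num
    · exact mul_nonneg hxg (by linarith)
  have hsum : ∀ P : Finset V, ∑ f ∈ C with H f = P, x f * m (H f) = m P ^ 2 := by
    intro P
    have h3 : ∀ f ∈ C.filter (fun f => H f = P), x f * m (H f) = x f * m P := by
      intro f hf
      rw [(mem_filter.1 hf).2]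
    rw [sum_congr rfl h3, ← sum_mul, pow_two]
  have hlow : m {a, b} ^ 2 + m {b, c} ^ 2 + m {a, c} ^ 2 ≤ ∑ f ∈ C, x f * exc H x C f := by
    rw [← hsum, ← hsum, ← hsum, ← hsplit (fun f => x f * m (H f))]
    exact sum_le_sum fun f hf => mul_le_mul_of_nonneg_left (hexc f hf) (hx f hf)
  have hs' : m {a, b} + m {b, c} + m {a, c} = ∑ f ∈ C, x f := by
    rw [hsplit x]
  rw [← hs']
  nlinarith [sq_nonneg (m {a, b} - m {b, c}), sq_nonneg (m {a, b} - m {a, c}),
      sq_nonneg (m {b, c} - m {a, c})]

/-- An intersecting family of 2-sets is a star or its mean excess is at least `s / 3`. -/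
theorem two_uniform (H : E → Finset V) (x : E → ℝ) (C : Finset E)
    (hk : ∀ f ∈ C, (H f).card = 2) (hx : ∀ f ∈ C, 0 ≤ x f)
    (hint : ∀ f ∈ C, ∀ g ∈ C, ¬ Disjoint (H f) (H g)) (hd : ∀ v, dg H x C v ≤ 1)
    {s D : ℝ} (hs0 : 0 < s) (hs : ∑ f ∈ C, x f = s)
    (hD : ∑ f ∈ C, x f * exc H x C f = s * D) : s ≤ 1 ∨ s ≤ 3 * D := by
  by_cases hstar : ∃ v, ∀ f ∈ C, v ∈ H f
  · left
    obtain ⟨v, hv⟩ := hstar
    have h1 := hd v
    unfold dg at h1
    rw [filter_true_of_mem hv, hs] at h1
    exact h1
  · right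
    have h := two_uniform' H x C hk hx hint hstar
    rw [hs, hD] at h
    have h3 : s * s ≤ s * (3 * D) := by linarith [sq s]
    exact le_of_mul_le_mul_left h3 hs0

end

/-- Size one: nothing to prove. -/
theorem cliqueOK_one {c' : ℝ} (h1 : 1 < c') (h2 : c' ≤ 2) : CliqueOK 1 1 c' := by
  apply cliqueOK_of one_pos h1 (by linarith) (by simpa using h1) (by simp)
  intro V E _ _ _ H x C s D hk hx hint hd hs hD hs0 hD0 hsD hexc hDl hsk
  simp at hDl
  linarith

/-- Size two with the coefficients `8/5` and `8/3`. -/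
theorem cliqueOK_two_A : CliqueOK 2 (8 / 5) (8 / 3) := by
  apply cliqueOK_of (by norm_num) (by norm_num) (by norm_num) (by norm_num) (by norm_num)
  intro V E _ _ _ H x C s D hk hx hint hd hs hD hs0 hD0 hsD hexc hDl hsk
  push_cast at hDl
  rcases two_uniform H x C hk (fun f hf => (hx f hf).le) hint hd hs0 hs hD with h | h
  · refine ⟨by linarith, Or.inl ?_⟩
    push_cast
    linarith
  · refine ⟨by linarith, ?_⟩
    rcases le_or_gt s 1 with h1 | h1
    · left
      push_cast
      linarith
    · right; right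
      push_cast
      refine ⟨by linarith, ?_⟩
      have h2 : s * s * (32 / 25 + 8 / 15 * (8 / 5 - s)) ≤
          3 * D * s * (32 / 25 + 8 / 15 * (8 / 5 - s)) := by
        apply mul_le_mul_of_nonneg_right _ (by linarith)
        exact mul_le_mul_of_nonneg_right h hs0.le
      nlinarith [mul_pos hs0 hs0]

/-- Size two with the coefficients `3/2` and `3`. -/
theorem cliqueOK_two_B : CliqueOK 2 (3 / 2) 3 := by
  apply cliqueOK_of (by norm_num) (by norm_num) (by norm_num) (by norm_num) (by norm_num)
  intro V E _ _ _ H x C s D hk hx hint hd hs hD hs0 hD0 hsD hexc hDl hsk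
  push_cast at hDl
  rcases two_uniform H x C hk (fun f hf => (hx f hf).le) hint hd hs0 hs hD with h | h
  · refine ⟨by linarith, Or.inl ?_⟩
    push_cast
    linarith
  · refine ⟨by linarith, ?_⟩
    rcases le_or_gt s 1 with h1 | h1
    · left
      push_cast
      linarith
    · right; right
      push_cast
      refine ⟨by linarith, ?_⟩
      have h2 : s * s ≤ 3 * D * s := mul_le_mul_of_nonneg_right h hs0.le
      nlinarith

end H4.FKS
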