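import Mathlib
import Pool.Agent.H4.FKS.KTwo

/-!
# Uniform intersecting families: a dichotomy and the clique inequality
-/

set_option autoImplicit false
set_option linter.unusedSectionVars false
set_option linter.unusedVariables false

namespace H4.FKS

open Finset

section
variable {V E : Type} [Fintype V] [DecidableEq V] [DecidableEq E]
variable (H : E → Finset V) (x : E → ℝ) (C : Finset E)

/-- Energy at a vertex. -/
noncomputable def en (v : V) : ℝ := ∑ w, cdg H x C v w ^ 2 - dg H x C v ^ 2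

theorem sum_dg_sq {L : ℝ} (hL : ∑ f ∈ C, x f = L) :
    ∑ v, dg H x C v ^ 2 = L ^ 2 + ∑ f ∈ C, x f * exc H x C f := by
  have h1 : ∀ v, dg H x C v ^ 2 = dg H x C v * dg H x C v := fun v => by ring
  simp_rw [h1]
  rw [sum_dg]
  have h2 : ∀ f ∈ C, x f * ∑ v ∈ H f, dg H x C v = x f * L + x f * exc H x C f := by
    intro f _
    rw [sum_dg_edge, hL]
    ring
  rw [sum_congr rfl h2, sum_add_distrib, ← sum_mul, hL]
  ring

/-- The energy at `v` is at most the excess of the edges at `v`. -/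
theorem en_le (hx : ∀ f ∈ C, 0 ≤ x f) (hint : ∀ f ∈ C, ∀ g ∈ C, ¬ Disjoint (H f) (H g)) (v : V) :
    en H x C v ≤ ∑ f ∈ C with v ∈ H f, x f * exc H x C f := by
  unfold en
  rw [sum_cdg_sq]
  refine sum_le_sum fun f hf => ?_
  have hf' := (mem_filter.1 hf).1
  unfold exc
  rw [mul_sum]
  have h1 : ∀ g ∈ C, 0 ≤ x f * (x g * (((H f ∩ H g).card : ℝ) - 1)) := by
    intro g hg
    have h2 : (1 : ℝ) ≤ ((H f ∩ H g).card : ℝ) := by
      have := card_pos.2 (not_disjoint_iff_nonempty_inter.1 (hint f hf' g hg))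
      exact_mod_cast this
    exact mul_nonneg (hx f hf') (mul_nonneg (hx g hg) (by linarith))
  calc ∑ g ∈ C with v ∈ H g, x f * x g * (((H f ∩ H g).card : ℝ) - 1)
      = ∑ g ∈ C with v ∈ H g, x f * (x g * (((H f ∩ H g).card : ℝ) - 1)) := by
        refine sum_congr rfl fun g _ => by ring
    _ ≤ _ := sum_le_sum_of_subset_of_nonneg (filter_subset _ _) fun g hg _ => h1 g hg

/-- Total energy. -/
theorem sum_en_le {k : ℕ} (hk : ∀ f ∈ C, (H f).card = k) (hx : ∀ f ∈ C, 0 ≤ x f)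
    (hint : ∀ f ∈ C, ∀ g ∈ C, ¬ Disjoint (H f) (H g)) {L : ℝ} (hL : ∑ f ∈ C, x f = L) :
    ∑ v, en H x C v ≤ k * (∑ v, dg H x C v ^ 2 - L ^ 2) := by
  rw [sum_dg_sq H x C hL]
  have h1 : ∑ v, en H x C v ≤ ∑ v, ∑ f ∈ C with v ∈ H f, x f * exc H x C f :=
    sum_le_sum fun v _ => en_le H x C hx hint v
  refine h1.trans (le_of_eq ?_)
  simp_rw [sum_filter]
  rw [sum_comm]
  have h2 : ∀ f ∈ C, (∑ v, if v ∈ H f then x f * exc H x C f else 0) =
      k * (x f * exc H x C f) := by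
    intro f hf
    rw [← sum_filter, sum_const, nsmul_eq_mul]
    have h4 : (univ : Finset V).filter (fun v => v ∈ H f) = H f := by
      ext v; simp
    rw [h4, hk f hf]
  rw [sum_congr rfl h2, ← mul_sum]
  ring

/-- Squares at the vertex `v`. -/
theorem en_sq (hx : ∀ f ∈ C, 0 ≤ x f) (hint : ∀ f ∈ C, ∀ g ∈ C, ¬ Disjoint (H f) (H g))
    {L : ℝ} (hL : ∑ f ∈ C, x f = L) (v : V) {t : ℝ} (ht : 0 ≤ t) :
    2 * t * (en H x C v + dg H x C v * (L - dg H x C v)) -
      t ^ 2 * (∑ w, dg H x C w ^ 2 - dg H x C v ^ 2) ≤ en H x C v := by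
  have h1 : 0 ≤ ∑ w ∈ univ.erase v, (cdg H x C v w - t * dg H x C w) ^ 2 :=
    sum_nonneg fun w _ => sq_nonneg _
  have h2 : ∑ w ∈ univ.erase v, (cdg H x C v w - t * dg H x C w) ^ 2 =
      ∑ w, (cdg H x C v w - t * dg H x C w) ^ 2 - (cdg H x C v v - t * dg H x C v) ^ 2 := by
    rw [← add_sum_erase univ _ (mem_univ v)]
    ring
  have h3 : ∑ w, (cdg H x C v w - t * dg H x C w) ^ 2 =
      ∑ w, cdg H x C v w ^ 2 - 2 * t * ∑ w, cdg H x C v w * dg H x C w +
        t ^ 2 * ∑ w, dg H x C w ^ 2 := by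
    rw [mul_sum, mul_sum, ← sum_sub_distrib, ← sum_add_distrib]
    refine sum_congr rfl fun w _ => ?_
    ring
  have h4 : ∑ w, cdg H x C v w * dg H x C w = dg H x C v * L +
      ∑ f ∈ C with v ∈ H f, x f * exc H x C f := by
    rw [sum_cdg]
    have h5 : ∀ f ∈ C.filter (fun f => v ∈ H f), x f * ∑ w ∈ H f, dg H x C w =
        x f * L + x f * exc H x C f := by
      intro f _
      rw [sum_dg_edge, hL]
      ring
    rw [sum_congr rfl h5, sum_add_distrib, ← sum_mul]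
    rfl
  have h6 := en_le H x C hx hint v
  rw [h2, h3, cdg_self, h4] at h1
  have h7 : 2 * t * (en H x C v) ≤ 2 * t * ∑ f ∈ C with v ∈ H f, x f * exc H x C f :=
    mul_le_mul_of_nonneg_left h6 (by linarith)
  have h8 : en H x C v = ∑ w, cdg H x C v w ^ 2 - dg H x C v ^ 2 := rfl
  nlinarith

/-- A vertex of large degree forces a large sum of squares. -/
theorem dg_sq_ge (hx : ∀ f ∈ C, 0 ≤ x f) (hint : ∀ f ∈ C, ∀ g ∈ C, ¬ Disjoint (H f) (H g))
    {L : ℝ} (hL : ∑ f ∈ C, x f = L) (v : V) :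
    4 * L * dg H x C v - 3 * dg H x C v ^ 2 ≤ ∑ w, dg H x C w ^ 2 := by
  have h := en_sq H x C hx hint hL v (t := 1 / 2) (by norm_num)
  nlinarith

/-- The trace inequality for families without a dominating vertex. -/
theorem trace_hom {k : ℕ} (hk2 : 2 ≤ k) (hk : ∀ f ∈ C, (H f).card = k) (hx : ∀ f ∈ C, 0 ≤ x f)
    (hint : ∀ f ∈ C, ∀ g ∈ C, ¬ Disjoint (H f) (H g)) {L : ℝ} (hL : ∑ f ∈ C, x f = L)
    (hL0 : 0 < L)
    (hdom : ∀ v, 2 * (((k : ℝ) - 1 + 1 / k) / k) * dg H x C v < L) :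
    (k : ℝ) * L ^ 2 ≤ ((k : ℝ) - 1 + 1 / k) * ∑ v, dg H x C v ^ 2 := by
  have hk0 : (2 : ℝ) ≤ k := by exact_mod_cast hk2
  have hkp : (0 : ℝ) < k := by linarith
  set μ : ℝ := ((k : ℝ) - 1 + 1 / k) / k with hμ
  have hμk : μ * k = (k : ℝ) - 1 + 1 / k := by rw [hμ]; field_simp
  have hμ0 : 0 < μ := by
    have : 0 < 1 / (k : ℝ) := by positivity
    rw [hμ]
    apply div_pos _ hkp
    linarith
  have hμ1 : μ = 1 - 1 / k + (1 / (k : ℝ)) ^ 2 := by rw [hμ]; field_simp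
  set S := ∑ v, dg H x C v ^ 2 with hS
  rw [← hμk]
  by_contra hlt
  push Not at hlt
  have hlt' : μ * S < L ^ 2 := by
    have h1 : k * (μ * S) < k * L ^ 2 := by linarith
    exact lt_of_mul_lt_mul_left h1 hkp.le
  have hd0 : ∀ v, 0 ≤ dg H x C v := fun v => sum_nonneg fun f hf => hx f (mem_filter.1 hf).1
  have hkey : ∀ v, (1 - 1 / (k : ℝ)) * dg H x C v ^ 2 ≤ en H x C v := by
    intro v
    obtain ⟨φ, hφ⟩ : ∃ φ, φ = dg H x C v / L := ⟨_, rfl⟩
    have hdφ : dg H x C v = φ * L := by rw [hφ]; field_simp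
    have hφ0 : 0 ≤ φ := by rw [hφ]; exact div_nonneg (hd0 v) hL0.le
    have hφ1 : 2 * μ * φ < 1 := by
      have h1 := hdom v
      rw [hdφ] at h1
      have h2 : (2 * μ * φ) * L < 1 * L := by linarith
      exact lt_of_mul_lt_mul_right h2 hL0.le
    have h := en_sq H x C hx hint hL v (t := μ * φ) (mul_nonneg hμ0.le hφ0)
    rw [← hS, hdφ] at h
    rw [hdφ]
    have h3 : μ ^ 2 * φ ^ 2 * S ≤ μ * φ ^ 2 * L ^ 2 := by
      have h4 : μ * φ ^ 2 * (μ * S) ≤ μ * φ ^ 2 * L ^ 2 :=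
        mul_le_mul_of_nonneg_left hlt'.le (by positivity)
      linarith
    have h5 : (1 - 2 * μ * φ) * ((1 - 1 / (k : ℝ)) * (φ * L) ^ 2) ≤
        (1 - 2 * μ * φ) * en H x C v := by
      have h6 : (φ * L) ^ 2 * (μ - 2 * μ * φ + μ ^ 2 * φ ^ 2) ≤
          (1 - 2 * μ * φ) * en H x C v := by
        have h7 : (φ * L) ^ 2 * (μ - 2 * μ * φ + μ ^ 2 * φ ^ 2) =
            2 * (μ * φ) * (φ * L * (L - φ * L)) - μ * φ ^ 2 * L ^ 2 +
              (μ * φ) ^ 2 * (φ * L) ^ 2 := by ring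
        have h8 : 2 * (μ * φ) * (en H x C v + φ * L * (L - φ * L)) =
            2 * (μ * φ) * en H x C v + 2 * (μ * φ) * (φ * L * (L - φ * L)) := by ring
        have h9 : (μ * φ) ^ 2 * (S - (φ * L) ^ 2) =
            μ ^ 2 * φ ^ 2 * S - (μ * φ) ^ 2 * (φ * L) ^ 2 := by ring
        rw [h8, h9] at h
        rw [h7]
        linarith
      refine le_trans ?_ h6
      have h10 : (φ * L) ^ 2 * (μ - 2 * μ * φ + μ ^ 2 * φ ^ 2) =
          (1 - 2 * μ * φ) * ((1 - 1 / (k : ℝ)) * (φ * L) ^ 2) +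
            (φ * L) ^ 2 * (1 / (k : ℝ) - μ * φ) ^ 2 +
            (φ * L) ^ 2 * (μ - (1 - 1 / k + (1 / (k : ℝ)) ^ 2)) := by ring
      rw [h10, ← hμ1]
      have h11 : 0 ≤ (φ * L) ^ 2 * (1 / (k : ℝ) - μ * φ) ^ 2 := by positivity
      linarith
    exact le_of_mul_le_mul_left h5 (by linarith)
  have hsum : (1 - 1 / (k : ℝ)) * S ≤ k * (S - L ^ 2) := by
    have h1 := sum_en_le H x C hk hx hint hL
    rw [← hS] at h1
    refine le_trans ?_ h1
    rw [hS, mul_sum]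
    exact sum_le_sum fun v _ => hkey v
  have h2 : (μ * k) * S = k * S - (1 - 1 / (k : ℝ)) * S := by rw [hμk]; ring
  linarith

/-- The dichotomy. -/
theorem dichotomy {k : ℕ} (hk2 : 2 ≤ k) (hk : ∀ f ∈ C, (H f).card = k) (hx : ∀ f ∈ C, 0 ≤ x f)
    (hint : ∀ f ∈ C, ∀ g ∈ C, ¬ Disjoint (H f) (H g)) {L : ℝ} (hL : ∑ f ∈ C, x f = L)
    (hL0 : 0 < L) :
    (∃ v, L ≤ ((k : ℝ) - 1 + 1 / k) * dg H x C v ∧
      0 ≤ (L - dg H x C v) * (dg H x C v * (3 * k - 4) - k * L)) ∨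
    (k : ℝ) * L ^ 2 ≤ ((k : ℝ) - 1 + 1 / k) * ∑ v, dg H x C v ^ 2 := by
  have hd0 : ∀ v, 0 ≤ dg H x C v := fun v => sum_nonneg fun f hf => hx f (mem_filter.1 hf).1
  have hdL : ∀ v, dg H x C v ≤ L := by
    intro v
    rw [← hL]
    exact sum_le_sum_of_subset_of_nonneg (filter_subset _ _) fun f hf _ => hx f hf
  rcases hk2.eq_or_lt with hk' | hk'
  · -- k = 2
    subst hk'
    by_cases hstar : ∃ v, ∀ f ∈ C, v ∈ H f
    · left
      obtain ⟨v, hv⟩ := hstar
      have h1 : dg H x C v = L := by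
        unfold dg
        rw [filter_true_of_mem hv, hL]
      refine ⟨v, ?_, ?_⟩
      · rw [h1]; push_cast; linarith
      · rw [h1]; simp
    · right
      have h1 := two_uniform' H x C hk hx hint hstar
      rw [sum_dg_sq H x C hL]
      rw [hL] at h1
      push_cast
      linarith
  · have hk3 : (3 : ℝ) ≤ k := by exact_mod_cast hk'
    have hkp : (0 : ℝ) < k := by linarith
    by_cases hdom : ∀ v, 2 * (((k : ℝ) - 1 + 1 / k) / k) * dg H x C v < L
    · right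
      exact trace_hom H x C hk2 hk hx hint hL hL0 hdom
    · left
      push Not at hdom
      obtain ⟨v, hv⟩ := hdom
      have h1 : (k : ℝ) ^ 2 * L ≤ 2 * ((k : ℝ) ^ 2 - k + 1) * dg H x C v := by
        have h2 : 2 * (((k : ℝ) - 1 + 1 / k) / k) * dg H x C v =
            2 * ((k : ℝ) ^ 2 - k + 1) * dg H x C v / k ^ 2 := by
          field_simp
        rw [h2, le_div_iff₀ (by positivity)] at hv
        linarith
      have hψ := hd0 v
      refine ⟨v, ?_, ?_⟩
      · have h2 : ((k : ℝ) - 1 + 1 / k) * dg H x C v =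
            ((k : ℝ) ^ 2 - k + 1) * dg H x C v / k := by
          field_simp
        rw [h2, le_div_iff₀ hkp]
        have h3 : 0 ≤ ((k : ℝ) ^ 2 - k + 1) * dg H x C v := by
          apply mul_nonneg _ hψ; nlinarith
        nlinarith
      · apply mul_nonneg (by linarith [hdL v])
        have h3 : (k : ℝ) * (k * L) ≤ k * (dg H x C v * (3 * k - 4)) := by
          have h4 : 2 * ((k : ℝ) ^ 2 - k + 1) * dg H x C v ≤
              k * (3 * k - 4) * dg H x C v := by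
            apply mul_le_mul_of_nonneg_right _ hψ
            nlinarith
          nlinarith
        have h5 := le_of_mul_le_mul_left h3 hkp
        linarith

end

end H4.FKS
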