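import Mathlib
import Pool.Agent.H4.FKS.Uniform
import Pool.Agent.H4.FKS.Final

/-!
# The clique inequality for uniform families and the coefficient criterion
-/

set_option autoImplicit false
set_option linter.unusedSectionVars false
set_option linter.unusedVariables false

namespace H4.FKS

open Finset

section
variable {V E : Type} [Fintype V] [DecidableEq V] [DecidableEq E]

/-- `∑ λ t = ∑_v deg^2`. -/
theorem sum_mul_card (H : E → Finset V) (x : E → ℝ) (C : Finset E) :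
    ∑ e ∈ C, ∑ f ∈ C, x e * x f * ((H e ∩ H f).card : ℝ) = ∑ v, dg H x C v ^ 2 := by
  rw [sum_dg_sq H x C rfl, sq, sum_mul_sum, ← sum_add_distrib]
  refine sum_congr rfl fun e _ => ?_
  unfold exc
  rw [mul_sum, ← sum_add_distrib]
  refine sum_congr rfl fun f _ => ?_
  ring

/-- Symmetrisation. -/
theorem symmetrise (H : E → Finset V) (C : Finset E) {y m : E → ℝ} {ρ p : ℝ}
    (hy : ∀ e ∈ C, 0 < y e) (hm : ∀ e ∈ C, 0 < m e) (hp : 1 ≤ p)
    (hint : ∀ f ∈ C, ∀ g ∈ C, ¬ Disjoint (H f) (H g))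
    (hlb : ∀ e ∈ C, ρ + ∑ f ∈ C, y f * (p * ((H e ∩ H f).card : ℝ) - 1) ≤ m e) :
    ρ * ∑ e ∈ C, y e / m e / m e + p * ∑ v, dg H (fun e => y e / m e) C v ^ 2 ≤
      ∑ e ∈ C, y e / m e + (∑ e ∈ C, y e / m e) ^ 2 := by
  set l : E → ℝ := fun e => y e / m e with hl
  have hl0 : ∀ e ∈ C, 0 < l e := fun e he => div_pos (hy e he) (hm e he)
  have hyl : ∀ e ∈ C, y e = l e * m e := fun e he => by
    simp only [hl]; field_simp [(hm e he).ne']
  have h1 : ∑ e ∈ C, (l e / m e) * (ρ + ∑ f ∈ C, y f * (p * ((H e ∩ H f).card : ℝ) - 1)) ≤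
      ∑ e ∈ C, l e := by
    refine sum_le_sum fun e he => ?_
    have h2 := mul_le_mul_of_nonneg_left (hlb e he) (div_pos (hl0 e he) (hm e he)).le
    refine h2.trans (le_of_eq ?_)
    rw [div_mul_cancel₀ _ (hm e he).ne']
  have h2 : ∑ e ∈ C, (l e / m e) * (ρ + ∑ f ∈ C, y f * (p * ((H e ∩ H f).card : ℝ) - 1)) =
      ρ * ∑ e ∈ C, l e / m e + ∑ e ∈ C, ∑ f ∈ C,
        l e * l f * (m f / m e) * (p * ((H e ∩ H f).card : ℝ) - 1) := by
    rw [mul_sum, ← sum_add_distrib]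
    refine sum_congr rfl fun e he => ?_
    rw [mul_add, mul_sum]
    congr 1
    · ring
    · refine sum_congr rfl fun f hf => ?_
      rw [hyl f hf]
      ring
  have h3 : ∑ e ∈ C, ∑ f ∈ C, l e * l f * (p * ((H e ∩ H f).card : ℝ) - 1) ≤
      ∑ e ∈ C, ∑ f ∈ C, l e * l f * (m f / m e) * (p * ((H e ∩ H f).card : ℝ) - 1) := by
    have h4 : ∑ e ∈ C, ∑ f ∈ C, l e * l f * (m f / m e) * (p * ((H e ∩ H f).card : ℝ) - 1) =
        ∑ e ∈ C, ∑ f ∈ C, l e * l f * (m e / m f) * (p * ((H e ∩ H f).card : ℝ) - 1) := by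
      rw [sum_comm]
      refine sum_congr rfl fun e _ => sum_congr rfl fun f _ => ?_
      rw [inter_comm (H f) (H e)]
      ring
    have h5 : 2 * ∑ e ∈ C, ∑ f ∈ C, l e * l f * (p * ((H e ∩ H f).card : ℝ) - 1) ≤
        ∑ e ∈ C, ∑ f ∈ C, l e * l f * (m f / m e) * (p * ((H e ∩ H f).card : ℝ) - 1) +
        ∑ e ∈ C, ∑ f ∈ C, l e * l f * (m e / m f) * (p * ((H e ∩ H f).card : ℝ) - 1) := by
      rw [mul_sum, ← sum_add_distrib]
      refine sum_le_sum fun e he => ?_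
      rw [mul_sum, ← sum_add_distrib]
      refine sum_le_sum fun f hf => ?_
      have h6 : (1 : ℝ) ≤ ((H e ∩ H f).card : ℝ) := by
        have := card_pos.2 (not_disjoint_iff_nonempty_inter.1 (hint e he f hf))
        exact_mod_cast this
      have h7 : 0 ≤ l e * l f * (p * ((H e ∩ H f).card : ℝ) - 1) := by
        apply mul_nonneg (mul_pos (hl0 e he) (hl0 f hf)).le
        nlinarith
      have h8 : 2 ≤ m f / m e + m e / m f := by
        have ha := hm e he
        have hb := hm f hf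
        rw [div_add_div _ _ ha.ne' hb.ne', le_div_iff₀ (mul_pos ha hb)]
        nlinarith [sq_nonneg (m e - m f)]
      calc 2 * (l e * l f * (p * ((H e ∩ H f).card : ℝ) - 1))
          ≤ (m f / m e + m e / m f) * (l e * l f * (p * ((H e ∩ H f).card : ℝ) - 1)) :=
            mul_le_mul_of_nonneg_right h8 h7
        _ = _ := by ring
    linarith
  have h4 : ∑ e ∈ C, ∑ f ∈ C, l e * l f * (p * ((H e ∩ H f).card : ℝ) - 1) =
      p * ∑ v, dg H l C v ^ 2 - (∑ e ∈ C, l e) ^ 2 := by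
    rw [← sum_mul_card, sq, sum_mul_sum, mul_sum, ← sum_sub_distrib]
    refine sum_congr rfl fun e _ => ?_
    rw [mul_sum, ← sum_sub_distrib]
    refine sum_congr rfl fun f _ => ?_
    ring
  linarith

/-- The clique inequality for `k`-uniform intersecting families. -/
theorem clique_le_one {k : ℕ} (hk2 : 2 ≤ k) {p d : ℝ} (hpk : 2 * ((k : ℝ) - 1) ≤ p * k)
    (hp2 : p ≤ 2) (hd0 : 0 < d) (H : E → Finset V) (C : Finset E) {y m : E → ℝ}
    (hk : ∀ f ∈ C, (H f).card = k)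
    (hy : ∀ e ∈ C, 0 < y e) (hm : ∀ e ∈ C, 0 < m e)
    (hint : ∀ f ∈ C, ∀ g ∈ C, ¬ Disjoint (H f) (H g))
    (hdeg : ∀ v, dg H y C v ≤ d)
    (hlb : ∀ e ∈ C, (2 - p) * d +
      ∑ f ∈ C, y f * (p * ((H e ∩ H f).card : ℝ) - 1) ≤ m e) :
    ∑ e ∈ C, y e / m e ≤ 1 := by
  have hk0 : (2 : ℝ) ≤ k := by exact_mod_cast hk2
  have hkp : (0 : ℝ) < k := by linarith
  have hk1 : (0 : ℝ) < k - 1 := by linarith
  have hkinv : 0 < 1 / (k : ℝ) := by positivity
  set c : ℝ := (k : ℝ) - 1 + 1 / k with hc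
  have hc0 : 0 < c := by rw [hc]; linarith
  have hck : c * k = (k : ℝ) ^ 2 - k + 1 := by rw [hc]; field_simp
  have hp1 : 1 ≤ p := by
    by_contra h
    push Not at h
    nlinarith
  have hpc : 2 * c ≤ 2 - p + p * k := by
    have h1 : 2 * c * k ≤ (2 - p + p * k) * k := by
      have h2 : 2 * c * k = 2 * ((k : ℝ) ^ 2 - k + 1) := by rw [mul_assoc, hck]
      rw [h2]
      nlinarith [mul_le_mul_of_nonneg_right hpk hk1.le]
    exact le_of_mul_le_mul_right h1 hkp
  rcases C.eq_empty_or_nonempty with hCe | hCne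
  · subst hCe; simp
  by_contra hlt
  push Not at hlt
  set ρ : ℝ := (2 - p) * d with hρ
  have hρ0 : 0 ≤ ρ := mul_nonneg (by linarith) hd0.le
  set l : E → ℝ := fun e => y e / m e with hl
  set L := ∑ e ∈ C, y e / m e with hL
  have hl0 : ∀ e ∈ C, 0 < l e := fun e he => div_pos (hy e he) (hm e he)
  have hL0 : 0 < L := by linarith
  have hsym := symmetrise H C (ρ := ρ) (p := p) hy hm hp1 hint hlb
  rw [← hL] at hsym
  change ρ * ∑ e ∈ C, l e / m e + p * ∑ v, dg H l C v ^ 2 ≤ L + L ^ 2 at hsym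
  -- tangent inequality
  have htan : ∀ t : ℝ, ∀ e ∈ C, 2 * t * l e - t ^ 2 * y e ≤ l e / m e := by
    intro t e he
    have ha := hm e he
    have hb := hl0 e he
    have hyl : y e = l e * m e := by simp only [hl]; field_simp
    rw [hyl, le_div_iff₀ ha]
    nlinarith [mul_nonneg hb.le (sq_nonneg (t * m e - 1))]
  have hY : ∑ e ∈ C, y e ≤ c * d := by
    have hY0 : 0 < ∑ e ∈ C, y e := sum_pos hy hCne
    rcases dichotomy H y C hk2 hk (fun f hf => (hy f hf).le) hint rfl hY0 with ⟨v, hv, _⟩ | h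
    · exact hv.trans (mul_le_mul_of_nonneg_left (hdeg v) hc0.le)
    · have h1 : ∑ v, dg H y C v ^ 2 ≤ k * (∑ e ∈ C, y e) * d := by
        calc ∑ v, dg H y C v ^ 2 ≤ ∑ v, dg H y C v * d := by
              refine sum_le_sum fun v _ => ?_
              rw [sq]
              apply mul_le_mul_of_nonneg_left (hdeg v)
              exact sum_nonneg fun f hf => (hy f (mem_filter.1 hf).1).le
          _ = ∑ f ∈ C, y f * ∑ v ∈ H f, d := sum_dg H y C (fun _ => d)
          _ = k * (∑ e ∈ C, y e) * d := by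
              have : ∀ f ∈ C, y f * ∑ v ∈ H f, d = k * d * y f := by
                intro f hf
                rw [sum_const, nsmul_eq_mul, hk f hf]
                ring
              rw [sum_congr rfl this, ← mul_sum]
              ring
      have h2 : (k : ℝ) * (∑ e ∈ C, y e) ^ 2 ≤ c * (k * (∑ e ∈ C, y e) * d) :=
        h.trans (mul_le_mul_of_nonneg_left h1 hc0.le)
      have h3 : ((k : ℝ) * (∑ e ∈ C, y e)) * (∑ e ∈ C, y e) ≤
          ((k : ℝ) * (∑ e ∈ C, y e)) * (c * d) := by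
        calc ((k : ℝ) * (∑ e ∈ C, y e)) * (∑ e ∈ C, y e) = k * (∑ e ∈ C, y e) ^ 2 := by ring
          _ ≤ c * (k * (∑ e ∈ C, y e) * d) := h2
          _ = _ := by ring
      exact le_of_mul_le_mul_left h3 (mul_pos hkp hY0)
  rcases dichotomy H l C hk2 hk (fun f hf => (hl0 f hf).le) hint (L := L) rfl hL0 with
    ⟨v, hv, hv2⟩ | h
  · -- dominating vertex
    set ψ := dg H l C v with hψ
    have hψ0 : 0 ≤ ψ := sum_nonneg fun f hf => (hl0 f (mem_filter.1 hf).1).le
    have hψL : ψ ≤ L := by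
      rw [hψ, hL]
      exact sum_le_sum_of_subset_of_nonneg (filter_subset _ _) fun f hf _ => (hl0 f hf).le
    have h1 : ψ ^ 2 / d ≤ ∑ e ∈ C, l e / m e := by
      have h2 : ∑ e ∈ C with v ∈ H e, (2 * (ψ / d) * l e - (ψ / d) ^ 2 * y e) ≤
          ∑ e ∈ C, l e / m e := by
        refine (sum_le_sum fun e he => htan (ψ / d) e (mem_filter.1 he).1).trans ?_
        exact sum_le_sum_of_subset_of_nonneg (filter_subset _ _)
          fun f hf _ => (div_pos (hl0 f hf) (hm f hf)).le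
      refine le_trans ?_ h2
      rw [sum_sub_distrib, ← mul_sum, ← mul_sum]
      have h3 : ∑ e ∈ C with v ∈ H e, l e = ψ := rfl
      have h4 : ∑ e ∈ C with v ∈ H e, y e = dg H y C v := rfl
      rw [h3, h4]
      have h6 : (ψ / d) ^ 2 * dg H y C v ≤ (ψ / d) ^ 2 * d :=
        mul_le_mul_of_nonneg_left (hdeg v) (sq_nonneg _)
      have h7 : (ψ / d) ^ 2 * d = ψ ^ 2 / d := by field_simp
      have h8 : 2 * (ψ / d) * ψ = 2 * (ψ ^ 2 / d) := by ring
      rw [h8]
      linarith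
    have h2 := dg_sq_ge H l C (fun f hf => (hl0 f hf).le) hint (L := L) rfl v
    rw [← hψ] at h2
    have h3 : ρ * (ψ ^ 2 / d) ≤ ρ * ∑ e ∈ C, l e / m e := mul_le_mul_of_nonneg_left h1 hρ0
    have h31 : ρ * (ψ ^ 2 / d) = (2 - p) * ψ ^ 2 := by rw [hρ]; field_simp
    have h4 : p * (4 * L * ψ - 3 * ψ ^ 2) ≤ p * ∑ w, dg H l C w ^ 2 :=
      mul_le_mul_of_nonneg_left h2 (by linarith)
    have h5 : (2 - p) * ψ ^ 2 + p * (4 * L * ψ - 3 * ψ ^ 2) ≤ L + L ^ 2 := by linarith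
    have h7 : L + L ^ 2 < 2 * L ^ 2 := by nlinarith
    have h8 : 0 ≤ (L - ψ) * ((2 * p - 1) * ψ - L) := by
      rcases hψL.eq_or_lt with h9 | h9
      · rw [h9]; simp
      · have h10 : 0 ≤ ψ * (3 * k - 4) - k * L :=
          nonneg_of_mul_nonneg_right hv2 (by linarith : 0 < L - ψ)
        apply mul_nonneg (by linarith)
        have h11 : (3 * (k : ℝ) - 4) * ψ ≤ (k * (2 * p - 1)) * ψ :=
          mul_le_mul_of_nonneg_right (by linarith) hψ0
        have h14 : 0 ≤ k * ((2 * p - 1) * ψ - L) := by linarith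
        exact nonneg_of_mul_nonneg_right h14 hkp
    have h9 : 2 * ((L - ψ) * ((2 * p - 1) * ψ - L)) =
        (2 - p) * ψ ^ 2 + p * (4 * L * ψ - 3 * ψ ^ 2) - 2 * L ^ 2 := by ring
    linarith
  · -- trace case
    have hcd : 0 < c * d := mul_pos hc0 hd0
    have h1 : L ^ 2 / (c * d) ≤ ∑ e ∈ C, l e / m e := by
      have h2 : ∑ e ∈ C, (2 * (L / (c * d)) * l e - (L / (c * d)) ^ 2 * y e) ≤
          ∑ e ∈ C, l e / m e := sum_le_sum fun e he => htan (L / (c * d)) e he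
      refine le_trans ?_ h2
      rw [sum_sub_distrib, ← mul_sum, ← mul_sum]
      have h3 : ∑ e ∈ C, l e = L := rfl
      rw [h3]
      have h4 : (L / (c * d)) ^ 2 * ∑ e ∈ C, y e ≤ (L / (c * d)) ^ 2 * (c * d) :=
        mul_le_mul_of_nonneg_left hY (sq_nonneg _)
      have h5 : (L / (c * d)) ^ 2 * (c * d) = L ^ 2 / (c * d) := by field_simp
      have h6 : 2 * (L / (c * d)) * L = 2 * (L ^ 2 / (c * d)) := by ring
      rw [h6]
      linarith
    have h3 : ρ * (L ^ 2 / (c * d)) ≤ ρ * ∑ e ∈ C, l e / m e :=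
      mul_le_mul_of_nonneg_left h1 hρ0
    have h4 : p * (k * L ^ 2) ≤ p * (c * ∑ w, dg H l C w ^ 2) :=
      mul_le_mul_of_nonneg_left h (by linarith)
    have h5 : c * (ρ * (L ^ 2 / (c * d))) = (2 - p) * L ^ 2 := by rw [hρ]; field_simp
    have h6 : (2 - p) * L ^ 2 + p * k * L ^ 2 ≤ c * (L + L ^ 2) := by
      have h7 : c * (ρ * (L ^ 2 / (c * d)) + p * ∑ v, dg H l C v ^ 2) ≤ c * (L + L ^ 2) :=
        mul_le_mul_of_nonneg_left (by linarith) hc0.le
      nlinarith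
    have h7 : 2 * c * L ^ 2 ≤ (2 - p + p * k) * L ^ 2 :=
      mul_le_mul_of_nonneg_right hpc (sq_nonneg _)
    have h8 : c * (L + L ^ 2) < c * (2 * L ^ 2) := by
      apply mul_lt_mul_of_pos_left _ hc0
      nlinarith
    linarith

end

end H4.FKS
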