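import Mathlib
import Pool.Agent.H34.FKS.StepDefs

/-!
# The pseudoforest lemma for edges of size two
-/

set_option autoImplicit false
set_option linter.unusedSectionVars false
set_option linter.unusedVariables false

namespace H4.FKS

open Finset H34.FKS

variable {V E : Type} [Fintype V] [DecidableEq V] [DecidableEq E] [Fintype E]

/-- Double counting of incidences. -/
theorem sum_incid {H : E → Finset V} (R : Finset E) (w : E → V → ℝ) :
    ∑ v, ∑ f ∈ R with v ∈ H f, w f v = ∑ f ∈ R, ∑ v ∈ H f, w f v := by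
  classical
  simp_rw [sum_filter]
  rw [sum_comm]
  refine sum_congr rfl fun f _ => ?_
  rw [← sum_filter]
  congr 1
  ext v; simp

/-- **Pseudoforest lemma.** The 2-edges of `F` have distinct representatives. If the weights `z`
have degree sums at most one and `z e ≤ (x e / a u + x e / a w) / 3` for `H e = {u, w}`, where the
degree sums of `x` are at most `a`, then there is a random matching of `F` with marginals `z`. -/
theorem real_pseudo {H : E → Finset V} (hne : ∀ e, (H e).Nonempty) {F : Finset E}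
    (hF : ∀ e ∈ F, (H e).card = 2) {ρ : E → V} (hρ : ∀ e ∈ F, ρ e ∈ H e)
    (hinj : ∀ e ∈ F, ∀ f ∈ F, ρ e = ρ f → e = f) {x z : E → ℝ} {a : V → ℝ}
    (hx : ∀ e, 0 ≤ x e) (hz : ∀ e, 0 ≤ z e) (ha : ∀ v, ∑ f ∈ F with v ∈ H f, x f ≤ a v)
    (hdeg : ∀ v, ∑ f ∈ F with v ∈ H f, z f ≤ 1)
    (hcyc : ∀ e ∈ F, z e ≤ 1 / 3 * ∑ v ∈ H e, x e / a v) :
    Real (fun e f => ¬ Disjoint (H e) (H f)) F z := by
  classical
  apply real_reduce (r := fun e f => ¬ Disjoint (H e) (H f)) (P := fun e => e ∈ F)
    (fun a h => by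
      rw [disjoint_self] at h
      exact (hne a).ne_empty h)
    (fun a b h h' => h (disjoint_comm.1 h')) hz _ F (fun _ h => h)
  intro R hRF hR
  rcases R.eq_empty_or_nonempty with rfl | hRne
  · exact real_empty _ _
  exfalso
  set d : V → ℕ := fun v => (R.filter fun f => v ∈ H f).card with hd
  have hdegR : ∀ v, ∑ f ∈ R with v ∈ H f, z f ≤ 1 := by
    intro v
    refine le_trans ?_ (hdeg v)
    apply sum_le_sum_of_subset_of_nonneg
    · exact filter_subset_filter _ hRF
    · exact fun f _ _ => hz f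
  have haR : ∀ v, ∑ f ∈ R with v ∈ H f, x f ≤ a v := by
    intro v
    refine le_trans ?_ (ha v)
    apply sum_le_sum_of_subset_of_nonneg
    · exact filter_subset_filter _ hRF
    · exact fun f _ _ => hx f
  -- every vertex of `R` has degree at least two
  have hd2 : ∀ e ∈ R, ∀ v ∈ H e, 2 ≤ d v := by
    intro e he v hv
    by_contra hlt
    have hmem : e ∈ R.filter fun f => v ∈ H f := mem_filter.2 ⟨he, hv⟩
    have h1 : d v = 1 := by
      have := card_pos.2 ⟨e, hmem⟩
      have h3 : d v = (R.filter fun f => v ∈ H f).card := rfl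
      omega
    have huniq : ∀ f ∈ R, v ∈ H f → f = e := by
      intro f hf hvf
      obtain ⟨g, hg⟩ := card_eq_one.1 h1
      have h2 : f ∈ R.filter fun f => v ∈ H f := mem_filter.2 ⟨hf, hvf⟩
      rw [hg, mem_singleton] at h2 hmem
      rw [h2, hmem]
    -- the other end
    have h2 := hF e (hRF e he)
    obtain ⟨p, q, hpq, hpqe⟩ := card_eq_two.1 h2
    obtain ⟨u, huv, hue⟩ : ∃ u, u ∈ H e ∧ H e = {v, u} := by
      rw [hpqe] at hv ⊢
      rw [mem_insert, mem_singleton] at hv
      rcases hv with rfl | rfl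
      · exact ⟨q, by simp, rfl⟩
      · exact ⟨p, by simp, by rw [pair_comm]⟩
    have h3 : ∑ f ∈ R with ¬ Disjoint (H e) (H f), z f ≤ ∑ f ∈ R with u ∈ H f, z f := by
      apply sum_le_sum_of_subset_of_nonneg
      · intro f hf
        rw [mem_filter] at hf ⊢
        refine ⟨hf.1, ?_⟩
        obtain ⟨w, hw1, hw2⟩ := not_disjoint_iff.1 hf.2
        rw [hue, mem_insert, mem_singleton] at hw1
        rcases hw1 with rfl | rfl
        · rw [huniq f hf.1 hw2]; exact huv
        · exact hw2
      · exact fun f _ _ => hz f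
    have h4 := hR e he
    have h5 := hdegR u
    linarith
  set U : Finset V := R.biUnion H with hU
  have hmemU : ∀ v, v ∈ U ↔ ∃ e ∈ R, v ∈ H e := fun v => by rw [hU, mem_biUnion]
  have hUR : R.card ≤ U.card := by
    apply card_le_card_of_injOn ρ
    · intro e he
      exact (hmemU _).2 ⟨e, he, hρ e (hRF e he)⟩
    · intro e he f hf hef
      exact hinj e (hRF e he) f (hRF f hf) hef
  have hsumd : ∑ v ∈ U, d v = 2 * R.card := by
    have h1 : ∑ v ∈ U, d v = ∑ v, d v := by
      apply sum_subset (subset_univ _)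
      intro v _ hv
      rw [hd]
      simp only
      rw [card_eq_zero, filter_eq_empty_iff]
      intro f hf hvf
      exact hv ((hmemU v).2 ⟨f, hf, hvf⟩)
    have h2 : (∑ v, (d v : ℝ)) = 2 * (R.card : ℝ) := by
      have h3 : ∀ v, (d v : ℝ) = ∑ f ∈ R with v ∈ H f, (1 : ℝ) := by
        intro v
        rw [sum_const, nsmul_eq_mul, mul_one]
      simp_rw [h3]
      rw [sum_incid R (fun _ _ => (1 : ℝ))]
      have h4 : ∀ f ∈ R, ∑ v ∈ H f, (1 : ℝ) = 2 := by
        intro f hf
        rw [sum_const, nsmul_eq_mul, mul_one, hF f (hRF f hf)]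
        norm_num
      rw [sum_congr rfl h4, sum_const, nsmul_eq_mul, mul_comm]
    rw [h1]
    exact_mod_cast h2
  have hUd : ∀ v ∈ U, 2 ≤ d v := by
    intro v hv
    obtain ⟨e, he, hve⟩ := (hmemU v).1 hv
    exact hd2 e he v hve
  have hd22 : ∀ v ∈ U, d v = 2 := by
    intro v hv
    by_contra hne2
    have h3 : 2 < d v := lt_of_le_of_ne (hUd v hv) (Ne.symm hne2)
    have h4 : ∑ v ∈ U, 2 < ∑ v ∈ U, d v := sum_lt_sum (fun w hw => hUd w hw) ⟨v, hv, h3⟩
    rw [sum_const, smul_eq_mul, hsumd] at h4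
    omega
  have hUcard : U.card = R.card := by
    have h1 : ∑ v ∈ U, d v = ∑ v ∈ U, 2 := sum_congr rfl hd22
    rw [hsumd, sum_const, smul_eq_mul] at h1
    omega
  -- every edge meets at most three edges
  have hthree : ∀ f ∈ R, ((R.filter fun e => ¬ Disjoint (H e) (H f)).card : ℝ) ≤ 3 := by
    intro f hf
    obtain ⟨p, q, hpq, hpqf⟩ := card_eq_two.1 (hF f (hRF f hf))
    have h1 : (R.filter fun e => ¬ Disjoint (H e) (H f)) ⊆
        (R.filter fun e => p ∈ H e) ∪ (R.filter fun e => q ∈ H e) := by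
      intro e he
      rw [mem_filter] at he
      obtain ⟨w, hw1, hw2⟩ := not_disjoint_iff.1 he.2
      rw [hpqf, mem_insert, mem_singleton] at hw2
      rw [mem_union, mem_filter, mem_filter]
      rcases hw2 with rfl | rfl
      · exact Or.inl ⟨he.1, hw1⟩
      · exact Or.inr ⟨he.1, hw1⟩
    have hp : p ∈ U := (hmemU p).2 ⟨f, hf, by rw [hpqf]; simp⟩
    have hq : q ∈ U := (hmemU q).2 ⟨f, hf, by rw [hpqf]; simp⟩
    have h2 : ((R.filter fun e => p ∈ H e) ∪ (R.filter fun e => q ∈ H e)).card +
        ((R.filter fun e => p ∈ H e) ∩ (R.filter fun e => q ∈ H e)).card =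
        (R.filter fun e => p ∈ H e).card + (R.filter fun e => q ∈ H e).card :=
      card_union_add_card_inter _ _
    have h3 : 1 ≤ ((R.filter fun e => p ∈ H e) ∩ (R.filter fun e => q ∈ H e)).card := by
      rw [Nat.one_le_iff_ne_zero, Ne, card_eq_zero]
      intro h0
      have : f ∈ (R.filter fun e => p ∈ H e) ∩ (R.filter fun e => q ∈ H e) := by
        rw [mem_inter, mem_filter, mem_filter, hpqf]
        simp [hf]
      rw [h0] at this
      simp at this
    have h4 : (R.filter fun e => p ∈ H e).card = 2 := hd22 p hp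
    have h5 : (R.filter fun e => q ∈ H e).card = 2 := hd22 q hq
    have h6 := card_le_card h1
    have h7 : (R.filter fun e => ¬ Disjoint (H e) (H f)).card ≤ 3 := by omega
    exact_mod_cast h7
  -- total count
  have htot : ∑ e ∈ R, ∑ f ∈ R with ¬ Disjoint (H e) (H f), z f ≤ (R.card : ℝ) := by
    calc ∑ e ∈ R, ∑ f ∈ R with ¬ Disjoint (H e) (H f), z f
        = ∑ f ∈ R, z f * ((R.filter fun e => ¬ Disjoint (H e) (H f)).card : ℝ) := by
          simp_rw [sum_filter]
          rw [sum_comm]
          refine sum_congr rfl fun f _ => ?_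
          rw [← sum_filter, sum_const, nsmul_eq_mul, mul_comm]
      _ ≤ ∑ f ∈ R, ∑ v ∈ H f, x f / a v := by
          refine sum_le_sum fun f hf => ?_
          have h1 := mul_le_mul_of_nonneg_left (hthree f hf) (hz f)
          have h2 := hcyc f (hRF f hf)
          linarith
      _ = ∑ v, ∑ f ∈ R with v ∈ H f, x f / a v := (sum_incid R (fun f v => x f / a v)).symm
      _ = ∑ v ∈ U, ∑ f ∈ R with v ∈ H f, x f / a v := by
          symm
          apply sum_subset (subset_univ _)
          intro v _ hv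
          apply sum_eq_zero
          intro f hf
          rw [mem_filter] at hf
          exact absurd ((hmemU v).2 ⟨f, hf.1, hf.2⟩) hv
      _ ≤ ∑ v ∈ U, (1 : ℝ) := by
          refine sum_le_sum fun v _ => ?_
          rw [← sum_div]
          have h0 : 0 ≤ ∑ f ∈ R with v ∈ H f, x f := sum_nonneg fun f _ => hx f
          exact div_le_one_of_le₀ (haR v) (h0.trans (haR v))
      _ = (R.card : ℝ) := by
          rw [sum_const, nsmul_eq_mul, mul_one, hUcard]
  have hgt : (R.card : ℝ) < ∑ e ∈ R, ∑ f ∈ R with ¬ Disjoint (H e) (H f), z f := by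
    calc (R.card : ℝ) = ∑ e ∈ R, (1 : ℝ) := by rw [sum_const, nsmul_eq_mul, mul_one]
      _ < _ := sum_lt_sum_of_nonempty hRne hR
  linarith

end H4.FKS
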