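import Mathlib
import Pool.Agent.H4.FKS.Assembly
import Pool.Agent.H90.FKS.LevelTwoB

/-!
# The full Füredi-Kahn-Seymour theorem from level three
-/

set_option autoImplicit false
set_option linter.unusedSectionVars false
set_option linter.unusedVariables false

namespace H4.FKS

open Finset H34.FKS H84.FKS H90.FKS

/-- A random matching with the marginals `y` contains a matching of large weight. -/
theorem exists_matching_of_real {E : Type} [Fintype E] [DecidableEq E]
    {r : E → E → Prop} {y : E → ℝ} (h : Real r univ y) (c : E → ℝ) :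
    ∃ M : Finset E, Stable r M ∧ ∑ e, y e * c e ≤ ∑ e ∈ M, c e := by
  classical
  obtain ⟨w, hw0, hws, hw1, hwm⟩ := h
  have h1 : ∑ e, y e * c e = ∑ M, w M * ∑ e ∈ M, c e := by
    calc ∑ e, y e * c e = ∑ e, (∑ M with e ∈ M, w M) * c e :=
          sum_congr rfl fun e _ => by rw [hwm e (mem_univ e)]
      _ = ∑ e, ∑ M, (if e ∈ M then w M * c e else 0) := by
          refine sum_congr rfl fun e _ => ?_
          rw [sum_mul, sum_filter]
      _ = ∑ M, ∑ e, (if e ∈ M then w M * c e else 0) := sum_comm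
      _ = ∑ M, w M * ∑ e ∈ M, c e := by
          refine sum_congr rfl fun M _ => ?_
          rw [← sum_filter, mul_sum]
          apply sum_congr _ fun _ _ => rfl
          ext e
          simp
  by_contra hcon
  push Not at hcon
  have h2 : ∑ M, w M * ∑ e ∈ M, c e < ∑ M, w M * ∑ e, y e * c e := by
    apply sum_lt_sum
    · intro M _
      by_cases hM : w M = 0
      · rw [hM]; simp
      · exact mul_le_mul_of_nonneg_left (hcon M (hws M hM).1).le (hw0 M)
    · by_contra hno
      push Not at hno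
      have h3 : ∀ M, w M = 0 := by
        intro M
        by_contra hM
        have hpos : 0 < w M := lt_of_le_of_ne (hw0 M) (Ne.symm hM)
        have := hno M (mem_univ M)
        have := mul_lt_mul_of_pos_left (hcon M (hws M hM).1) hpos
        linarith
      have : ∑ M, w M = 0 := sum_eq_zero fun M _ => h3 M
      linarith
  rw [← sum_mul, hw1, one_mul, ← h1] at h2
  exact lt_irrefl _ h2

/-- **Füredi-Kahn-Seymour from level three**: fractional edge colourings and matchings. -/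
theorem fks_of_lvl_three {V E : Type} [Fintype V] [DecidableEq V] [Fintype E] [DecidableEq E]
    (H : E → Finset V) (hne : ∀ e, (H e).Nonempty)
    (h3 : ∀ x : E → ℝ, (∀ e, 0 ≤ x e) → (∀ v, ∑ f with v ∈ H f, x f ≤ 1) → HasSDR H x →
      Lvl H x (kap3 H x) 3) :
    (∃ w : Finset E → ℝ, (∀ M, 0 ≤ w M) ∧
      (∀ M, w M ≠ 0 → ∀ e ∈ M, ∀ f ∈ M, e ≠ f → Disjoint (H e) (H f)) ∧
      (∀ e, 1 ≤ ∑ M with e ∈ M, w M) ∧
      ∑ M, w M ≤ ⨆ v : V, ∑ e with v ∈ H e, (((H e).card : ℝ) - 1 + 1 / ((H e).card : ℝ))) ∧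
    ∀ x : E → ℝ, (∀ e, 0 ≤ x e) → (∀ v, ∑ f with v ∈ H f, x f ≤ 1) → ∀ c : E → ℝ,
      ∃ M : Finset E, (∀ e ∈ M, ∀ f ∈ M, e ≠ f → Disjoint (H e) (H f)) ∧
        ∑ e, x e * c e ≤ ∑ e ∈ M, (((H e).card : ℝ) - 1 + 1 / ((H e).card : ℝ)) * c e := by
  have h2 : ∀ x : E → ℝ, (∀ e, 0 ≤ x e) → (∀ v, ∑ f with v ∈ H f, x f ≤ 1) → HasSDR H x →
      Lvl H x (fun _ => 0) 2 := fun x hx hdeg hsdr =>
    lvl_two_of_lvl_three hne hx hdeg hsdr (h3 x hx hdeg hsdr)
  refine ⟨fks_of_lvl_two H hne h2, fun x hx hdeg c => ?_⟩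
  have hcard : ∀ e, 1 ≤ (H e).card := fun e => card_pos.2 (hne e)
  have hreal := real_of_sdr H hne ck
    (fun x hx hdeg hsdr => real_of_lvl_two hne hx hdeg (h2 x hx hdeg hsdr) univ) x hx hdeg
  obtain ⟨M, hM, hle⟩ := exists_matching_of_real hreal
    (fun e => (((H e).card : ℝ) - 1 + 1 / ((H e).card : ℝ)) * c e)
  refine ⟨M, fun e he f hf hef => ?_, le_trans (le_of_eq ?_) hle⟩
  · have := hM e he f hf hef
    exact not_not.1 this
  · refine sum_congr rfl fun e _ => ?_
    have h4 : ck (H e).card ≠ 0 := (ck_pos (hcard e)).ne'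
    change _ = x e / ck (H e).card * (ck (H e).card * c e)
    field_simp

end H4.FKS
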