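import Mathlib
import Pool.Agent.H4.FKS.Crit

/-!
# The coefficient criterion
-/

set_option autoImplicit false
set_option linter.unusedSectionVars false
set_option linter.unusedVariables false

namespace H4.FKS

open Finset

section
variable {V E : Type} [Fintype V] [DecidableEq V] [DecidableEq E] [Fintype E]

/-- Lower bounds on coefficients imply positivity. -/
theorem one_le_of_lb {k : ℕ} (hk : 1 ≤ k) {g : ℝ} (h : (k : ℝ) - 1 + 1 / k ≤ g) : 1 ≤ g := by
  have hk0 : (1 : ℝ) ≤ k := by exact_mod_cast hk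
  have hkp : (0 : ℝ) < k := by linarith
  refine le_trans ?_ h
  have h1 : (k : ℝ) - 1 + 1 / k = ((k : ℝ) ^ 2 - k + 1) / k := by field_simp
  rw [h1, le_div_iff₀ hkp]
  nlinarith [sq_nonneg ((k : ℝ) - 1)]

/-- Main induction: one size at a time, with the coefficient criterion. -/
theorem real_crit {H : E → Finset V} (hne : ∀ e, (H e).Nonempty) {x : E → ℝ}
    (hx : ∀ e, 0 ≤ x e) (hdeg : ∀ v, ∑ f with v ∈ H f, x f ≤ 1) {g : ℕ → ℝ}
    (hg1 : ∀ e, ((H e).card : ℝ) - 1 + 1 / (H e).card ≤ g (H e).card)
    (hg2 : ∀ (v : V) (e f : E), 2 ≤ (H e).card → (H e).card < (H f).card →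
      (∑ a with v ∈ H a ∧ (H a).card = (H e).card, x a / g (H e).card) *
        (g (H f).card - g (H e).card) ≤ g (H f).card - (H e).card) (R : Finset E) :
    Real (fun e f => ¬ Disjoint (H e) (H f)) R (fun e => x e / g (H e).card) := by
  classical
  have hrefl : ∀ a, ¬ Disjoint (H a) (H a) := by
    intro a h
    rw [disjoint_self] at h
    exact (hne a).ne_empty h
  have hcard : ∀ e, 1 ≤ (H e).card := fun e => card_pos.2 (hne e)
  have hgone : ∀ e, 1 ≤ g (H e).card := fun e => one_le_of_lb (hcard e) (hg1 e)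
  have hgpos : ∀ e, 0 < g (H e).card := fun e => lt_of_lt_of_le one_pos (hgone e)
  apply real_induct (r := fun e f => ¬ Disjoint (H e) (H f)) hrefl
    (fun a b h h' => h (disjoint_comm.1 h')) (fun e => div_nonneg (hx e) (hgpos e).le)
  intro R hRne hA
  obtain ⟨e0, he0, hmin⟩ := exists_min_image R (fun e => (H e).card) hRne
  set k := (H e0).card with hk
  set c := g k with hc
  have hdegR : ∀ v, ∑ f ∈ R with v ∈ H f, x f ≤ 1 := by
    intro v
    refine le_trans ?_ (hdeg v)
    apply sum_le_sum_of_subset_of_nonneg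
    · exact filter_subset_filter _ (subset_univ _)
    · exact fun f _ _ => hx f
  have hc0 : 0 < c := hgpos e0
  have hc1 : 1 ≤ c := hgone e0
  have hkR1 : (1 : ℝ) ≤ k := by exact_mod_cast hcard e0
  -- the coefficient is below `k`, otherwise `e0` is greedy
  have hck : c < k := by
    by_contra hck
    push Not at hck
    have h1 := hA e0 he0
    have h2 : ∑ f ∈ R with ¬ Disjoint (H e0) (H f), x f / g (H f).card ≤
        (∑ f ∈ R with ¬ Disjoint (H e0) (H f), x f) / k := by
      rw [sum_div]
      refine sum_le_sum fun f hf => ?_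
      apply div_le_div_of_nonneg_left (hx f) (by linarith)
      have hkf := hmin f (mem_filter.1 hf).1
      rcases hkf.eq_or_lt with h | h
      · have : (H f).card = k := h.symm
        rw [this]
        exact hck
      · refine le_trans ?_ (hg1 f)
        have h3 : ((k : ℝ) + 1) ≤ ((H f).card : ℝ) := by exact_mod_cast h
        have h4 : 0 < 1 / (((H f).card : ℝ)) := by
          have : (0 : ℝ) < ((H f).card : ℝ) := by linarith
          positivity
        linarith
    have h3 := nbr_le hx hdegR (C := ∅) (empty_subset R) (e := e0) (by simp)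
    rw [← hk] at h3
    have h4 : exc H x ∅ e0 = 0 := by simp [exc]
    rw [h4, add_zero] at h3
    have h5 : (∑ f ∈ R with ¬ Disjoint (H e0) (H f), x f) / k ≤ 1 := by
      rw [div_le_one (by linarith)]
      exact h3
    linarith
  have hk2 : 2 ≤ k := by
    by_contra h
    have h1 : k = 1 := by have := hcard e0; omega
    have h2 : (k : ℝ) = 1 := by rw [h1]; norm_num
    linarith
  have hkR : (2 : ℝ) ≤ k := by exact_mod_cast hk2
  have hkp : (0 : ℝ) < k := by linarith
  have hk1 : (0 : ℝ) < k - 1 := by linarith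
  have hlb : (k : ℝ) - 1 + 1 / k ≤ c := hg1 e0
  have hlbk : (k : ℝ) ^ 2 - k + 1 ≤ c * k := by
    have h1 : ((k : ℝ) - 1 + 1 / k) * k = (k : ℝ) ^ 2 - k + 1 := by
      field_simp
    rw [← h1]
    exact mul_le_mul_of_nonneg_right hlb hkp.le
  have hc1' : 1 < c := by
    by_contra h
    push Not at h
    nlinarith
  set F := R.filter (fun e => (H e).card = k) with hF
  have hFk : ∀ e ∈ F, (H e).card = k := fun e he => (mem_filter.1 he).2
  have hFR : F ⊆ R := filter_subset _ _
  have hFne : F.Nonempty := ⟨e0, mem_filter.2 ⟨he0, rfl⟩⟩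
  by_cases hpos : ∃ e1 ∈ F, 0 < x e1 / g (H e1).card
  swap
  · push Not at hpos
    refine ⟨F, hFR, hFne, fun _ => 1, fun _ _ _ => one_pos, ?_, ?_⟩
    · intro C hC hCy _
      rcases C.eq_empty_or_nonempty with rfl | ⟨a, ha⟩
      · simp
      · exact absurd (hCy a ha) (not_lt.2 (hpos a (hC ha)))
    · intro e he hye
      exact absurd hye (not_lt.2 (hpos e he))
  obtain ⟨e1, he1, hye1⟩ := hpos
  -- the largest star
  have hVne : (univ : Finset V).Nonempty := by
    obtain ⟨v, _⟩ := hne e0
    exact ⟨v, mem_univ v⟩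
  obtain ⟨v0, _, hv0⟩ := exists_max_image univ
    (fun v => ∑ a ∈ F with v ∈ H a, x a / g (H a).card) hVne
  set d := ∑ a ∈ F with v0 ∈ H a, x a / g (H a).card with hd
  have hdmax : ∀ v, ∑ a ∈ F with v ∈ H a, x a / g (H a).card ≤ d := fun v => hv0 v (mem_univ v)
  have hd0 : 0 < d := by
    obtain ⟨v, hv⟩ := hne e1
    refine lt_of_lt_of_le ?_ (hdmax v)
    refine lt_of_lt_of_le hye1 ?_
    exact single_le_sum (f := fun a => x a / g (H a).card)
      (fun a _ => div_nonneg (hx a) (hgpos a).le) (mem_filter.2 ⟨he1, hv⟩)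
  have hdc : d * c ≤ 1 := by
    rw [hd, sum_mul]
    refine le_trans ?_ (hdegR v0)
    have h1 : ∑ a ∈ F with v0 ∈ H a, x a / g (H a).card * c = ∑ a ∈ F with v0 ∈ H a, x a := by
      refine sum_congr rfl fun a ha => ?_
      rw [hFk a (mem_filter.1 ha).1, ← hc, div_mul_cancel₀ _ hc0.ne']
    rw [h1]
    apply sum_le_sum_of_subset_of_nonneg
    · exact filter_subset_filter _ hFR
    · exact fun f _ _ => hx f
  have hd1 : d < 1 := by
    by_contra h
    push Not at h
    nlinarith
  have hdstar : d ≤ ∑ a with v0 ∈ H a ∧ (H a).card = k, x a / c := by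
    rw [hd]
    have h1 : ∑ a ∈ F with v0 ∈ H a, x a / g (H a).card = ∑ a ∈ F with v0 ∈ H a, x a / c := by
      refine sum_congr rfl fun a ha => ?_
      rw [hFk a (mem_filter.1 ha).1]
    rw [h1]
    apply sum_le_sum_of_subset_of_nonneg
    · intro a ha
      exact mem_filter.2 ⟨mem_univ a, (mem_filter.1 ha).2, hFk a (mem_filter.1 ha).1⟩
    · exact fun f _ _ => div_nonneg (hx f) hc0.le
  have hkd : 0 < (k : ℝ) - d * c := by linarith
  set p : ℝ := 2 * c * (1 - d) / (k - d * c) with hp
  have hpk' : p * (k - d * c) = 2 * c * (1 - d) := by rw [hp, div_mul_cancel₀ _ hkd.ne']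
  have hp2 : p ≤ 2 := by
    rw [hp, div_le_iff₀ hkd]
    nlinarith
  have hppos : 0 < p := by
    rw [hp]
    apply div_pos _ hkd
    have : 0 < 1 - d := by linarith
    positivity
  have hpk : 2 * ((k : ℝ) - 1) ≤ p * k := by
    rw [hp, div_mul_eq_mul_div, le_div_iff₀ hkd]
    nlinarith
  have hp1 : 1 ≤ p := by
    by_contra h
    push Not at h
    nlinarith
  have hρ : (2 - p) * d = 2 - p * k / c := by
    have h1 : ((2 - p) * d) * c = 2 * c - p * k := by linarith
    rw [eq_sub_iff_add_eq, ← mul_left_inj' hc0.ne', add_mul, h1]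
    field_simp
    ring
  -- quantities
  set X : E → ℝ := fun e => ∑ f ∈ F with ¬ Disjoint (H e) (H f), x f with hX
  set Z : E → ℝ := fun e => ∑ f ∈ R \ F with ¬ Disjoint (H e) (H f), x f / g (H f).card with hZ
  have hsplit : ∀ (z : E → ℝ) (e : E), ∑ f ∈ R with ¬ Disjoint (H e) (H f), z f =
      ∑ f ∈ F with ¬ Disjoint (H e) (H f), z f +
        ∑ f ∈ R \ F with ¬ Disjoint (H e) (H f), z f := by
    intro z e
    rw [← sum_union]
    · congr 1
      rw [← filter_union, union_sdiff_of_subset hFR]
    · exact disjoint_filter_filter (disjoint_sdiff)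
  have hFy : ∀ e, ∑ f ∈ F with ¬ Disjoint (H e) (H f), x f / g (H f).card = X e / c := by
    intro e
    simp only [hX]
    rw [sum_div]
    refine sum_congr rfl fun f hf => ?_
    rw [hFk f (mem_filter.1 hf).1]
  have hZle : ∀ e, 2 * Z e ≤ (∑ f ∈ R \ F with ¬ Disjoint (H e) (H f), x f) * (p / c) := by
    intro e
    simp only [hZ]
    rw [mul_sum, sum_mul]
    refine sum_le_sum fun f hf => ?_
    have hf1 := (mem_sdiff.1 (mem_filter.1 hf).1)
    have hlt : k < (H f).card := by
      have h4 := hmin f hf1.1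
      have h5 : (H f).card ≠ k := fun h => hf1.2 (mem_filter.2 ⟨hf1.1, h⟩)
      omega
    have hgf : (k : ℝ) < g (H f).card := by
      refine lt_of_lt_of_le ?_ (hg1 f)
      have h3 : ((k : ℝ) + 1) ≤ ((H f).card : ℝ) := by exact_mod_cast hlt
      have h4 : 0 < 1 / (((H f).card : ℝ)) := by
        have : (0 : ℝ) < ((H f).card : ℝ) := by linarith
        positivity
      linarith
    have h6 : (∑ a with v0 ∈ H a ∧ (H a).card = k, x a / c) *
        (g (H f).card - c) ≤ g (H f).card - k := hg2 v0 e0 f hk2 hlt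
    have h61 : d * (g (H f).card - c) ≤ g (H f).card - k := by
      refine le_trans (mul_le_mul_of_nonneg_right hdstar ?_) h6
      linarith
    have h7 : 2 / g (H f).card ≤ p / c := by
      rw [div_le_div_iff₀ (hgpos f) hc0]
      have h8 : 2 * c * (k - d * c) ≤ p * (k - d * c) * g (H f).card := by
        rw [hpk']
        nlinarith
      have h9 : (2 * c) * (k - d * c) ≤ (p * g (H f).card) * (k - d * c) := by linarith
      exact le_of_mul_le_mul_right h9 hkd
    calc 2 * (x f / g (H f).card) = x f * (2 / g (H f).card) := by ring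
      _ ≤ x f * (p / c) := mul_le_mul_of_nonneg_left h7 (hx f)
  set m : E → ℝ := fun e => 2 * (1 - Z e) - X e / c with hm
  have hmle : ∀ C ⊆ F, (∀ f ∈ C, ∀ g ∈ C, ¬ Disjoint (H f) (H g)) → ∀ e ∈ C,
      (2 - p) * d + ∑ f ∈ C, (x f / g (H f).card) * (p * ((H e ∩ H f).card : ℝ) - 1) ≤ m e := by
    intro C hC hCc e he
    rw [hρ]
    have h4 := nbr_le hx hdegR (hC.trans hFR) (e := e) (hCc e he)
    rw [hsplit x e, hFk e (hC he)] at h4
    have h5 : X e = ∑ f ∈ F with ¬ Disjoint (H e) (H f), x f := rfl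
    rw [← h5] at h4
    have h6 : ∑ f ∈ C, x f ≤ X e := by
      simp only [hX]
      apply sum_le_sum_of_subset_of_nonneg
      · intro f hf
        exact mem_filter.2 ⟨hC hf, hCc e he f hf⟩
      · exact fun f _ _ => hx f
    have h7 := hZle e
    have h8 : ∑ f ∈ C, (x f / g (H f).card) * (p * ((H e ∩ H f).card : ℝ) - 1) =
        ((p - 1) * ∑ f ∈ C, x f + p * exc H x C e) / c := by
      unfold exc
      rw [mul_sum, mul_sum, ← sum_add_distrib, sum_div]
      refine sum_congr rfl fun f hf => ?_
      rw [hFk f (hC hf), ← hc]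
      field_simp
      ring
    rw [h8]
    simp only [hm]
    have h9 : (∑ f ∈ R \ F with ¬ Disjoint (H e) (H f), x f) * (p / c) ≤
        (k - X e - exc H x C e) * (p / c) := by
      apply mul_le_mul_of_nonneg_right _ (by positivity)
      linarith
    have h10 : (p - 1) * ∑ f ∈ C, x f ≤ (p - 1) * X e :=
      mul_le_mul_of_nonneg_left h6 (by linarith)
    have h11 : ((p - 1) * ∑ f ∈ C, x f + p * exc H x C e) / c ≤
        ((p - 1) * X e + p * exc H x C e) / c :=
      div_le_div_of_nonneg_right (by linarith) hc0.le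
    have h12 : 2 - p * k / c + ((p - 1) * X e + p * exc H x C e) / c =
        2 - (k - X e - exc H x C e) * (p / c) - X e / c := by
      field_simp; ring
    linarith
  have hsing : ∀ e ∈ F, 0 < x e / g (H e).card → 0 < m e := by
    intro e he hye
    have hC : ({e} : Finset E) ⊆ F := singleton_subset_iff.2 he
    have hCc : ∀ f ∈ ({e} : Finset E), ∀ g ∈ ({e} : Finset E), ¬ Disjoint (H f) (H g) := by
      intro f hf g hg
      rw [mem_singleton] at hf hg
      subst hf; subst hg
      exact hrefl _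
    have h4 := hmle {e} hC hCc e (mem_singleton_self e)
    rw [sum_singleton, inter_self] at h4
    have h5 : 0 < x e / g (H e).card * (p * ((H e).card : ℝ) - 1) := by
      apply mul_pos hye
      rw [hFk e he]
      nlinarith
    have h6 : 0 ≤ (2 - p) * d := mul_nonneg (by linarith) hd0.le
    linarith
  refine ⟨F, hFR, hFne, fun e => x e / g (H e).card / m e, ?_, ?_, ?_⟩
  · intro e he hye
    exact div_pos hye (hsing e he hye)
  · intro C hC hCy hCc
    refine clique_le_one hk2 hpk hp2 hd0 H C (y := fun e => x e / g (H e).card) (m := m)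
      (fun f hf => hFk f (hC hf)) hCy (fun e he => hsing e (hC he) (hCy e he)) hCc ?_
      (hmle C hC hCc)
    intro v
    refine le_trans ?_ (hdmax v)
    unfold dg
    apply sum_le_sum_of_subset_of_nonneg
    · exact filter_subset_filter _ hC
    · exact fun f _ _ => div_nonneg (hx f) (hgpos f).le
  · intro e he hye
    rw [hFy e]
    have hme := hsing e he hye
    show X e / c + x e / g (H e).card / (x e / g (H e).card / m e) ≤ 2 * (1 - Z e)
    rw [div_div_cancel₀ hye.ne']
    simp only [hm]
    linarith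

end

end H4.FKS
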