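import Mathlib
import Pool.Agent.H4.FKS.RealCrit
import Pool.Agent.H4.FKS.Final

/-!
# Fractional edge colourings from the coefficient criterion
-/

set_option autoImplicit false
set_option linter.unusedSectionVars false
set_option linter.unusedVariables false

namespace H4.FKS

open Finset

section
variable {V E : Type} [Fintype V] [DecidableEq V] [Fintype E] [DecidableEq E]

/-- Fractional edge colourings from realisable demands, with a given budget `D`. -/
theorem coloring_crit (H : E → Finset V) (hne : ∀ e, (H e).Nonempty) {g : ℕ → ℝ} {D : ℝ}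
    (hD : 0 ≤ D)
    (hg1 : ∀ e, ((H e).card : ℝ) - 1 + 1 / (H e).card ≤ g (H e).card)
    (hdeg : ∀ v, ∑ e with v ∈ H e, g (H e).card ≤ D)
    (hg2 : ∀ (v : V) (e f : E), 2 ≤ (H e).card → (H e).card < (H f).card →
      (#{a | v ∈ H a ∧ (H a).card = (H e).card} : ℝ) * (g (H f).card - g (H e).card) ≤
        D * (g (H f).card - (H e).card)) :
    ∃ w : Finset E → ℝ, (∀ M, 0 ≤ w M) ∧
      (∀ M, w M ≠ 0 → ∀ e ∈ M, ∀ f ∈ M, e ≠ f → Disjoint (H e) (H f)) ∧
      (∀ e, 1 ≤ ∑ M with e ∈ M, w M) ∧ ∑ M, w M ≤ D := by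
  have hg : ∀ e, 0 < g (H e).card := fun e =>
    lt_of_lt_of_le one_pos (one_le_of_lb (card_pos.2 (hne e)) (hg1 e))
  rcases isEmpty_or_nonempty E with hE | hE
  · exact ⟨0, by simp, by simp, fun e => (hE.false e).elim, by simpa using hD⟩
  · have hD0 : 0 < D := by
      obtain ⟨e0⟩ := hE
      obtain ⟨v, hv⟩ := hne e0
      refine lt_of_lt_of_le ?_ (hdeg v)
      exact sum_pos (fun e _ => hg e) ⟨e0, by simp [hv]⟩
    have hreal := real_crit hne (x := fun e => g (H e).card / D) (g := g)
      (fun e => (div_pos (hg e) hD0).le) (fun v => by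
        rw [← sum_div, div_le_one hD0]
        exact hdeg v) hg1 (by
        intro v e f he hef
        have h1 : ∑ a with v ∈ H a ∧ (H a).card = (H e).card,
            g (H a).card / D / g (H e).card =
            (#{a | v ∈ H a ∧ (H a).card = (H e).card} : ℝ) / D := by
          have h2 : ∀ a ∈ univ.filter (fun a => v ∈ H a ∧ (H a).card = (H e).card),
              g (H a).card / D / g (H e).card = 1 / D := by
            intro a ha
            rw [(mem_filter.1 ha).2.2]
            have := (hg e).ne'
            field_simp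
          rw [sum_congr rfl h2, sum_const, nsmul_eq_mul]
          ring
        rw [h1, div_mul_eq_mul_div, div_le_iff₀ hD0]
        have := hg2 v e f he hef
        linarith) univ
    obtain ⟨p, hp0, hps, hp1, hpe⟩ := hreal
    refine ⟨fun M => D * p M, fun M => mul_nonneg hD0.le (hp0 M), ?_, ?_, ?_⟩
    · intro M hM e he f hf hef
      have h1 := (hps M (right_ne_zero_of_mul hM)).1 e he f hf hef
      exact not_not.1 h1
    · intro e
      rw [← mul_sum, hpe e (mem_univ e)]
      have := hg e
      refine le_of_eq ?_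
      field_simp
    · rw [← mul_sum, hp1, mul_one]

/-- The Füredi-Kahn-Seymour bound, up to a second term which only concerns vertices where the
edges of one size dominate. -/
theorem coloring_exact (H : E → Finset V) (hne : ∀ e, (H e).Nonempty) {D : ℝ} (hD : 0 ≤ D)
    (hdeg : ∀ v, ∑ e with v ∈ H e, (((H e).card : ℝ) - 1 + 1 / (H e).card) ≤ D)
    (hstar : ∀ (v : V) (e f : E), 2 ≤ (H e).card → (H f).card = (H e).card + 1 →
      (#{a | v ∈ H a ∧ (H a).card = (H e).card} : ℝ) * ((H e).card + 1 - 1 / (H e).card) ≤ D) :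
    ∃ w : Finset E → ℝ, (∀ M, 0 ≤ w M) ∧
      (∀ M, w M ≠ 0 → ∀ e ∈ M, ∀ f ∈ M, e ≠ f → Disjoint (H e) (H f)) ∧
      (∀ e, 1 ≤ ∑ M with e ∈ M, w M) ∧ ∑ M, w M ≤ D := by
  refine coloring_crit H hne (g := fun k => (k : ℝ) - 1 + 1 / k) hD (fun e => le_rfl) hdeg ?_
  intro v e f he hef
  set N : ℝ := (#{a | v ∈ H a ∧ (H a).card = (H e).card} : ℝ) with hN
  have hN0 : 0 ≤ N := Nat.cast_nonneg _
  set k : ℝ := ((H e).card : ℝ) with hk
  set j : ℝ := ((H f).card : ℝ) with hj
  have hk2 : (2 : ℝ) ≤ k := by rw [hk]; exact_mod_cast he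
  have hkp : 0 < k := by linarith
  show N * ((j - 1 + 1 / j) - (k - 1 + 1 / k)) ≤ D * ((j - 1 + 1 / j) - k)
  rcases (Nat.succ_le_of_lt hef).eq_or_lt with h | h
  · have hjk : j = k + 1 := by
      rw [hj, hk, ← h]; push_cast; ring
    have h1 := hstar v e f he h.symm
    rw [← hN, ← hk] at h1
    rw [hjk]
    have hkp1 : 0 < k + 1 := by linarith
    have h2 : (k + 1 - 1 + 1 / (k + 1)) - (k - 1 + 1 / k) =
        (k + 1 - 1 / k) / (k + 1) := by field_simp; ring
    have h3 : (k + 1 - 1 + 1 / (k + 1)) - k = 1 / (k + 1) := by ring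
    rw [h2, h3, ← mul_div_assoc, mul_one_div]
    exact div_le_div_of_nonneg_right h1 hkp1.le
  · have hjk : k + 2 ≤ j := by
      have : (H e).card + 2 ≤ (H f).card := h
      rw [hj, hk]; exact_mod_cast this
    have hjp : 0 < j := by linarith
    have hj1 : 0 < 1 / j := by positivity
    -- the star at `v` is within the budget
    have hstar' : N * (k - 1 + 1 / k) ≤ D := by
      refine le_trans ?_ (hdeg v)
      have h1 : N * (k - 1 + 1 / k) = ∑ a with v ∈ H a ∧ (H a).card = (H e).card,
          (((H a).card : ℝ) - 1 + 1 / (H a).card) := by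
        have h2 : ∀ a ∈ univ.filter (fun a => v ∈ H a ∧ (H a).card = (H e).card),
            (((H a).card : ℝ) - 1 + 1 / (H a).card) = k - 1 + 1 / k := by
          intro a ha
          rw [(mem_filter.1 ha).2.2]
        rw [sum_congr rfl h2, sum_const, nsmul_eq_mul]
      rw [h1]
      apply sum_le_sum_of_subset_of_nonneg
      · intro a ha
        exact mem_filter.2 ⟨mem_univ a, (mem_filter.1 ha).2.1⟩
      · intro a _ _
        have h3 : (1 : ℝ) ≤ ((H a).card : ℝ) := by exact_mod_cast card_pos.2 (hne a)
        have : 0 ≤ 1 / ((H a).card : ℝ) := by positivity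
        linarith
    set ck : ℝ := k - 1 + 1 / k with hck
    set cj : ℝ := j - 1 + 1 / j with hcj
    have hk1' : 0 < 1 / k := by positivity
    have hckp : 0 < ck := by rw [hck]; linarith
    have hckk : ck * k = k ^ 2 - k + 1 := by rw [hck]; field_simp
    have hcjk : k + 1 < cj := by rw [hcj]; linarith
    have h4 : cj - ck ≤ ck * (cj - k) := by
      -- cj (ck - 1) ≥ ck (k - 1)
      have h5 : ck * (k - 1) ≤ cj * (ck - 1) := by
        have h6 : (ck * (k - 1)) * k ≤ ((k + 1) * (ck - 1)) * k := by
          have h7 : (ck * (k - 1)) * k = (k ^ 2 - k + 1) * (k - 1) := by rw [← hckk]; ring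
          have h8 : ((k + 1) * (ck - 1)) * k = (k + 1) * (k - 1) ^ 2 := by
            calc ((k + 1) * (ck - 1)) * k = (k + 1) * (ck * k - k) := by ring
              _ = _ := by rw [hckk]; ring
          rw [h7, h8]
          nlinarith
        have h9 := le_of_mul_le_mul_right h6 hkp
        have h10 : 0 ≤ ck - 1 := by
          have : 0 ≤ (ck - 1) * k := by
            have : (ck - 1) * k = (k - 1) ^ 2 := by
              calc (ck - 1) * k = ck * k - k := by ring
                _ = _ := by rw [hckk]; ring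
            rw [this]; positivity
          exact nonneg_of_mul_nonneg_left this hkp
        have h11 : (k + 1) * (ck - 1) ≤ cj * (ck - 1) := mul_le_mul_of_nonneg_right hcjk.le h10
        linarith
      nlinarith
    have h12 : N * (cj - ck) ≤ N * (ck * (cj - k)) := mul_le_mul_of_nonneg_left h4 hN0
    have h13 : N * ck * (cj - k) ≤ D * (cj - k) :=
      mul_le_mul_of_nonneg_right hstar' (by linarith)
    linarith

end

end H4.FKS
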