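import Mathlib

/-!
# Polynomial inequalities for the coefficient `k - 1 + 1/k + 3/k^2` (generated certificates)
-/

set_option autoImplicit false

namespace H4.FKS

theorem P1_nonneg {k s : ℝ} (hk : 3 ≤ k) (h1 : 1 ≤ s) (h2 : s ≤ 2) :
    0 ≤ (k^3-k^2+k+3)*k^2*(k+1)^2*s*(s^2-1) - ((k^4+2*k^3-7*k-3)*s-((k^3-k^2+k+3)*(k+4)))*(k^3*s^2+(3*k^2-2*k-6)*s+(3*k^2-k-3)) := by
  obtain ⟨m, hm⟩ : ∃ m, m = k - 3 := ⟨_, rfl⟩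
  obtain ⟨A, hA⟩ : ∃ A, A = s - 1 := ⟨_, rfl⟩
  obtain ⟨B, hB⟩ : ∃ B, B = 1 - A := ⟨_, rfl⟩
  have hm0 : 0 ≤ m := by linarith
  have hA0 : 0 ≤ A := by linarith
  have hB0 : 0 ≤ B := by linarith
  have hk' : k = m + 3 := by linarith
  have hs' : s = 1 + A := by linarith
  have key : (k^3-k^2+k+3)*k^2*(k+1)^2*s*(s^2-1) - ((k^4+2*k^3-7*k-3)*s-((k^3-k^2+k+3)*(k+4)))*(k^3*s^2+(3*k^2-2*k-6)*s+(3*k^2-k-3)) =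
      (1*m^6 + 21*m^5 + 173*m^4 + 825*m^3 + 2613*m^2 + 4869*m + 3591)*B^3 +
      (1*m^7 + 20*m^6 + 168*m^5 + 791*m^4 + 2783*m^3 + 8759*m^2 + 18159*m + 14625)*A^1*B^2 +
      (3*m^7 + 55*m^6 + 401*m^5 + 1548*m^4 + 4351*m^3 + 12626*m^2 + 27006*m + 22725)*A^2*B^1 +
      (2*m^7 + 35*m^6 + 236*m^5 + 806*m^4 + 1995*m^3 + 5952*m^2 + 13734*m + 12150)*A^3 := by
    rw [hk', hs', hB]
    ring
  rw [key]
  positivity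

theorem P2_nonneg {k s : ℝ} (hk : 3 ≤ k) (h1 : 1 ≤ s) (h2 : s ≤ 2) :
    0 ≤ s^2*(s^2-1)*(2*(k^3-k^2+k+3)*(k^2-k-3)*(k+1)^2+(k^5-2*k^3+4*k^2+14*k+6)*((k^3-k^2+k+3)-k^2*s))*k^4 - 2*(k^2-k-3)*(k^3-k^2+k+3)*((k^4+2*k^3-7*k-3)*s-((k^3-k^2+k+3)*(k+4)))*(k^3*s^2+(3*k^2-2*k-6)*s+(3*k^2-k-3)) := by
  obtain ⟨m, hm⟩ : ∃ m, m = k - 3 := ⟨_, rfl⟩
  obtain ⟨A, hA⟩ : ∃ A, A = s - 1 := ⟨_, rfl⟩
  obtain ⟨B, hB⟩ : ∃ B, B = 1 - A := ⟨_, rfl⟩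
  have hm0 : 0 ≤ m := by linarith
  have hA0 : 0 ≤ A := by linarith
  have hB0 : 0 ≤ B := by linarith
  have hk' : k = m + 3 := by linarith
  have hs' : s = 1 + A := by linarith
  have key : s^2*(s^2-1)*(2*(k^3-k^2+k+3)*(k^2-k-3)*(k+1)^2+(k^5-2*k^3+4*k^2+14*k+6)*((k^3-k^2+k+3)-k^2*s))*k^4 - 2*(k^2-k-3)*(k^3-k^2+k+3)*((k^4+2*k^3-7*k-3)*s-((k^3-k^2+k+3)*(k+4)))*(k^3*s^2+(3*k^2-2*k-6)*s+(3*k^2-k-3)) =
      (2*m^11 + 68*m^10 + 1022*m^9 + 9194*m^8 + 56174*m^7 + 247550*m^6 + 801546*m^5 + 1883856*m^4 + 3096270*m^3 + 3322296*m^2 + 2036988*m + 517104)*B^7 +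
      (6*m^11 + 212*m^10 + 3328*m^9 + 32438*m^8 + 224622*m^7 + 1151154*m^6 + 4319678*m^5 + 11508422*m^4 + 20881326*m^3 + 24179202*m^2 + 15744402*m + 4215726)*A^1*B^6 +
      (1*m^12 + 24*m^11 + 249*m^10 + 1861*m^9 + 21625*m^8 + 265136*m^7 + 2103460*m^6 + 10388530*m^5 + 32738437*m^4 + 65995890*m^3 + 81944487*m^2 + 56166669*m + 15747453)*A^2*B^5 +
      (7*m^12 + 167*m^11 + 1474*m^10 + 4770*m^9 + 4474*m^8 + 202112*m^7 + 2861002*m^6 + 17592188*m^5 + 61457003*m^4 + 131069469*m^3 + 168629904*m^2 + 118776564*m + 34246638)*A^3*B^4 +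
      (19*m^12 + 510*m^11 + 5727*m^10 + 35201*m^9 + 150773*m^8 + 768984*m^7 + 4996592*m^6 + 25228982*m^5 + 83089385*m^4 + 173618652*m^3 + 221883435*m^2 + 156399525*m + 45450153)*A^4*B^3 +
      (25*m^12 + 719*m^11 + 9042*m^10 + 66642*m^9 + 343824*m^8 + 1529772*m^7 + 6680566*m^6 + 25731226*m^5 + 74147959*m^4 + 145142367*m^3 + 179310456*m^2 + 124134984*m + 35769438)*A^5*B^2 +
      (16*m^12 + 478*m^11 + 6350*m^10 + 50270*m^9 + 275370*m^8 + 1189874*m^7 + 4472138*m^6 + 14508854*m^5 + 37027130*m^4 + 67341270*m^3 + 79586928*m^2 + 53551800*m + 15112332)*A^6*B^1 +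
      (4*m^12 + 122*m^11 + 1666*m^10 + 13614*m^9 + 76226*m^8 + 323662*m^7 + 1127018*m^6 + 3284820*m^5 + 7625424*m^4 + 12958920*m^3 + 14617584*m^2 + 9499032*m + 2595240)*A^7 := by
    rw [hk', hs', hB]
    ring
  rw [key]
  positivity

theorem P3_nonneg {k s : ℝ} (hk : 3 ≤ k) (h1 : 2 ≤ s) (h2 : s ≤ k - 1/3) :
    0 ≤ (s^2-1)*((k^3+2*k^2+2*k+4)*k^2*s-((k^3-k^2+k+3)*(k+4)))^2*k^2 - (k^3-k^2+k+3)*((k^4+2*k^3-7*k-3)*s-((k^3-k^2+k+3)*(k+4)))*s*(s^2*(k+2)*k^2+(3*k^2-2*k-6)*s+(k^2-k-3))*(k+1)^2 := by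
  obtain ⟨m, hm⟩ : ∃ m, m = k - 3 := ⟨_, rfl⟩
  obtain ⟨A, hA⟩ : ∃ A, A = s - 2 := ⟨_, rfl⟩
  obtain ⟨B, hB⟩ : ∃ B, B = (m + 2/3) - A := ⟨_, rfl⟩
  have hm0 : 0 ≤ m := by linarith
  have hA0 : 0 ≤ A := by linarith
  have hB0 : 0 ≤ B := by linarith
  have hk' : k = m + 3 := by linarith
  have hs' : s = 2 + A := by linarith
  have key : (m + 2/3)^4 * ((s^2-1)*((k^3+2*k^2+2*k+4)*k^2*s-((k^3-k^2+k+3)*(k+4)))^2*k^2 - (k^3-k^2+k+3)*((k^4+2*k^3-7*k-3)*s-((k^3-k^2+k+3)*(k+4)))*s*(s^2*(k+2)*k^2+(3*k^2-2*k-6)*s+(k^2-k-3))*(k+1)^2) =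
      (4*m^12 + 134*m^11 + 2003*m^10 + 17712*m^9 + 104460*m^8 + 446660*m^7 + 1504751*m^6 + 4296964*m^5 + 10510368*m^4 + 20489100*m^3 + 28412388*m^2 + 24204312*m + 9409932)*B^4 +
      (8*m^13 + (853/3)*m^12 + (13642/3)*m^11 + (130306/3)*m^10 + (836699/3)*m^9 + 1299498*m^8 + (14159240/3)*m^7 + (43088260/3)*m^6 + 38113628*m^5 + 85595586*m^4 + (449115364/3)*m^3 + 184090764*m^2 + 138959604*m + 48063096)*A^1*B^3 +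
      (5*m^14 + (572/3)*m^13 + (29714/9)*m^12 + (310432/9)*m^11 + (2202061/9)*m^10 + (11410885/9)*m^9 + 5112327*m^8 + (153738637/9)*m^7 + (445693975/9)*m^6 + (372858866/3)*m^5 + (2305733600/9)*m^4 + (1206571756/3)*m^3 + 440815155*m^2 + 297221952*m + 92343420)*A^2*B^2 +
      (1*m^15 + 41*m^14 + (2312/3)*m^13 + (238736/27)*m^12 + (1886260/27)*m^11 + (3688381/9)*m^10 + (51285806/27)*m^9 + (66198943/9)*m^8 + (666175678/27)*m^7 + (643952542/9)*m^6 + (4664864872/27)*m^5 + (8895462794/27)*m^4 + (12643177436/27)*m^3 + (1385436118/3)*m^2 + 280733700*m + 79045120)*A^3*B^1 +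
      ((1/3)*m^14 + (52/3)*m^13 + (1268/3)*m^12 + (513950/81)*m^11 + (1759057/27)*m^10 + (13034797/27)*m^9 + (23946541/9)*m^8 + (898011295/81)*m^7 + (2846519434/81)*m^6 + (2280897982/27)*m^5 + (12302877881/81)*m^4 + (5357419832/27)*m^3 + (1604751575/9)*m^2 + 98733824*m + 25411584)*A^4 := by
    rw [hk', hs', hB]
    ring
  have h : 0 ≤ (m + 2/3)^4 * ((s^2-1)*((k^3+2*k^2+2*k+4)*k^2*s-((k^3-k^2+k+3)*(k+4)))^2*k^2 - (k^3-k^2+k+3)*((k^4+2*k^3-7*k-3)*s-((k^3-k^2+k+3)*(k+4)))*s*(s^2*(k+2)*k^2+(3*k^2-2*k-6)*s+(k^2-k-3))*(k+1)^2) := by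
    rw [key]
    positivity
  exact nonneg_of_mul_nonneg_right h (by positivity)

end H4.FKS
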