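import Mathlib
import Pool.Agent.H4.FKS.Envelope
import Pool.Agent.H4.FKS.PolyA

/-!
# The coefficient `k - 1 + 1/k + 3/k^2` satisfies the clique condition
-/

set_option autoImplicit false
set_option linter.unusedSectionVars false
set_option linter.unusedVariables false

namespace H4.FKS

open Finset

section
variable {V E : Type} [Fintype V] [DecidableEq V] [DecidableEq E]

/-- A simple form of the trace inequality. -/
theorem trace_L0 (H : E → Finset V) (x : E → ℝ) (C : Finset E) {k : ℕ}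
    (hk : ∀ f ∈ C, (H f).card = k) (hx : ∀ f ∈ C, 0 ≤ x f)
    (hint : ∀ f ∈ C, ∀ g ∈ C, ¬ Disjoint (H f) (H g)) (hd : ∀ v, dg H x C v ≤ 1)
    {s D U : ℝ} (hs1 : 1 < s) (hD0 : 0 ≤ D) (hs : ∑ f ∈ C, x f = s)
    (hD : ∑ f ∈ C, x f * exc H x C f = s * D)
    (hU : ∀ f ∈ C, s + exc H x C f ≤ U) :
    (s ^ 2 - 1) * (s + D) ^ 2 ≤ D * (s * (s ^ 2 * k + (2 * s + 1) * U)) := by
  have hs0 : 0 < s := by linarith
  have h := trace_ineq H x C hk hx hint hd (u := s + D) (U := U) (τ := (s + 1) / s ^ 2)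
    (η := (2 * s + 1) / s ^ 2) (Φ := (s ^ 2 - 1) * (s + D) / s ^ 3) hs0 hs hD rfl hU
    (by positivity) (by positivity) (by
      intro d hd0 hd1
      have h1 : 2 * ((s + 1) / s ^ 2) * (s + D - d) * (1 + (2 * s + 1) / s ^ 2 * d) -
          ((s + 1) / s ^ 2) ^ 2 * (s * (s + D) - d ^ 2) -
          (s ^ 2 - 1) * (s + D) / s ^ 3 * (1 + (2 * s + 1) / s ^ 2 * d) =
          d * ((s + 1) ^ 2 * (2 * s + 1) * D / s ^ 5) +
            (s + 1) * (3 * s + 1) / s ^ 4 * (d * (1 - d)) := by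
        field_simp
        ring
      have h2 : 0 ≤ d * ((s + 1) ^ 2 * (2 * s + 1) * D / s ^ 5) := by positivity
      have h3 : 0 ≤ (s + 1) * (3 * s + 1) / s ^ 4 * (d * (1 - d)) := by
        apply mul_nonneg (by positivity)
        exact mul_nonneg hd0 (by linarith)
      linarith)
  have h1 : (s ^ 2 - 1) * (s + D) / s ^ 3 * (s * (s + D)) =
      (s ^ 2 - 1) * (s + D) ^ 2 / s ^ 2 := by
    field_simp
  have h2 : s * D * (k + (2 * s + 1) / s ^ 2 * U) =
      D * (s * (s ^ 2 * k + (2 * s + 1) * U)) / s ^ 2 := by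
    field_simp
  rw [h1, h2] at h
  have hs2 : 0 < s ^ 2 := by positivity
  exact (div_le_div_iff_of_pos_right hs2).1 h

end

theorem no_small_D {k lam s D n : ℝ} (hk : 3 ≤ k) (hs : 2 < s) (hlam : 0 < lam)
    (hlam1 : lam ≤ 1) (hD : D < n) (hn : n ≤ lam)
    (f4 : n * (s * (s ^ 2 * k + (2 * s + 1) * (s + lam))) ≤ (s ^ 2 - 1) * (s + n) ^ 2)
    (hL : (s ^ 2 - 1) * (s + D) ^ 2 ≤ D * (s * (s ^ 2 * k + (2 * s + 1) * (s + lam)))) :
    False := by
  have hs0 : 0 < s := by linarith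
  obtain ⟨Q, hQ⟩ : ∃ Q, Q = s * (s ^ 2 * k + (2 * s + 1) * (s + lam)) := ⟨_, rfl⟩
  rw [← hQ] at f4 hL
  have hs21 : 0 ≤ s ^ 2 - 1 := by nlinarith
  have f5 : (n - D) * Q ≤ (n - D) * ((s ^ 2 - 1) * (2 * s + n + D)) := by
    have i1 : (s ^ 2 - 1) * (s + n) ^ 2 - (s ^ 2 - 1) * (s + D) ^ 2 =
        (n - D) * ((s ^ 2 - 1) * (2 * s + n + D)) := by ring
    have i2 : (n - D) * Q = n * Q - D * Q := by ring
    rw [i2, ← i1]
    exact sub_le_sub f4 hL
  have f6 : Q ≤ (s ^ 2 - 1) * (2 * s + n + D) := le_of_mul_le_mul_left f5 (by linarith)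
  have f7 : (s ^ 2 - 1) * (2 * s + n + D) ≤ (s ^ 2 - 1) * (2 * s + 2) :=
    mul_le_mul_of_nonneg_left (by linarith) hs21
  have f8 : s ^ 3 * k + 2 * s ^ 3 ≤ Q := by
    have h1 : Q = s ^ 3 * k + 2 * s ^ 3 + s ^ 2 + (2 * (lam * s ^ 2) + lam * s) := by
      rw [hQ]; ring
    have h2 : 0 < lam * s := by positivity
    have h3 : 0 < lam * s ^ 2 := by positivity
    have h4 : 0 < s ^ 2 := by positivity
    linarith
  have f9 : s ^ 3 * 3 ≤ s ^ 3 * k := mul_le_mul_of_nonneg_left hk (by positivity)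
  have g1 : 0 < s ^ 2 := by positivity
  have g2 : s ^ 2 * 2 ≤ s ^ 3 := by nlinarith
  have g3 : (s ^ 2 - 1) * (2 * s + 2) = 2 * s ^ 3 + 2 * s ^ 2 - 2 * s - 2 := by ring
  clear f5 f4 hL
  linarith

/-- The numerical step for the coefficient `k - 1 + 1/k + 3/k^2`. -/
theorem concl_A {k c c' s D : ℝ} (hk : 3 ≤ k)
    (hc : c = (k ^ 3 - k ^ 2 + k + 3) / k ^ 2)
    (hc' : c' = (k ^ 3 + 2 * k ^ 2 + 2 * k + 4) / (k + 1) ^ 2)
    (hs0 : 0 < s) (hD0 : 0 ≤ D) (hsDk : s + D ≤ k) (hDl : D < k - c)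
    (hL1 : 1 < s → (s ^ 2 - 1) * (s + D) ^ 2 ≤ D * (s * (s ^ 2 * k + (2 * s + 1) * k)))
    (hL2 : 1 < s → (s ^ 2 - 1) * (s + D) ^ 2 ≤
      D * (s * (s ^ 2 * k + (2 * s + 1) * (s + (k - c))))) :
    Concl k c c' s D := by
  have hk0 : 0 < k := by linarith
  have hk2 : 0 < k ^ 2 := by positivity
  have hK2 : 0 < (k + 1) ^ 2 := by positivity
  have hcn : 0 < k ^ 3 - k ^ 2 + k + 3 := by nlinarith [mul_pos hk0 hk0]
  have hc0 : 0 < c := by rw [hc]; positivity
  have hck2 : c * k ^ 2 = k ^ 3 - k ^ 2 + k + 3 := by rw [hc]; field_simp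
  have hlam : k - c = (k ^ 2 - k - 3) / k ^ 2 := by
    rw [hc]; field_simp; ring
  have hlam0 : 0 < k - c := by
    rw [hlam]; apply div_pos _ hk2; nlinarith
  have hlam1 : k - c < 1 := by
    rw [hlam, div_lt_one hk2]; nlinarith
  have hg : c' - c = (k ^ 4 + 2 * k ^ 3 - 7 * k - 3) / (k ^ 2 * (k + 1) ^ 2) := by
    rw [hc, hc']; field_simp; ring
  have hgpos : 0 < c' - c := by
    rw [hg]; apply div_pos _ (by positivity)
    nlinarith [mul_pos hk0 hk0, mul_pos (mul_pos hk0 hk0) hk0, pow_pos hk0 4]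
  have ha : 2 * c - c' = (k ^ 5 - 2 * k ^ 3 + 4 * k ^ 2 + 14 * k + 6) /
      (k ^ 2 * (k + 1) ^ 2) := by
    rw [hc, hc']; field_simp; ring
  have hch : c * (c' - k) = ((k ^ 3 - k ^ 2 + k + 3) * (k + 4)) / (k ^ 2 * (k + 1) ^ 2) := by
    rw [hc, hc']; field_simp; ring
  have hapos : 0 < 2 * c - c' := by
    rw [ha]; apply div_pos _ (by positivity)
    have : 0 ≤ k ^ 3 * (k ^ 2 - 2) := by
      apply mul_nonneg (by positivity); nlinarith
    nlinarith
  have hh : 0 < c' - k := by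
    have : c' - k = (k + 4) / (k + 1) ^ 2 := by
      rw [hc']; field_simp; ring
    rw [this]; positivity
  have hcge : k - 1 ≤ c := by linarith
  -- star condition
  have hstar : c' - c ≤ c * (c' - k) := by
    rw [hg, hch]
    apply div_le_div_of_nonneg_right _ (by positivity)
    nlinarith [mul_pos hk0 hk0, mul_pos (mul_pos hk0 hk0) hk0]
  -- s ≤ c
  have hsc : s ≤ c := by
    by_contra hlt
    push Not at hlt
    have hs2 : 2 < s := by linarith
    have h1 := hL1 (by linarith)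
    have h2 : D * (s * (s ^ 2 * k + (2 * s + 1) * k)) = (s + 1) * (D * (s * k * (s + 1))) := by
      ring
    have h3 : (s ^ 2 - 1) * (s + D) ^ 2 = (s + 1) * ((s - 1) * (s + D) ^ 2) := by ring
    rw [h2, h3] at h1
    have h4 : (s - 1) * (s + D) ^ 2 ≤ D * (s * k * (s + 1)) :=
      le_of_mul_le_mul_left h1 (by linarith)
    -- compare with u = k
    have hs_lt_k : s ≤ k := by linarith
    set v := k - (s + D) with hv
    have hv0 : 0 ≤ v := by linarith
    have h5 : D * (s * k * (s + 1)) - (s - 1) * (s + D) ^ 2 =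
        k * (s * (s + 1) * (k - s) - (s - 1) * k) -
          v * (s * k * (s + 1) - (s - 1) * (k + (s + D))) := by
      rw [hv]; ring
    have h6 : 0 ≤ s * k * (s + 1) - (s - 1) * (k + (s + D)) := by
      have h7 : (s - 1) * (k + (s + D)) ≤ (s - 1) * (2 * k) :=
        mul_le_mul_of_nonneg_left (by linarith) (by linarith)
      have h8 : (s - 1) * (2 * k) ≤ s * k * (s + 1) := by nlinarith [mul_pos hk0 hs0]
      linarith
    have h7 : s * (s + 1) * (k - s) - (s - 1) * k = k - (1 - k + s) * s ^ 2 := by ring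
    have h8 : k < (1 - k + s) * s ^ 2 := by
      have h9 : (1 - k + c) * c ^ 2 < (1 - k + s) * s ^ 2 := by
        have h10 : 0 < 1 - k + c := by linarith
        have h11 : c ^ 2 < s ^ 2 := by nlinarith
        calc (1 - k + c) * c ^ 2 < (1 - k + c) * s ^ 2 := mul_lt_mul_of_pos_left h11 h10
          _ ≤ (1 - k + s) * s ^ 2 := by
              apply mul_le_mul_of_nonneg_right _ (by positivity)
              linarith
      have h12 : k ≤ (1 - k + c) * c ^ 2 := by
        have h13 : (1 - k + c) * c ^ 2 = (k + 3) * (k ^ 3 - k ^ 2 + k + 3) ^ 2 / k ^ 6 := by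
          rw [hc]; field_simp; ring
        rw [h13, le_div_iff₀ (by positivity)]
        obtain ⟨m, hm⟩ : ∃ m, m = k - 3 := ⟨_, rfl⟩
        have hm0 : 0 ≤ m := by linarith
        have hk' : k = m + 3 := by linarith
        have key : (k + 3) * (k ^ 3 - k ^ 2 + k + 3) ^ 2 - k * k ^ 6 =
            m ^ 6 + 15 * m ^ 5 + 103 * m ^ 4 + 433 * m ^ 3 + 1161 * m ^ 2 + 1809 * m + 1269 := by
          rw [hk']; ring
        have key2 : 0 ≤ m ^ 6 + 15 * m ^ 5 + 103 * m ^ 4 + 433 * m ^ 3 + 1161 * m ^ 2 +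
            1809 * m + 1269 := by positivity
        linarith
      linarith
    have h9 : k * (s * (s + 1) * (k - s) - (s - 1) * k) < 0 := by
      rw [h7]
      apply mul_neg_of_pos_of_neg hk0
      linarith
    have h10 : 0 ≤ v * (s * k * (s + 1) - (s - 1) * (k + (s + D))) := mul_nonneg hv0 h6
    linarith
  refine ⟨hsc, ?_⟩
  by_cases hA : (c' - c) * s ≤ c * (c' - k)
  · exact Or.inl hA
  right
  push Not at hA
  have hs1 : 1 < s := by
    by_contra hn
    push Not at hn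
    have : (c' - c) * s ≤ (c' - c) * 1 := mul_le_mul_of_nonneg_left hn hgpos.le
    linarith
  have hL := hL2 hs1
  rcases le_or_gt s 2 with hs2 | hs2
  · -- small s
    set den := k * s ^ 2 + (1 + 2 * (k - c)) * s + (k - c) + 2 with hden
    have hden0 : 0 < den := by
      have : 0 < (1 + 2 * (k - c)) * s := by positivity
      positivity
    have hDden : s * (s ^ 2 - 1) ≤ D * den := by
      have h1 : 0 ≤ (s ^ 2 - 1) * D ^ 2 := mul_nonneg (by nlinarith) (sq_nonneg _)
      have h2 : D * (s * (s ^ 2 * k + (2 * s + 1) * (s + (k - c)))) - (s ^ 2 - 1) * (s + D) ^ 2 =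
          s * (D * den - s * (s ^ 2 - 1)) - (s ^ 2 - 1) * D ^ 2 := by
        rw [hden]; ring
      have h3 : 0 ≤ s * (D * den - s * (s ^ 2 - 1)) := by linarith
      have := nonneg_of_mul_nonneg_right h3 hs0
      linarith
    have hP1 := P1_nonneg hk hs1.le hs2
    have hP2 := P2_nonneg hk hs1.le hs2
    have e1 : (c * s * (s ^ 2 - 1) - ((c' - c) * s - c * (c' - k)) * den) *
        (k ^ 4 * (k + 1) ^ 2) =
        (k^3-k^2+k+3)*k^2*(k+1)^2*s*(s^2-1) - ((k^4+2*k^3-7*k-3)*s-((k^3-k^2+k+3)*(k+4)))*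
        (k^3*s^2+(3*k^2-2*k-6)*s+(3*k^2-k-3)) := by
      rw [hden, hlam, hg, hch, hc]
      field_simp
      ring
    have e2 : (s ^ 2 * (s ^ 2 - 1) * (2 * c * (k - c) + (2 * c - c') * (c - s)) -
        2 * (k - c) * c * ((c' - c) * s - c * (c' - k)) * den) * (k ^ 8 * (k + 1) ^ 2) =
        s^2*(s^2-1)*(2*(k^3-k^2+k+3)*(k^2-k-3)*(k+1)^2+(k^5-2*k^3+4*k^2+14*k+6)*
        ((k^3-k^2+k+3)-k^2*s))*k^4 - 2*(k^2-k-3)*(k^3-k^2+k+3)*
        ((k^4+2*k^3-7*k-3)*s-((k^3-k^2+k+3)*(k+4)))*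
        (k^3*s^2+(3*k^2-2*k-6)*s+(3*k^2-k-3)) := by
      rw [hden, hlam, ha, hg, hch, hc]
      field_simp
      ring
    have f1 : ((c' - c) * s - c * (c' - k)) * den ≤ c * s * (s ^ 2 - 1) := by
      have h1 : 0 ≤ (c * s * (s ^ 2 - 1) - ((c' - c) * s - c * (c' - k)) * den) *
        (k ^ 4 * (k + 1) ^ 2) := by rw [e1]; exact hP1
      have h2 := nonneg_of_mul_nonneg_left h1 (by positivity)
      linarith
    have f2 : 2 * (k - c) * c * ((c' - c) * s - c * (c' - k)) * den ≤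
        s ^ 2 * (s ^ 2 - 1) * (2 * c * (k - c) + (2 * c - c') * (c - s)) := by
      have h1 : 0 ≤ (s ^ 2 * (s ^ 2 - 1) * (2 * c * (k - c) + (2 * c - c') * (c - s)) -
        2 * (k - c) * c * ((c' - c) * s - c * (c' - k)) * den) * (k ^ 8 * (k + 1) ^ 2) := by
        rw [e2]; exact hP2
      have h2 := nonneg_of_mul_nonneg_left h1 (by positivity)
      linarith
    rcases le_or_gt (2 * c * (k - c)) ((2 * c - c') * s) with hcase | hcase
    · left
      refine ⟨hcase, ?_⟩
      have h1 : ((c' - c) * s - c * (c' - k)) * den ≤ (c * D) * den := by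
        have h2 : c * (s * (s ^ 2 - 1)) ≤ c * (D * den) := mul_le_mul_of_nonneg_left hDden hc0.le
        calc ((c' - c) * s - c * (c' - k)) * den ≤ c * s * (s ^ 2 - 1) := f1
          _ = c * (s * (s ^ 2 - 1)) := by ring
          _ ≤ c * (D * den) := h2
          _ = (c * D) * den := by ring
      have h3 := le_of_mul_le_mul_right h1 hden0
      linarith
    · right
      refine ⟨hcase.le, ?_⟩
      have hM : 0 ≤ 2 * c * (k - c) + (2 * c - c') * (c - s) := by
        have : 0 ≤ (2 * c - c') * (c - s) := mul_nonneg hapos.le (by linarith)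
        have : 0 < 2 * c * (k - c) := by positivity
        linarith
      have h1 : (2 * (k - c) * c * ((c' - c) * s - c * (c' - k))) * den ≤
          (D * s * (2 * c * (k - c) + (2 * c - c') * (c - s))) * den := by
        have h2 : (s * (2 * c * (k - c) + (2 * c - c') * (c - s))) * (s * (s ^ 2 - 1)) ≤
            (s * (2 * c * (k - c) + (2 * c - c') * (c - s))) * (D * den) :=
          mul_le_mul_of_nonneg_left hDden (mul_nonneg hs0.le hM)
        calc (2 * (k - c) * c * ((c' - c) * s - c * (c' - k))) * den =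
              2 * (k - c) * c * ((c' - c) * s - c * (c' - k)) * den := by ring
          _ ≤ s ^ 2 * (s ^ 2 - 1) * (2 * c * (k - c) + (2 * c - c') * (c - s)) := f2
          _ = (s * (2 * c * (k - c) + (2 * c - c') * (c - s))) * (s * (s ^ 2 - 1)) := by ring
          _ ≤ (s * (2 * c * (k - c) + (2 * c - c') * (c - s))) * (D * den) := h2
          _ = (D * s * (2 * c * (k - c) + (2 * c - c') * (c - s))) * den := by ring
      exact le_of_mul_le_mul_right h1 hden0
  · -- s > 2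
    left
    have hcl : (k - c) * c ≤ 2 * c - c' := by
      have : 2 * c - c' - (k - c) * c =
          (2*k^5 + 3*k^4 + 11*k^3 + 22*k^2 + 24*k + 9) / (k ^ 4 * (k + 1) ^ 2) := by
        rw [hc, hc']
        field_simp
        ring
      have h2 : 0 ≤ (2*k^5 + 3*k^4 + 11*k^3 + 22*k^2 + 24*k + 9) / (k ^ 4 * (k + 1) ^ 2) := by
        positivity
      linarith
    have hcase : 2 * c * (k - c) ≤ (2 * c - c') * s := by
      have h1 : (2 * c - c') * 2 ≤ (2 * c - c') * s := mul_le_mul_of_nonneg_left hs2.le hapos.le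
      linarith
    refine ⟨hcase, ?_⟩
    by_contra hlt
    push Not at hlt
    have hsk : s ≤ k - 1/3 := by
      have : c ≤ k - 1/3 := by
        have h1 : (1:ℝ)/3 ≤ k - c := by
          rw [hlam, div_le_div_iff₀ (by norm_num) hk2]; nlinarith
        linarith
      linarith
    have hP3 := P3_nonneg hk hs2.le hsk
    set Q := s * (s ^ 2 * k + (2 * s + 1) * (s + (k - c))) with hQ
    have e3 : ((s ^ 2 - 1) * (c * s + ((c' - c) * s - c * (c' - k))) ^ 2 -
        c * ((c' - c) * s - c * (c' - k)) * Q) * (k ^ 6 * (k + 1) ^ 4) =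
        (s^2-1)*((k^3+2*k^2+2*k+4)*k^2*s-((k^3-k^2+k+3)*(k+4)))^2*k^2 -
        (k^3-k^2+k+3)*((k^4+2*k^3-7*k-3)*s-((k^3-k^2+k+3)*(k+4)))*s*
        (s^2*(k+2)*k^2+(3*k^2-2*k-6)*s+(k^2-k-3))*(k+1)^2 := by
      rw [hQ, hlam, hg, hch, hc]
      field_simp
      ring
    have f3 : c * ((c' - c) * s - c * (c' - k)) * Q ≤
        (s ^ 2 - 1) * (c * s + ((c' - c) * s - c * (c' - k))) ^ 2 := by
      have h1 : 0 ≤ ((s ^ 2 - 1) * (c * s + ((c' - c) * s - c * (c' - k))) ^ 2 -
        c * ((c' - c) * s - c * (c' - k)) * Q) * (k ^ 6 * (k + 1) ^ 4) := by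
        rw [e3]; exact hP3
      have h2 := nonneg_of_mul_nonneg_left h1 (by positivity)
      linarith
    set n := ((c' - c) * s - c * (c' - k)) / c with hn
    have hcn' : (c' - c) * s - c * (c' - k) = c * n := by rw [hn]; field_simp
    have hDn : D < n := by
      rw [hn, lt_div_iff₀ hc0]; linarith
    have hn1 : n ≤ k - c := by
      rw [hn, div_le_iff₀ hc0]
      have : (c' - c) * s ≤ (c' - c) * c := mul_le_mul_of_nonneg_left hsc hgpos.le
      linarith
    rw [hcn'] at f3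
    have f4 : n * Q ≤ (s ^ 2 - 1) * (s + n) ^ 2 := by
      have h1 : c * (c * n) * Q = c ^ 2 * (n * Q) := by ring
      have h2 : (s ^ 2 - 1) * (c * s + c * n) ^ 2 = c ^ 2 * ((s ^ 2 - 1) * (s + n) ^ 2) := by ring
      rw [h1, h2] at f3
      exact le_of_mul_le_mul_left f3 (by positivity)
    exact no_small_D hk hs2 (by linarith) (by linarith) hDn hn1 f4 hL

end H4.FKS
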