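import Mathlib
import Pool.Agent.H4.FKS.NumA
import Pool.Agent.H4.FKS.KTwo
import Pool.Agent.H4.FKS.Final

/-!
# The coefficient `k - 1 + 1/k + 3/k^2`
-/

set_option autoImplicit false
set_option linter.unusedSectionVars false
set_option linter.unusedVariables false

namespace H4.FKS

open Finset

/-- The coefficient: `1` for size one, `8/5` for size two and `k - 1 + 1/k + 3/k^2` otherwise. -/
noncomputable def gA (k : ℕ) : ℝ :=
  if k = 1 then 1 else if k = 2 then 8 / 5 else (k : ℝ) - 1 + 1 / k + 3 / (k : ℝ) ^ 2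

theorem gA_one : gA 1 = 1 := by simp [gA]

theorem gA_two : gA 2 = 8 / 5 := by simp [gA]

theorem gA_three : gA 3 = 8 / 3 := by
  simp [gA]; norm_num

theorem gA_eq {k : ℕ} (hk : 3 ≤ k) : gA k = (k : ℝ) - 1 + 1 / k + 3 / (k : ℝ) ^ 2 := by
  unfold gA
  rw [if_neg (by omega), if_neg (by omega)]

theorem gA_pos {k : ℕ} (hk : 1 ≤ k) : 0 < gA k := by
  rcases hk.eq_or_lt with h | h
  · rw [← h, gA_one]; norm_num
  rcases (Nat.succ_le_of_lt h).eq_or_lt with h2 | h2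
  · rw [← h2, gA_two]; norm_num
  rw [gA_eq h2]
  have h3 : (3 : ℝ) ≤ k := by exact_mod_cast h2
  have : 0 < 1 / (k : ℝ) := by positivity
  have : 0 < 3 / (k : ℝ) ^ 2 := by positivity
  linarith

theorem gA_step {k : ℕ} (hk : 2 ≤ k) : gA k ≤ gA (k + 1) := by
  rcases hk.eq_or_lt with h | h
  · rw [← h, gA_two, gA_three]; norm_num
  · have h3 : (3 : ℝ) ≤ k := by exact_mod_cast h
    have hk0 : (0 : ℝ) < k := by linarith
    rw [gA_eq h, gA_eq (by omega)]
    push_cast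
    have h4 : 1 / (k : ℝ) ≤ 1 / 3 := by
      rw [div_le_div_iff₀ hk0 (by norm_num)]; linarith
    have h5 : 3 / (k : ℝ) ^ 2 ≤ 1 / 3 := by
      rw [div_le_div_iff₀ (by positivity) (by norm_num)]; nlinarith
    have h6 : 0 < 1 / ((k : ℝ) + 1) := by positivity
    have h7 : 0 < 3 / ((k : ℝ) + 1) ^ 2 := by positivity
    linarith

theorem gA_mono {k j : ℕ} (hk : 2 ≤ k) (hj : k ≤ j) : gA k ≤ gA j := by
  induction j, hj using Nat.le_induction with
  | base => exact le_rfl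
  | succ n hn ih => exact ih.trans (gA_step (by omega))

theorem gA_gap {k : ℕ} (hk : 1 ≤ k) :
    gA k < gA (k + 1) ∧ gA (k + 1) ≤ 2 * gA k ∧ (k : ℝ) < gA (k + 1) := by
  rcases hk.eq_or_lt with h | h
  · rw [← h, gA_one, gA_two]; norm_num
  rcases (Nat.succ_le_of_lt h).eq_or_lt with h2 | h2
  · rw [← h2]; simp only [Nat.succ_eq_add_one, Nat.reduceAdd]
    rw [gA_two, gA_three]; norm_num
  · have h2' : 3 ≤ k := h2
    have h3 : (3 : ℝ) ≤ k := by exact_mod_cast h2'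
    have hk0 : (0 : ℝ) < k := by linarith
    rw [gA_eq h2', gA_eq (by omega)]
    push_cast
    have h4 : 1 / (k : ℝ) ≤ 1 / 3 := by
      rw [div_le_div_iff₀ hk0 (by norm_num)]; linarith
    have h5 : 3 / (k : ℝ) ^ 2 ≤ 1 / 3 := by
      rw [div_le_div_iff₀ (by positivity) (by norm_num)]; nlinarith
    have h6 : 0 < 1 / ((k : ℝ) + 1) := by positivity
    have h7 : 0 < 3 / ((k : ℝ) + 1) ^ 2 := by positivity
    have h8 : 1 / ((k : ℝ) + 1) ≤ 1 / k := by
      rw [div_le_div_iff₀ (by positivity) hk0]; linarith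
    have h9 : 3 / ((k : ℝ) + 1) ^ 2 ≤ 3 / (k : ℝ) ^ 2 := by
      apply div_le_div_of_nonneg_left (by norm_num) (by positivity)
      apply pow_le_pow_left₀ hk0.le; linarith
    have h10 : 0 < 1 / (k : ℝ) := by positivity
    have h11 : 0 < 3 / (k : ℝ) ^ 2 := by positivity
    refine ⟨by linarith, by linarith, by linarith⟩

theorem cliqueOK_A3 {k : ℕ} (hk : 3 ≤ k) : CliqueOK k (gA k) (gA (k + 1)) := by
  obtain ⟨g1, g2, g3⟩ := gA_gap (show 1 ≤ k by omega)
  have h3 : (3 : ℝ) ≤ k := by exact_mod_cast hk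
  have hk0 : (0 : ℝ) < k := by linarith
  have hc : gA k = ((k : ℝ) ^ 3 - (k : ℝ) ^ 2 + k + 3) / (k : ℝ) ^ 2 := by
    rw [gA_eq hk]; field_simp
  have hc' : gA (k + 1) = ((k : ℝ) ^ 3 + 2 * (k : ℝ) ^ 2 + 2 * k + 4) / ((k : ℝ) + 1) ^ 2 := by
    rw [gA_eq (by omega)]; push_cast; field_simp; ring
  have hle : gA k ≤ k := by
    rw [gA_eq hk]
    have h4 : 1 / (k : ℝ) ≤ 1 / 3 := by
      rw [div_le_div_iff₀ hk0 (by norm_num)]; linarith
    have h5 : 3 / (k : ℝ) ^ 2 ≤ 1 / 3 := by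
      rw [div_le_div_iff₀ (by positivity) (by norm_num)]; nlinarith
    linarith
  apply cliqueOK_of (gA_pos (by omega)) g1 g2 g3 hle
  intro V E _ _ _ H x C s D hk' hx hint hd hs hD hs0 hD0 hsD hexc hDl hsk
  apply concl_A h3 hc hc' hs0 hD0 hsD hDl
  · intro h1
    exact trace_L0 H x C hk' (fun f hf => (hx f hf).le) hint hd h1 hD0 hs hD hsk
  · intro h1
    exact trace_L0 H x C hk' (fun f hf => (hx f hf).le) hint hd h1 hD0 hs hD
      (fun f hf => by have := hexc f hf; linarith)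

theorem cliqueOK_A {k : ℕ} (hk : 1 ≤ k) : CliqueOK k (gA k) (gA (k + 1)) := by
  rcases hk.eq_or_lt with h | h
  · rw [← h, gA_one, gA_two]
    exact cliqueOK_one (by norm_num) (by norm_num)
  rcases (Nat.succ_le_of_lt h).eq_or_lt with h2 | h2
  · rw [← h2]; simp only [Nat.succ_eq_add_one, Nat.reduceAdd]
    rw [gA_two, gA_three]
    exact cliqueOK_two_A
  · exact cliqueOK_A3 h2

theorem real_A {V E : Type} [Fintype V] [DecidableEq V] [DecidableEq E] [Fintype E]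
    {H : E → Finset V} (hne : ∀ e, (H e).Nonempty) {x : E → ℝ}
    (hx : ∀ e, 0 ≤ x e) (hdeg : ∀ v, ∑ f with v ∈ H f, x f ≤ 1) (R : Finset E) :
    Real (fun e f => ¬ Disjoint (H e) (H f)) R (fun e => x e / gA (H e).card) := by
  have h1 : ∀ e, 1 ≤ (H e).card := fun e => card_pos.2 (hne e)
  exact real_single hne hx hdeg (cf := gA) (cp := fun k => gA (k + 1))
    (fun e => gA_pos (h1 e)) (fun e => gA_gap (h1 e))
    (fun e f hef => gA_mono (by have := h1 e; omega) hef) (fun e => cliqueOK_A (h1 e)) R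

theorem coloring_A {V E : Type} [Fintype V] [DecidableEq V] [Fintype E] [DecidableEq E]
    (H : E → Finset V) (hne : ∀ e, (H e).Nonempty) :
    ∃ w : Finset E → ℝ, (∀ M, 0 ≤ w M) ∧
      (∀ M, w M ≠ 0 → ∀ e ∈ M, ∀ f ∈ M, e ≠ f → Disjoint (H e) (H f)) ∧
      (∀ e, 1 ≤ ∑ M with e ∈ M, w M) ∧
      ∑ M, w M ≤ ⨆ v : V, ∑ e with v ∈ H e, gA (H e).card :=
  coloring_of_real H hne (fun e => gA_pos (card_pos.2 (hne e)))
    (fun x hx hdeg => real_A hne hx hdeg univ)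

end H4.FKS
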