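import Mathlib
import Pool.Agent.H34.FKS.StepOwn

/-!
# Star cliques, with transfer of the inflation

The inflation `κ` of the star itself is averaged over the star: `η e = θ (x e / c) (K / X - κ e)`
has sum zero.
-/

set_option autoImplicit false
set_option linter.unusedSectionVars false
set_option linter.unusedVariables false

namespace H4.FKS

open Finset H34.FKS

/-- An affine inequality on an interval. -/
theorem affine_mid {A B P Q D Db : ℝ} (h0 : A ≤ P) (h1 : A + B * Db ≤ P + Q * Db)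
    (hD : 0 ≤ D) (hDb : D ≤ Db) : A + B * D ≤ P + Q * D := by
  rcases hD.eq_or_lt with h | h
  · rw [← h]; linarith
  have hDb0 : 0 < Db := h.trans_le hDb
  have h2 : 0 ≤ (P - A) * (Db - D) := mul_nonneg (by linarith) (by linarith)
  have h3 : 0 ≤ (P + Q * Db - (A + B * Db)) * D := mul_nonneg (by linarith) hD
  have h4 : 0 ≤ (P + Q * D - (A + B * D)) * Db := by nlinarith
  have h5 : 0 ≤ P + Q * D - (A + B * D) := by
    by_contra hneg
    push Not at hneg
    nlinarith
  linarith

/-- **Star cliques with transfer.** -/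
theorem star_bound_transfer {E : Type*} {S : Finset E} {x κ z Hh L : E → ℝ} {orph : E → Prop}
    {c δ θ X K Db a : ℝ} (hc : 0 < c) (hδ : 0 ≤ δ) (hθ : 0 ≤ θ)
    (hx : ∀ e ∈ S, 0 ≤ x e) (hX : X = ∑ e ∈ S, x e) (hX0 : 0 < X)
    (hK : K = ∑ e ∈ S, κ e * x e) (ha : a = (1 + δ) * X / c)
    (hκ : ∀ e ∈ S, 0 ≤ κ e) (hz : ∀ e ∈ S, 0 ≤ z e ∧ z e ≤ 1)
    (hDb : ∑ f ∈ S, z f * (x f / c) ≤ Db) (hH : ∀ e ∈ S, 0 < Hh e)
    (hzle : ∀ e ∈ S, x e ≠ 0 → ¬ orph e →
      ((1 + κ e) * a - (1 + θ * (K / X - κ e)) * Hh e + κ e * (1 + θ) * Db) / (a + Hh e) ≤ z e)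
    (horph : ∀ e ∈ S, ∀ f ∈ S, x e ≠ 0 → x f ≠ 0 → orph e → orph f → e = f)
    (horph0 : ∀ e ∈ S, x e ≠ 0 → orph e →
      (1 + κ e) * x e * a ≤ (x e + δ * X + θ * x e * (K / X - κ e)) * Hh e)
    (horph1 : ∀ e ∈ S, x e ≠ 0 → orph e →
      (1 + κ e) * x e * (a + Db) ≤ (x e + δ * X + θ * x e * (K / X - κ e)) * (Hh e + Db))
    (hL : ∀ e ∈ S, Hh e + ∑ f ∈ S, z f * (x f / c) ≤ L e) :
    ∑ e ∈ S, (1 + κ e - z e) * (x e / c) / L e ≤ 1 := by
  classical
  set D := ∑ f ∈ S, z f * (x f / c) with hD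
  have hxc : ∀ e ∈ S, 0 ≤ x e / c := fun e he => div_nonneg (hx e he) hc.le
  have hD0 : 0 ≤ D := sum_nonneg fun f hf => mul_nonneg (hz f hf).1 (hxc f hf)
  have ha0 : 0 < a := by
    rw [ha]
    exact div_pos (mul_pos (by linarith) hX0) hc
  have hK0 : 0 ≤ K := by
    rw [hK]
    exact sum_nonneg fun e he => mul_nonneg (hκ e he) (hx e he)
  have hKX : 0 ≤ K / X := div_nonneg hK0 hX0.le
  refine star_sum (y := fun e => x e / c) (yh := fun e => (1 + κ e) * (x e / c)) (h := Hh)
    (η := fun e => θ * (x e / c) * (K / X - κ e) +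
      if x e ≠ 0 ∧ orph e then δ * X / c else 0) (a := a) (D := D) (by linarith)
    ?_ ?_ ?_ hL ?_ ?_
  · rw [hD]
    refine sum_congr rfl fun e _ => ?_
    ring
  · intro e he
    exact mul_nonneg (by linarith [hκ e he, (hz e he).2]) (hxc e he)
  · intro e he
    linarith [hH e he]
  · intro e he
    have hκ0 := hκ e he
    obtain ⟨hz0, hz1⟩ := hz e he
    have hHe := hH e he
    have hxe := hxc e he
    have hHD : 0 < Hh e + D := by linarith
    by_cases hx0 : x e = 0
    · rw [hx0]
      simp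
    by_cases ho : orph e
    · rw [if_pos ⟨hx0, ho⟩]
      -- orphan
      have h0 := horph0 e he hx0 ho
      have h1 := horph1 e he hx0 ho
      have h2 : (1 + κ e) * x e * (a + D) ≤
          (x e + δ * X + θ * x e * (K / X - κ e)) * (Hh e + D) := by
        have := affine_mid (A := (1 + κ e) * x e * a) (B := (1 + κ e) * x e)
          (P := (x e + δ * X + θ * x e * (K / X - κ e)) * Hh e)
          (Q := x e + δ * X + θ * x e * (K / X - κ e)) (D := D) (Db := Db) h0
          (by linarith) hD0 hDb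
        linarith
      have h3 : 0 ≤ z e * (x e / c) := mul_nonneg hz0 hxe
      have h4 : (1 + κ e - z e) * (x e / c) * (a + D) ≤ (1 + κ e) * (x e / c) * (a + D) := by
        apply mul_le_mul_of_nonneg_right _ (by linarith)
        linarith
      have h5 : (1 + κ e) * (x e / c) * (a + D) ≤
          (x e + δ * X + θ * x e * (K / X - κ e)) * (Hh e + D) / c := by
        have e1 : (1 + κ e) * (x e / c) * (a + D) = (1 + κ e) * x e * (a + D) / c := by ring
        rw [e1]
        exact div_le_div_of_nonneg_right h2 hc.le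
      calc (1 + κ e - z e) * (x e / c) * (a + D)
          ≤ (x e + δ * X + θ * x e * (K / X - κ e)) * (Hh e + D) / c := h4.trans h5
        _ ≤ (x e + δ * X + θ * x e * (K / X - κ e)) * (Hh e + D) / c +
            z e * (x e / c) * (Hh e + D) := by
          have := mul_nonneg h3 hHD.le
          linarith
        _ = _ := by ring
    · rw [if_neg (fun h => ho h.2)]
      have h1 := hzle e he hx0 ho
      rw [div_le_iff₀ (by linarith)] at h1
      have h2 : (1 + κ e - z e) * (a + D) ≤
          (1 + z e + θ * (K / X - κ e)) * (Hh e + D) := by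
        have h3 : 0 ≤ z e * D := mul_nonneg hz0 hD0
        have h4 : κ e * (1 + θ) * D ≤ κ e * (1 + θ) * Db :=
          mul_le_mul_of_nonneg_left hDb (mul_nonneg hκ0 (by linarith))
        have h5 : 0 ≤ θ * (K / X) * D := mul_nonneg (mul_nonneg hθ hKX) hD0
        nlinarith
      have h3 := mul_le_mul_of_nonneg_left h2 hxe
      calc (1 + κ e - z e) * (x e / c) * (a + D) = x e / c * ((1 + κ e - z e) * (a + D)) := by
            ring
        _ ≤ x e / c * ((1 + z e + θ * (K / X - κ e)) * (Hh e + D)) := h3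
        _ = _ := by ring
  · have h0 : ∑ e ∈ S, θ * (x e / c) * (K / X - κ e) = 0 := by
      have h1 : ∀ e ∈ S, θ * (x e / c) * (K / X - κ e) =
          θ / c * (K / X) * x e - θ / c * (κ e * x e) := fun e _ => by ring
      rw [sum_congr rfl h1, sum_sub_distrib, ← mul_sum, ← mul_sum, ← hX, ← hK]
      field_simp
      ring
    rw [sum_add_distrib, sum_add_distrib, h0, ← sum_div, ← hX, ← sum_filter, sum_const,
      nsmul_eq_mul]
    have h1 : ((S.filter (fun e => x e ≠ 0 ∧ orph e)).card : ℝ) ≤ 1 := by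
      have : (S.filter (fun e => x e ≠ 0 ∧ orph e)).card ≤ 1 := by
        rw [card_le_one]
        intro e he f hf
        obtain ⟨he1, he2, he3⟩ := mem_filter.1 he
        obtain ⟨hf1, hf2, hf3⟩ := mem_filter.1 hf
        exact horph e he1 f hf1 he2 hf2 he3 hf3
      exact_mod_cast this
    have h2 := mul_le_mul_of_nonneg_right h1
      (div_nonneg (mul_nonneg hδ hX0.le) hc.le : 0 ≤ δ * X / c)
    rw [ha]
    have e1 : (1 + δ) * X / c = X / c + δ * X / c := by ring
    rw [e1]
    linarith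

end H4.FKS
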