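import Mathlib
import Pool.Agent.H4.FKS.StarT
import Pool.Agent.H34.FKS.NonStar2
import Pool.Agent.H76.FKS.ThreeDefs
import Pool.Agent.H90.FKS.TwoDefs

/-!
# Level three: the clique condition of the batch

`F` the edges of size three, `R'` the larger ones with demands `y1`.
-/

set_option autoImplicit false
set_option linter.unusedSectionVars false
set_option linter.unusedVariables false

namespace H4.FKS

open Finset H34.FKS H90.FKS H76.FKS

variable {V E : Type} [Fintype V] [DecidableEq V] [DecidableEq E] [Fintype E]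

/-- **Cliques, level three.** -/
theorem cliques_three {H : E → Finset V} {x : E → ℝ}
    (hx : ∀ e, 0 ≤ x e) (hdeg : ∀ v, ∑ f with v ∈ H f, x f ≤ 1) {rep : E → V}
    (hinj : ∀ e f, x e ≠ 0 → x f ≠ 0 → rep e = rep f → e = f) {F R' : Finset E}
    (hF : ∀ f ∈ F, (H f).card = 3) (hR' : ∀ f ∈ R', 3 < (H f).card) {y1 z s Hh : E → ℝ}
    (hy1C : ∀ f ∈ R', y1 f ≤ x f / (117 / 37))
    (hHh : ∀ e, Hh e = 2 * (1 - ∑ f ∈ R' with ¬ Disjoint (H e) (H f), y1 f) -
      ∑ f ∈ F with ¬ Disjoint (H e) (H f), (1 + kap3 H x f) * (x f / (7 / 3)))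
    (hs : ∀ e, s e = (1 + kap3 H x e - z e) * (x e / (7 / 3)))
    (hHpos : ∀ e ∈ F, 0 < Hh e) (hH1 : ∀ e ∈ F, Hh e ≤ 1)
    (hz : ∀ e ∈ F, 0 ≤ z e ∧ z e ≤ 7 / 40)
    (hzle : ∀ e ∈ F, x e ≠ 0 → ∀ v ∈ H e, v ≠ rep e →
      num (∑ f ∈ F with v ∈ H f, x f) (kap3 H x e) (∑ f ∈ F with v ∈ H f, kap3 H x f * x f)
        (7 / 3 * Hh e) ≤ z e * (av (∑ f ∈ F with v ∈ H f, x f) + 7 / 3 * Hh e))
    (horph : ∀ e ∈ F, x e ≠ 0 → ∀ v ∈ H e, v = rep e → ∀ X K : ℝ,
      X = ∑ f ∈ F with v ∈ H f, x f → K = ∑ f ∈ F with v ∈ H f, kap3 H x f * x f →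
      (1 + kap3 H x e) * x e * av X ≤
        (x e + 19 / 2000 * X + 2 * x e * (K / X - kap3 H x e)) * (7 / 3 * Hh e) ∧
      (1 + kap3 H x e) * x e * (av X + 7 / 40 * X) ≤
        (x e + 19 / 2000 * X + 2 * x e * (K / X - kap3 H x e)) * (7 / 3 * Hh e + 7 / 40 * X)) :
    ∀ C0 ⊆ F, (∀ a ∈ C0, 0 < s a) → (∀ a ∈ C0, ∀ b ∈ C0, ¬ Disjoint (H a) (H b)) →
      ∑ e ∈ C0, s e / (2 * (1 - ∑ f ∈ R' with ¬ Disjoint (H e) (H f), y1 f) -
        ∑ f ∈ F with ¬ Disjoint (H e) (H f), s f) ≤ 1 := by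
  classical
  intro C0 hC0F hC0s hC0c
  rcases C0.eq_empty_or_nonempty with rfl | hC0ne
  · simp
  have hc0 : (0 : ℝ) < 7 / 3 := by norm_num
  have hxc : ∀ e, 0 ≤ x e / (7 / 3) := fun e => div_nonneg (hx e) hc0.le
  have hκF : ∀ e ∈ F, 0 ≤ kap3 H x e ∧ kap3 H x e ≤ 69 / 931 := fun e he =>
    ⟨kap3_nonneg hx (hF e he), kap3_le hx (hF e he)⟩
  have hs0 : ∀ e ∈ F, 0 ≤ s e := by
    intro e he
    rw [hs e]
    exact mul_nonneg (by linarith [(hκF e he).1, (hz e he).2]) (hxc e)
  have hsle : ∀ e ∈ F, s e ≤ (1 + kap3 H x e) * (x e / (7 / 3)) := by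
    intro e he
    rw [hs e]
    exact mul_le_mul_of_nonneg_right (by linarith [(hz e he).1]) (hxc e)
  have hxpos : ∀ e ∈ C0, 0 < x e := by
    intro e he
    refine lt_of_le_of_ne (hx e) (fun h0 => ?_)
    have h1 := hC0s e he
    rw [hs e, ← h0, zero_div, mul_zero] at h1
    exact lt_irrefl _ h1
  have hLge : ∀ e ∈ F, Hh e ≤ 2 * (1 - ∑ f ∈ R' with ¬ Disjoint (H e) (H f), y1 f) -
      ∑ f ∈ F with ¬ Disjoint (H e) (H f), s f := by
    intro e he
    have : ∑ f ∈ F with ¬ Disjoint (H e) (H f), s f ≤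
        ∑ f ∈ F with ¬ Disjoint (H e) (H f), (1 + kap3 H x f) * (x f / (7 / 3)) :=
      sum_le_sum fun f hf => hsle f (mem_filter.1 hf).1
    rw [hHh e]
    linarith
  have hlam0 : ∀ e ∈ F, 0 ≤ s e / (2 * (1 - ∑ f ∈ R' with ¬ Disjoint (H e) (H f), y1 f) -
      ∑ f ∈ F with ¬ Disjoint (H e) (H f), s f) :=
    fun e he => div_nonneg (hs0 e he) ((hHpos e he).le.trans (hLge e he))
  by_cases hcen : ∃ v, ∀ f ∈ C0, v ∈ H f
  · -- star
    obtain ⟨v, hv⟩ := hcen
    set S := F.filter (fun f => v ∈ H f) with hS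
    have hSF : ∀ e ∈ S, e ∈ F ∧ v ∈ H e := fun e he => mem_filter.1 he
    have hsub : C0 ⊆ S := fun e he => mem_filter.2 ⟨hC0F he, hv e he⟩
    refine (sum_le_sum_of_subset_of_nonneg hsub
      (fun e he _ => hlam0 e (hSF e he).1)).trans ?_
    obtain ⟨e0, he0⟩ := hC0ne
    set X := ∑ f ∈ S, x f with hX
    set K := ∑ f ∈ S, kap3 H x f * x f with hK
    have hXpos : 0 < X := by
      refine lt_of_lt_of_le (hxpos e0 he0) ?_
      exact single_le_sum (f := x) (fun f _ => hx f) (hsub he0)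
    have key := star_bound_transfer (S := S) (orph := fun e => rep e = v) (Hh := Hh) (z := z)
      (κ := kap3 H x) (x := x) (X := X) (K := K) (a := (1 + 19 / 2000) * X / (7 / 3))
      (Db := 7 / 40 * X / (7 / 3)) (δ := 19 / 2000) (θ := 2) (c := 7 / 3)
      (L := fun e => 2 * (1 - ∑ f ∈ R' with ¬ Disjoint (H e) (H f), y1 f) -
        ∑ f ∈ F with ¬ Disjoint (H e) (H f), s f) hc0 (by norm_num) (by norm_num)
      (fun e _ => hx e) rfl hXpos rfl rfl (fun e he => (hκF e (hSF e he).1).1)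
      (fun e he => ⟨(hz e (hSF e he).1).1, by linarith [(hz e (hSF e he).1).2]⟩)
      ?_ (fun e he => hHpos e (hSF e he).1) ?_ ?_ ?_ ?_ ?_
    · refine le_trans (le_of_eq ?_) key
      refine sum_congr rfl fun e he => ?_
      rw [hs e]
    · -- deficit
      have h1 : ∑ f ∈ S, z f * (x f / (7 / 3)) ≤ ∑ f ∈ S, 7 / 40 * (x f / (7 / 3)) :=
        sum_le_sum fun f hf => mul_le_mul_of_nonneg_right (hz f (hSF f hf).1).2 (hxc f)
      refine h1.trans (le_of_eq ?_)
      rw [← mul_sum, ← sum_div, ← hX]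
      ring
    · -- thinning
      intro e he hxe ho
      obtain ⟨heF, hev⟩ := hSF e he
      have h1 := hzle e heF hxe v hev (fun h => ho h.symm)
      have hHe := hHpos e heF
      have hpos : 0 < (1 + 19 / 2000) * X / (7 / 3) + Hh e := by positivity
      rw [div_le_iff₀ hpos]
      change num X (kap3 H x e) K (7 / 3 * Hh e) ≤ z e * (av X + 7 / 3 * Hh e) at h1
      unfold num av at h1
      have e1 : (1 + kap3 H x e) * ((1 + 19 / 2000) * X / (7 / 3)) -
          (1 + 2 * (K / X - kap3 H x e)) * Hh e +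
          kap3 H x e * (1 + 2) * (7 / 40 * X / (7 / 3)) =
          3 / 7 * ((1 + kap3 H x e) * ((1 + 19 / 2000) * X) -
          (1 + 2 * (K / X - kap3 H x e)) * (7 / 3 * Hh e) +
          kap3 H x e * (1 + 2) * (7 / 40 * X)) := by ring
      have e2 : z e * ((1 + 19 / 2000) * X / (7 / 3) + Hh e) =
          3 / 7 * (z e * ((1 + 19 / 2000) * X + 7 / 3 * Hh e)) := by ring
      rw [e1, e2]
      linarith
    · intro e he f hf hxe hxf h11 h12
      exact hinj e f hxe hxf (h11.trans h12.symm)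
    · intro e he hxe ho
      obtain ⟨heF, hev⟩ := hSF e he
      have h1 := (horph e heF hxe v hev ho.symm X K rfl rfl).1
      unfold av at h1
      have e1 : (1 + kap3 H x e) * x e * ((1 + 19 / 2000) * X / (7 / 3)) =
          3 / 7 * ((1 + kap3 H x e) * x e * ((1 + 19 / 2000) * X)) := by ring
      have e2 : (x e + 19 / 2000 * X + 2 * x e * (K / X - kap3 H x e)) * Hh e =
          3 / 7 * ((x e + 19 / 2000 * X + 2 * x e * (K / X - kap3 H x e)) *
            (7 / 3 * Hh e)) := by ring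
      rw [e1, e2]
      linarith
    · intro e he hxe ho
      obtain ⟨heF, hev⟩ := hSF e he
      have h1 := (horph e heF hxe v hev ho.symm X K rfl rfl).2
      unfold av at h1
      have e1 : (1 + kap3 H x e) * x e *
          ((1 + 19 / 2000) * X / (7 / 3) + 7 / 40 * X / (7 / 3)) =
          3 / 7 * ((1 + kap3 H x e) * x e * ((1 + 19 / 2000) * X + 7 / 40 * X)) := by ring
      have e2 : (x e + 19 / 2000 * X + 2 * x e * (K / X - kap3 H x e)) *
          (Hh e + 7 / 40 * X / (7 / 3)) =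
          3 / 7 * ((x e + 19 / 2000 * X + 2 * x e * (K / X - kap3 H x e)) *
            (7 / 3 * Hh e + 7 / 40 * X)) := by ring
      rw [e1, e2]
      linarith
    · intro e he
      obtain ⟨heF, hev⟩ := hSF e he
      have h12 : ∑ f ∈ S, z f * (x f / (7 / 3)) ≤
          ∑ f ∈ F with ¬ Disjoint (H e) (H f), z f * (x f / (7 / 3)) := by
        apply sum_le_sum_of_subset_of_nonneg
        · intro f hf
          obtain ⟨hfF, hfv⟩ := hSF f hf
          exact mem_filter.2 ⟨hfF, not_disjoint_iff.2 ⟨v, hev, hfv⟩⟩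
        · intro f hf _
          exact mul_nonneg (hz f (mem_filter.1 hf).1).1 (hxc f)
      have h13 : ∑ f ∈ F with ¬ Disjoint (H e) (H f), s f +
          ∑ f ∈ F with ¬ Disjoint (H e) (H f), z f * (x f / (7 / 3)) =
          ∑ f ∈ F with ¬ Disjoint (H e) (H f), (1 + kap3 H x f) * (x f / (7 / 3)) := by
        rw [← sum_add_distrib]
        refine sum_congr rfl fun f _ => ?_
        rw [hs f]
        ring
      rw [hHh e]
      linarith
  · -- no common vertex
    push Not at hcen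
    have h11 : ∀ e ∈ C0, s e / (2 * (1 - ∑ f ∈ R' with ¬ Disjoint (H e) (H f), y1 f) -
        ∑ f ∈ F with ¬ Disjoint (H e) (H f), s f) ≤
        (1 + kap3 H x e) * (x e / (7 / 3)) / Hh e := by
      intro e he
      have heF := hC0F he
      exact div_le_div₀ (mul_nonneg (by linarith [(hκF e heF).1]) (hxc e)) (hsle e heF)
        (hHpos e heF) (hLge e heF)
    refine (sum_le_sum h11).trans ?_
    refine nonstar_inflated (H := H) (C := C0) (k := 3) (c := 7 / 3) (cc := 117 / 37)
      (ρ := 280 / 931) (κm := 69 / 931) (pm := 2 / 5)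
      (τ := 1 + 69 / 931 / (4 * (2 / 5))) (y := fun e => x e / (7 / 3))
      (h := Hh) (κ := kap3 H x) (b := bsm H x 3) (by norm_num) (by norm_num) (by norm_num)
      (by norm_num) (by norm_num) (by norm_num) rfl (by norm_num) (by norm_num) (by norm_num)
      (fun f hf => (hF f (hC0F hf)).le) hC0c hcen
      (fun f hf => div_pos (hxpos f hf) hc0) (fun f hf => hHpos f (hC0F hf))
      (fun f hf => hH1 f (hC0F hf)) (fun f hf => (hκF f (hC0F hf)).1)
      (fun f hf => (hκF f (hC0F hf)).2) (fun f _ => bsm_nonneg hx 3 f)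
      (fun f hf => ?_) ?_
    · refine (kap3_le_mul hx (hF f (hC0F hf))).trans ?_
      exact mul_le_mul_of_nonneg_left (sum_a2_le hx f) (by norm_num)
    · intro f hf
      have hfF := hC0F hf
      have h12 := head_lower hx hdeg (c := 7 / 3) (C := 117 / 37) (c2 := 117 / 37) (k := 3)
        (by norm_num) le_rfl hF hR' hy1C (hF f hfF) (κ := kap3 H x) (T := ∅) (empty_subset _)
        (by simp)
      rw [sum_empty, mul_zero, add_zero, ← hHh f] at h12
      refine le_trans ?_ h12
      have h13 : ∑ g' ∈ C0, x g' / (7 / 3) *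
          (2 * (7 / 3) / (117 / 37) * ((H f ∩ H g').card : ℝ) - 1 - kap3 H x g') ≤
          ∑ g' ∈ F with ¬ Disjoint (H f) (H g'), x g' *
            (2 / (117 / 37) * ((H f ∩ H g').card : ℝ) - (1 + kap3 H x g') / (7 / 3)) := by
        have h14 : ∀ g' ∈ F, ¬ Disjoint (H f) (H g') →
            x g' / (7 / 3) *
              (2 * (7 / 3) / (117 / 37) * ((H f ∩ H g').card : ℝ) - 1 - kap3 H x g') =
            x g' * (2 / (117 / 37) * ((H f ∩ H g').card : ℝ) -
              (1 + kap3 H x g') / (7 / 3)) ∧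
            0 ≤ x g' * (2 / (117 / 37) * ((H f ∩ H g').card : ℝ) -
              (1 + kap3 H x g') / (7 / 3)) := by
          intro g' hg' hd
          constructor
          · ring
          · apply mul_nonneg (hx g')
            have h15 := one_le_inter hd
            have h16 := (hκF g' hg').2
            have e1 : (1 + kap3 H x g') / (7 / 3) = 3 / 7 * (1 + kap3 H x g') := by ring
            have e2 : 2 / (117 / 37) * ((H f ∩ H g').card : ℝ) =
                74 / 117 * ((H f ∩ H g').card : ℝ) := by ring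
            rw [e1, e2]
            linarith
        rw [sum_congr rfl fun g' hg' => (h14 g' (hC0F hg') (hC0c f hf g' hg')).1]
        apply sum_le_sum_of_subset_of_nonneg
        · intro g' hg'
          exact mem_filter.2 ⟨hC0F hg', hC0c f hf g' hg'⟩
        · intro g' hg' _
          exact (h14 g' (mem_filter.1 hg').1 (mem_filter.1 hg').2).2
      push_cast
      linarith

end H4.FKS
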