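import Mathlib
import Pool.Agent.H4.FKS.ThreeClique
import Pool.Agent.H70.FKS.CliqueDefs
import Pool.Agent.H76.FKS.ThreeNum

/-!
# Level three: the clique condition of the batch, final form
-/

set_option autoImplicit false
set_option linter.unusedSectionVars false
set_option linter.unusedVariables false

namespace H4.FKS

open Finset H34.FKS H90.FKS H76.FKS H70.FKS

/-- The head is positive. -/
theorem Hh3_pos {V E : Type} [Fintype V] [DecidableEq V] [DecidableEq E] [Fintype E]
    {H : E → Finset V} {x : E → ℝ} (hx : ∀ e, 0 ≤ x e) (hdeg : ∀ v, ∑ f with v ∈ H f, x f ≤ 1)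
    {F R' : Finset E} (hF : ∀ f ∈ F, (H f).card = 3) (hR' : ∀ f ∈ R', 3 < (H f).card)
    {y1 : E → ℝ} (hy1C : ∀ f ∈ R', y1 f ≤ x f / (117 / 37)) {e : E} (he : e ∈ F) :
    0 < Hh3 H x F R' y1 e := by
  classical
  have h12 := head_lower hx hdeg (c := 7 / 3) (C := 117 / 37) (c2 := 117 / 37) (k := 3)
    (by norm_num) le_rfl hF hR' hy1C (hF e he) (κ := kap3 H x) (T := ∅) (empty_subset _)
    (by simp)
  rw [sum_empty, mul_zero, add_zero] at h12
  refine lt_of_lt_of_le ?_ h12
  have h1 := bsm_nonneg (H := H) hx 3 e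
  have h2 : 0 ≤ ∑ f ∈ F with ¬ Disjoint (H e) (H f), x f *
      (2 / (117 / 37) * ((H e ∩ H f).card : ℝ) - (1 + kap3 H x f) / (7 / 3)) := by
    refine sum_nonneg fun f hf => mul_nonneg (hx f) ?_
    obtain ⟨hfF, hd⟩ := mem_filter.1 hf
    have h15 := one_le_inter hd
    have h16 := kap3_le hx (hF f hfF)
    have e1 : (1 + kap3 H x f) / (7 / 3) = 3 / 7 * (1 + kap3 H x f) := by ring
    have e2 : 2 / (117 / 37) * ((H e ∩ H f).card : ℝ) =
        74 / 117 * ((H e ∩ H f).card : ℝ) := by ring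
    rw [e1, e2]
    linarith
  push_cast
  have e3 : 2 / (117 / 37) * bsm H x 3 e = 74 / 117 * bsm H x 3 e := by ring
  rw [e3]
  linarith

/-- **Clique condition at level three.** -/
theorem clique_three : CliqueThree := by
  intro V E _ _ _ _ H x hx hdeg rep hrep hinj F R' hF hR' y1 z hy1C hy1c2 hz hzle hH1 C hCF hCs
    hCc
  refine cliques_three (rep := rep) (z := z) (s := s3 H x z) (Hh := Hh3 H x F R' y1) hx hdeg hinj
    hF hR' hy1C (fun e => rfl) (fun e => rfl)
    (fun e he => Hh3_pos hx hdeg hF hR' hy1C he) hH1 hz (fun e he hxe v hv hne => ?_)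
    (fun e he hxe v hv hvr X K hX hK => ?_) C hCF hCs hCc
  · exact hzle e he hxe v hv hne
  · obtain ⟨u, hu, huv⟩ := exists_mem_ne (show 1 < (H e).card by rw [hF e he]; norm_num) v
    obtain ⟨w, huw, hvw, hHe⟩ := third (hF e he) hu hv huv
    have hdom := dom_three hx hdeg hF hR' he hxe huv huw hvw hHe
    have hhead := head_c hx hdeg hF hR' hy1C hy1c2 he huv huw hvw hHe
    have := orphan hdom hhead
    rw [hX, hK]
    exact this

end H4.FKS
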