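import Mathlib
import Pool.Agent.H4.FKS.Main

/-!
# A universal coefficient `k - 1 + 1/k + 2/k^2 + O(1/k^3)`
-/

set_option autoImplicit false
set_option linter.unusedSectionVars false
set_option linter.unusedVariables false

namespace H4.FKS

open Finset

/-- The coefficient: `1`, `8/5`, `8/3` for sizes one, two, three and
`k - 1 + k / ((k - 1)^2 + 1)` for size `k ≥ 4`. -/
noncomputable def gC (k : ℕ) : ℝ :=
  if k = 1 then 1 else if k = 2 then 8 / 5 else if k = 3 then 8 / 3 else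
    (k : ℝ) - 1 + k / (((k : ℝ) - 1) ^ 2 + 1)

theorem gC_one : gC 1 = 1 := by simp [gC]

theorem gC_two : gC 2 = 8 / 5 := by simp [gC]

theorem gC_three : gC 3 = 8 / 3 := by simp [gC]

theorem gC_eq {k : ℕ} (hk : 4 ≤ k) : gC k = (k : ℝ) - 1 + k / (((k : ℝ) - 1) ^ 2 + 1) := by
  unfold gC
  rw [if_neg (by omega), if_neg (by omega), if_neg (by omega)]

theorem gC_lb {k : ℕ} (hk : 1 ≤ k) : (k : ℝ) - 1 + 1 / k ≤ gC k := by
  rcases hk.eq_or_lt with h | h
  · subst h; rw [gC_one]; norm_num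
  rcases (Nat.succ_le_of_lt h).eq_or_lt with h2 | h2
  · subst h2; simp only [Nat.succ_eq_add_one, Nat.reduceAdd]; rw [gC_two]; norm_num
  rcases (Nat.succ_le_of_lt h2).eq_or_lt with h3 | h3
  · subst h3; simp only [Nat.succ_eq_add_one, Nat.reduceAdd]; rw [gC_three]; norm_num
  · have h3' : 4 ≤ k := h3
    rw [gC_eq h3']
    have h4 : (4 : ℝ) ≤ k := by exact_mod_cast h3'
    have hk0 : (0 : ℝ) < k := by linarith
    have h5 : 1 / (k : ℝ) ≤ k / (((k : ℝ) - 1) ^ 2 + 1) := by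
      rw [div_le_div_iff₀ hk0 (by positivity)]
      nlinarith
    linarith

theorem gC_ub {k : ℕ} (hk : 1 ≤ k) : gC k ≤ k := by
  rcases hk.eq_or_lt with h | h
  · subst h; rw [gC_one]; norm_num
  rcases (Nat.succ_le_of_lt h).eq_or_lt with h2 | h2
  · subst h2; simp only [Nat.succ_eq_add_one, Nat.reduceAdd]; rw [gC_two]; norm_num
  rcases (Nat.succ_le_of_lt h2).eq_or_lt with h3 | h3
  · subst h3; simp only [Nat.succ_eq_add_one, Nat.reduceAdd]; rw [gC_three]; norm_num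
  · have h3' : 4 ≤ k := h3
    rw [gC_eq h3']
    have h4 : (4 : ℝ) ≤ k := by exact_mod_cast h3'
    have h5 : (k : ℝ) / (((k : ℝ) - 1) ^ 2 + 1) ≤ 1 := by
      rw [div_le_one (by positivity)]
      nlinarith
    linarith

theorem gC_step {k : ℕ} (hk : 2 ≤ k) : ((k : ℝ) - 1) * gC k ≤ (gC k - 1) * gC (k + 1) := by
  rcases hk.eq_or_lt with h | h
  · subst h; simp only [Nat.reduceAdd]; rw [gC_two, gC_three]; norm_num
  rcases (Nat.succ_le_of_lt h).eq_or_lt with h2 | h2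
  · subst h2
    simp only [Nat.succ_eq_add_one, Nat.reduceAdd]
    rw [gC_three, gC_eq (le_refl 4)]; norm_num
  · have h3' : 4 ≤ k := h2
    rw [gC_eq h3', gC_eq (show 4 ≤ k + 1 by omega)]
    push_cast
    have h4 : (4 : ℝ) ≤ k := by exact_mod_cast h3'
    set t : ℝ := (k : ℝ) with ht
    have hq : 0 < (t - 1) ^ 2 + 1 := by positivity
    have hr : 0 < t ^ 2 + 1 := by positivity
    have e1 : t - 1 + t / ((t - 1) ^ 2 + 1) =
        ((t - 1) * ((t - 1) ^ 2 + 1) + t) / ((t - 1) ^ 2 + 1) := by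
      field_simp
    have e2 : t + 1 - 1 + (t + 1) / ((t + 1 - 1) ^ 2 + 1) =
        (t * (t ^ 2 + 1) + (t + 1)) / (t ^ 2 + 1) := by
      have : t + 1 - 1 = t := by ring
      rw [this]
      field_simp
    have e3 : t - 1 + t / ((t - 1) ^ 2 + 1) - 1 =
        ((t - 2) * ((t - 1) ^ 2 + 1) + t) / ((t - 1) ^ 2 + 1) := by
      field_simp
      ring
    rw [e3, e2, e1]
    rw [← mul_div_assoc, div_mul_div_comm, div_le_div_iff₀ hq (mul_pos hq hr)]
    have h5 : (t - 1) * ((t - 1) * ((t - 1) ^ 2 + 1) + t) * (t ^ 2 + 1) ≤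
        ((t - 2) * ((t - 1) ^ 2 + 1) + t) * (t * (t ^ 2 + 1) + (t + 1)) := by
      have h6 : ((t - 2) * ((t - 1) ^ 2 + 1) + t) * (t * (t ^ 2 + 1) + (t + 1)) -
        (t - 1) * ((t - 1) * ((t - 1) ^ 2 + 1) + t) * (t ^ 2 + 1) = 6 * (t - 1) := by
        ring
      linarith
    calc (t - 1) * ((t - 1) * ((t - 1) ^ 2 + 1) + t) * (((t - 1) ^ 2 + 1) * (t ^ 2 + 1))
        = ((t - 1) * ((t - 1) * ((t - 1) ^ 2 + 1) + t) * (t ^ 2 + 1)) *
            ((t - 1) ^ 2 + 1) := by ring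
      _ ≤ (((t - 2) * ((t - 1) ^ 2 + 1) + t) * (t * (t ^ 2 + 1) + (t + 1))) *
            ((t - 1) ^ 2 + 1) := mul_le_mul_of_nonneg_right h5 hq.le

theorem gC_crit {k j : ℕ} (hk : 2 ≤ k) (hj : k < j) :
    gC j + ((k : ℝ) - 1) * gC k ≤ gC k * gC j := by
  have hk1 : 1 ≤ gC k := one_le_of_lb (by omega) (gC_lb (by omega))
  have h1 : gC (k + 1) ≤ gC j := by
    rcases (Nat.succ_le_of_lt hj).eq_or_lt with h | h
    · have : j = k + 1 := h.symm
      rw [this]
    · refine (gC_ub (by omega)).trans ((?_ : _ ≤ _).trans (gC_lb (by omega : 1 ≤ j)))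
      have h2 : (k : ℝ) + 2 ≤ j := by exact_mod_cast h
      have hj0 : (0 : ℝ) < j := by
        have : (2 : ℝ) ≤ k := by exact_mod_cast hk
        linarith
      have : 0 < 1 / (j : ℝ) := by positivity
      push_cast
      linarith
  have h2 := gC_step hk
  have h3 : (gC k - 1) * gC (k + 1) ≤ (gC k - 1) * gC j :=
    mul_le_mul_of_nonneg_left h1 (by linarith)
  linarith

section
variable {V E : Type} [Fintype V] [DecidableEq V] [Fintype E] [DecidableEq E]

/-- Coefficients with `1 / g k + (k - 1) / g j ≤ 1` for sizes `2 ≤ k < j`. -/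
theorem coloring_pair (H : E → Finset V) (hne : ∀ e, (H e).Nonempty) {g : ℕ → ℝ} {D : ℝ}
    (hD : 0 ≤ D)
    (hg1 : ∀ e, ((H e).card : ℝ) - 1 + 1 / (H e).card ≤ g (H e).card)
    (hdeg : ∀ v, ∑ e with v ∈ H e, g (H e).card ≤ D)
    (hg2 : ∀ (e f : E), 2 ≤ (H e).card → (H e).card < (H f).card →
      g (H f).card + ((H e).card - 1) * g (H e).card ≤ g (H e).card * g (H f).card) :
    ∃ w : Finset E → ℝ, (∀ M, 0 ≤ w M) ∧
      (∀ M, w M ≠ 0 → ∀ e ∈ M, ∀ f ∈ M, e ≠ f → Disjoint (H e) (H f)) ∧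
      (∀ e, 1 ≤ ∑ M with e ∈ M, w M) ∧ ∑ M, w M ≤ D := by
  refine coloring_crit H hne hD hg1 hdeg ?_
  intro v e f he hef
  set N : ℝ := (#{a | v ∈ H a ∧ (H a).card = (H e).card} : ℝ) with hN
  have hN0 : 0 ≤ N := Nat.cast_nonneg _
  have hgpos : ∀ a, 0 < g (H a).card := fun a =>
    lt_of_lt_of_le one_pos (one_le_of_lb (card_pos.2 (hne a)) (hg1 a))
  have hstar' : N * g (H e).card ≤ D := by
    refine le_trans ?_ (hdeg v)
    have h1 : N * g (H e).card = ∑ a with v ∈ H a ∧ (H a).card = (H e).card,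
        g (H a).card := by
      have h2 : ∀ a ∈ univ.filter (fun a => v ∈ H a ∧ (H a).card = (H e).card),
          g (H a).card = g (H e).card := by
        intro a ha
        rw [(mem_filter.1 ha).2.2]
      rw [sum_congr rfl h2, sum_const, nsmul_eq_mul]
    rw [h1]
    apply sum_le_sum_of_subset_of_nonneg
    · intro a ha
      exact mem_filter.2 ⟨mem_univ a, (mem_filter.1 ha).2.1⟩
    · intro a _ _
      exact (hgpos a).le
  have h3 := hg2 e f he hef
  have hef' : ((H e).card : ℝ) + 1 ≤ ((H f).card : ℝ) := by exact_mod_cast hef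
  have hpos : 0 < g (H f).card - (H e).card := by
    have h4 := hg1 f
    have h5 : 0 < 1 / ((H f).card : ℝ) := by
      have : (0 : ℝ) < ((H f).card : ℝ) := by
        have : (0 : ℝ) ≤ ((H e).card : ℝ) := Nat.cast_nonneg _
        linarith
      positivity
    linarith
  calc N * (g (H f).card - g (H e).card)
      ≤ N * (g (H e).card * (g (H f).card - (H e).card)) := by
        apply mul_le_mul_of_nonneg_left _ hN0
        linarith
    _ = N * g (H e).card * (g (H f).card - (H e).card) := by ring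
    _ ≤ D * (g (H f).card - (H e).card) := mul_le_mul_of_nonneg_right hstar' hpos.le

theorem coloring_univ (H : E → Finset V) (hne : ∀ e, (H e).Nonempty) {D : ℝ} (hD : 0 ≤ D)
    (hdeg : ∀ v, ∑ e with v ∈ H e, gC (H e).card ≤ D) :
    ∃ w : Finset E → ℝ, (∀ M, 0 ≤ w M) ∧
      (∀ M, w M ≠ 0 → ∀ e ∈ M, ∀ f ∈ M, e ≠ f → Disjoint (H e) (H f)) ∧
      (∀ e, 1 ≤ ∑ M with e ∈ M, w M) ∧ ∑ M, w M ≤ D :=
  coloring_pair H hne hD (fun e => gC_lb (card_pos.2 (hne e))) hdeg
    (fun e f he hef => gC_crit he hef)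

end

end H4.FKS
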